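import Pool.Agent.Lib.MP_aa40d3_nt.OC.FinalD
import Pool.Agent.Lib.MP_aa40d3_nt.SP.AtT

/-! Nilpotent curvature on a dense open set of closed points, all branches of all fibres. -/

open Polynomial
open scoped Polynomial.Bivariate IntermediateField

namespace Pool.Agent.GR.OC

open Pool.Agent.GR.CV Pool.Agent.GR.GE FB
open Pool.Agent.Lib.MP_a01f70_lc.QQ (Place)

theorem finalE (r : ℕ) : ∃ k : ℕ, ∀ (R : Type) [CommRing R] [Algebra.FiniteType ℤ R]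
    (ι ψ : R →+* ℂ) (S : CV.Sys R r) (f : R) (F : Type) [Field F] [Algebra ℂ F] (x y : F)
    (Sg M : Finset (Place ℂ F)) (p₀ : Place ℂ F) (g : Submodule ℂ (Matrix (Fin r) (Fin r) ℂ)),
    RingHom.ker ι ≤ RingHom.ker ψ → S.P.Monic → Irreducible (S.map ι).P → Transcendental ℂ x →
    ℂ⟮x, y⟯ = ⊤ → aevalAeval x y (S.map ι).P = 0 → p₀ ∈ M → M ⊆ Sg → 2 ≤ M.card →
    k ≤ 2 * genus F + M.card → RC.Free Sg p₀ →
    (∀ p ∈ M, ∀ φ, At φ p → TwoL (S.map ι) (φ x) (φ y)) →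
    (∀ p ∉ Sg, ∀ φ, At φ p → (S.map ι).Loc (φ x) (φ y)) → IrrO (S.map ι) x y → SimL g →
    LieO (S.map ι) x y g → (genus F = 0 ∨ DetO (S.map ι) x y) → ι f ≠ 0 →
    (∀ m : Ideal R, m.IsMaximal → RingHom.ker ι ≤ m → f ∉ m →
      (S.map (Ideal.Quotient.mk m)).Tri) → (S.map ψ).AlgAll := by
  obtain ⟨k, hk⟩ := finalD r
  refine ⟨k, fun R _ _ ι ψ S f F _ _ x y Sg M p₀ g h0 hP hI hx hxy hy h1 h2 h3 h4 h5 h6 hL hA hS
    hO hDe hf hF w u z hD => ?_⟩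
  have hD' : (S.map ι).D ≠ 0 := d_ne h0 fun e => hD (by rw [e, eval_zero])
  refine SP.all_spec ι ψ h0 S hP hI ?_ w u z hD
  obtain ⟨R', j, k1, k2, k3⟩ := SP.tri_loc ι S hf hF
  rw [← k2] at hI hy h6 hL hA hO hDe hD' ⊢
  exact hk R' R'.subtype R'.subtype (S.map j) F x y Sg M p₀ g le_rfl (hP.map _) hI hI hD' hx hxy hy
    h1 h2 h3 h4 h5 h6 hL hA hS hO hDe k3

end Pool.Agent.GR.OC
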