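import Pool.Agent.Lib.MP_aa40d3_nt.OC.Grp
import Pool.Agent.Lib.MP_aa40d3_nt.CP.Core
import Pool.Agent.Lib.MP_aa40d3_nt.OP.An
import Pool.Agent.Lib.MP_aa40d3_nt.FK.NPair

/-! Direct images with one generic puncture. -/

open Polynomial Matrix Set Filter Topology
open scoped Matrix.Norms.Operator

namespace Pool.Agent.GR.OC

open NP GC CV CP FB

variable {n N : ℕ}

/-- Stable `W`-modules in the commutant of `W` lie in `W` or contain all commutators. -/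
def AdZ (t : Fin n → ℂ) (A : Fin n → Mt N) (W : Subalgebra ℂ[X] (PM N)) : Prop :=
  ∀ V : Submodule ℂ[X] (PM N),
    (∀ Φ ∈ V, dl t • Φ.map derivative - (pm t A * Φ - Φ * pm t A) ∈ V) →
    (∀ (f : ℂ[X]) Φ, f ≠ 0 → f • Φ ∈ V → Φ ∈ V) →
    (∀ Φ ∈ W, ∀ Ψ ∈ V, Φ * Ψ = Ψ * Φ ∧ Φ * Ψ ∈ V) → (∀ Ψ ∈ V, Ψ ∈ W) ∨
      ∀ a b, (∀ Φ ∈ W, Φ * a = a * Φ) → (∀ Φ ∈ W, Φ * b = b * Φ) → a * b - b * a ∈ V

/-- The commutant of `W` is ramified at `t i`. -/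
def RamC (t : Fin n → ℂ) (A : Fin n → Mt N) (W : Subalgebra ℂ[X] (PM N)) (i : Fin n) : Prop :=
  ∃ Ψ, (∀ Φ ∈ W, Φ * Ψ = Ψ * Φ) ∧
    ¬ Commute (NormedSpace.exp ((2 * Real.pi * Complex.I : ℂ) • A i)) (Ψ.map (eval (t i)))

theorem prim_mul {Y : ℂ → Mat N} {x : ℂ} {Φ Ψ : PM N} {z w : Mat N}
    (e : Φ.map (eval x) * Y x = Y x * z) (e' : Ψ.map (eval x) * Y x = Y x * w) :
    (Φ * Ψ).map (eval x) * Y x = Y x * (z * w) := by
  rw [← coe_evalRingHom, Matrix.map_mul, coe_evalRingHom, Matrix.mul_assoc, e', ← Matrix.mul_assoc,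
    e, Matrix.mul_assoc]

theorem prim_comm {U : Set ℂ} (hU : U.Infinite) {Y : ℂ → Mat N} (hY : ∀ x ∈ U, (Y x).det ≠ 0)
    {Z Z' : Submodule ℂ (Mat N)} (h : ∀ z ∈ Z, ∀ w ∈ Z', z * w = w * z) {Φ Ψ : PM N}
    (h1 : Φ ∈ primW U Y Z) (h2 : Ψ ∈ primW U Y Z') : Φ * Ψ = Ψ * Φ := by
  ext1 a b
  refine eq_of_infinite_eval_eq _ _ (hU.mono fun x hx => ?_)
  obtain ⟨z, hz, e⟩ := h1 x hx
  obtain ⟨w, hw, e'⟩ := h2 x hx
  exact congrFun (congrFun (((Matrix.isUnit_iff_isUnit_det _).2 (hY x hx).isUnit).mul_right_cancel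
    ((prim_mul e e').trans (h z hz w hw ▸ (prim_mul e' e).symm))) a) b

theorem AdZ.adC [NeZero N] {t : Fin n → ℂ} {A : Fin n → Mat N} {W : Subalgebra ℂ[X] (PM N)}
    (h : AdZ t A W) {g : Fin n → (Mat N)ˣ} (hζ : ∀ a, QU (g a).val) {U : Set ℂ} (hU : IsOpen U)
    {x₀ : ℂ} (hx₀ : x₀ ∈ U) {Y : ℂ → Mat N} (hY0 : Y x₀ = 1) (hY : ∀ x ∈ U, (∀ i, x ≠ t i) ∧
      (Y x).det ≠ 0 ∧ HasDerivAt Y (sys t A x * Y x) x) (he : ExtProp t g U Y)
    (hW : ∀ Φ ∈ W, Φ ∈ primW U Y (Subalgebra.toSubmodule (GC.fib W x₀)))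
    (hZ : InvR (incl (Subgroup.closure (Set.range g))) (GC.fib W x₀)) :
    AdC (incl (Subgroup.closure (Set.range g))) (GC.fib W x₀) := by
  intro V h1 h2
  have hinf : U.Infinite := infinite_of_mem_nhds _ (hU.mem_nhds hx₀)
  have hd := fun x hx => (hY x hx).2.1
  refine (h _ (primt_stable hU hY V) (fun f Φ => OP.primW_sat hU hY V) fun Φ hΦ Ψ hΨ =>
    ⟨prim_comm hinf hd (fun z hz w hw => (h2 z hz w hw).1) (hW Φ hΦ) hΨ, fun x hx => ?_⟩).imp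
    (fun k y hy => ?_) fun k a b ha hb => ?_
  · obtain ⟨z, hz, e⟩ := hW Φ hΦ x hx
    obtain ⟨w, hw, e'⟩ := hΨ x hx
    exact ⟨_, (h2 z hz w hw).2, prim_mul e e'⟩
  · obtain ⟨Φ, hΦ, c, hc, e⟩ := fact_ontoQ hζ hx₀ (hY _ hx₀).1 hY0 he
      (fun γ hγ => h1 ⟨γ, hγ⟩) hy
    have h6 := (GC.fib W x₀).smul_mem ⟨Φ, k Φ hΦ, e⟩ c⁻¹
    rwa [inv_smul_smul₀ hc] at h6
  · have k1 : ∀ a, (∀ z ∈ GC.fib W x₀, z * a = a * z) → ∃ Φ : PM N, (∀ Ψ ∈ W, Ψ * Φ = Φ * Ψ) ∧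
        ∃ c : ℂ, c ≠ 0 ∧ Φ.map (eval x₀) = c • a := fun a ha => by
      obtain ⟨Φ, hΦ, e⟩ := fact_ontoQ hζ hx₀ (hY _ hx₀).1 hY0 he
        (Z := Subalgebra.toSubmodule (Subalgebra.centralizer ℂ (GC.fib W x₀ : Set (Mat N))))
        (fun γ hγ => inv_cent (σ := incl (Subgroup.closure (Set.range g))) (fun γ y hy => by
          simpa only [inv_inv, SetLike.mem_coe] using hZ γ⁻¹ y hy) ⟨γ, hγ⟩)
        ((Subalgebra.mem_centralizer_iff ℂ).2 ha)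
      exact ⟨Φ, fun Ψ hΨ => prim_comm hinf hd
        (fun z hz w hw => (Subalgebra.mem_centralizer_iff ℂ).1 hw z hz) (hW Ψ hΨ) hΦ, e⟩
    obtain ⟨Φ, a1, c, a2, a3⟩ := k1 a ha
    obtain ⟨Ψ, b1, e, b2, b3⟩ := k1 b hb
    obtain ⟨w, hw, h3⟩ := k Φ Ψ a1 b1 x₀ hx₀
    rw [hY0, mul_one, one_mul, ← coe_evalRingHom, ← RingHom.mapMatrix_apply, map_sub, map_mul,
      map_mul, RingHom.mapMatrix_apply, RingHom.mapMatrix_apply, coe_evalRingHom, a3, b3,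
      smul_mul_smul_comm, smul_mul_smul_comm, mul_comm e, ← smul_sub] at h3
    exact (V.smul_mem_iff (mul_ne_zero a2 b2)).1 (h3 ▸ hw)

theorem group_oc (r d : ℕ) (hr : 1 ≤ r) (hd : d ≠ 0) : ∃ k : ℕ, ∀ (n : ℕ) (Mov : Finset (Fin n))
    (L0 : List (Fin n)) (g : Fin n → GLr (r * d)) (Z : Subalgebra ℂ (Mt (r * d))) (o : Fin n),
    L0.Nodup → (∀ a, a ∈ L0) → InvR (incl (Subgroup.closure (Set.range g))) Z →
    CommA Z → Module.finrank ℂ Z = d → IrrZ (incl (Subgroup.closure (Set.range g))) Z →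
    AdC (incl (Subgroup.closure (Set.range g))) Z →
    (∀ a, a = o ∨ a ∈ Mov → One r (d - 1) Z (g a).val ∧ (g a).val ∉ Z) → o ∉ Mov → k ≤ Mov.card →
    PairH Mo (fun x => QU x.1.val) (L0.map (mkd {o} g)) →
    FinOn (incl (Subgroup.closure (Set.range g))) {y | ∀ z ∈ Z, z * y = y * z} := by
  obtain ⟨k, hk⟩ := finOn_oc r d hr hd
  refine ⟨k, fun n Mov L0 g Z o h0 hall h3 h4 h5 h6 h7 h8 ho hM hp => ?_⟩
  set Γ := Subgroup.closure (Set.range g) with hΓ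
  let g' : Fin n → Γ := fun a => ⟨g a, Subgroup.subset_closure ⟨a, rfl⟩⟩
  have hg : Subgroup.closure (Set.range g') = ⊤ := by
    apply Subgroup.map_injective Γ.subtype_injective
    rw [MonoidHom.map_closure, ← Set.range_comp, ← MonoidHom.range_eq_map, Subgroup.range_subtype]
    rfl
  refine hk n Mov L0 Γ g' (incl Γ) Z o h0 hall hg (incl_inj Γ) h3 h4 h5 h6 h7 h8 ho hM
    (PairH.of_map (P := Mo) (Q := fun x => QU x.1.val) (Γ.subtype.prodMap (MonoidHom.id Mk)) ?_)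
  rw [List.map_map]
  exact hp

theorem coreC (r d : ℕ) (hr : 1 ≤ r) (hd : d ≠ 0) : ∃ k : ℕ, ∀ (n : ℕ) (o : Fin n)
    (Mov : Finset (Fin n)) (t : Fin n → ℂ) (A : Fin n → Matrix (Fin (r * d)) (Fin (r * d)) ℂ)
    [NeZero (r * d)] (W : Subalgebra ℂ[X] (PM (r * d))), Gen {o} t →
    (Function.Injective fun i => (t i).re) → Cyc t A → IrrW t A W → AdZ t A W →
    (∀ Φ ∈ W, dl t • Φ.map derivative - (pm t A * Φ - Φ * pm t A) ∈ W) →
    (∀ Φ ∈ W, ∀ Ψ ∈ W, Φ * Ψ = Ψ * Φ) → Module.finrank ℂ[X] W = d →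
    (∀ i, i = o ∨ i ∈ Mov → ASE r (d - 1) t A W i ∧ RamC t A W i) → o ∉ Mov → k ≤ Mov.card →
    PCN t A → AlgOn t A {Ψ | ∀ Φ ∈ W, Φ * Ψ = Ψ * Φ} := by
  classical
  obtain ⟨k, hk⟩ := group_oc r d hr hd
  refine ⟨k, fun n o Mov t A _ W ht hre hpr hWi hWa hW hWc hWr hs ho hM hpc => ?_⟩
  obtain ⟨M, w, θ, hZ, hF, hG, hw, hA⟩ := exists_model4 ht hpr.cycH hpc
  obtain ⟨κ, H0, hκ, hH0, hc, hb⟩ := exists_core {o} t
  generalize hHe : (1 + κ) * H0 = H at hb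
  have hH : 0 < H := hHe ▸ mul_pos (by linarith) hH0
  have hwt : (fun i => w (Sum.inl i)) = t := funext hw
  have hwr : (fun i => (w (Sum.inl i)).re) = fun i => (t i).re := funext fun i => by rw [hw]
  have hmon : mon2 M.toModel2 H (w, θ) = vt (TT t A) (pp t) H := by
    simp only [mon2, hwt, hA]
  have hcham : w ∈ Cham M.m (fun i => (t i).re) H := by
    refine ⟨by rw [hwt]; exact hb, fun a b hab => ?_⟩
    rw [hw, hw]; exact hab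
  obtain ⟨L0, l1, l2⟩ := exists_lowerL hre Finset.univ fun _ _ _ _ => Finset.mem_univ _
  have h0 : L0.Nodup := l1.1.imp fun hab e => hab.ne (by rw [e])
  have hall : ∀ a, a ∈ L0 := fun a => List.mem_toFinset.1 (l2 ▸ Finset.mem_univ a)
  have hp := FBN.pairH_model M hκ hH0 hHe.le hZ (by rw [hwt]; exact hc) (hwr ▸ l1) hall
    (hwr ▸ hcham) hG hF
  rw [hmon] at hp
  have h1 : ∀ i, QU (vt (TT t A) (pp t) H i).val := fun i => by
    have := arc4_single M hre i hcham hZ hG hF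
    rwa [hmon] at this
  set U : Set ℂ := {x | ∀ i, x.im < (t i).im} with hU
  have hUo : IsOpen U := by
    rw [hU, ofPred_forall]
    exact isOpen_iInter_of_finite fun i => isOpen_lt Complex.continuous_im continuous_const
  have hUc : Convex ℝ U := by
    rw [hU, ofPred_forall]
    exact convex_iInter fun i => convex_halfSpace_im_lt _
  have hx₀ : cpt (-H, -H) ∈ U := fun i => by
    have := (hb i).2
    simp only [pp, cpt] at this ⊢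
    exact (abs_lt.1 this).1
  have hseg : ∀ x ∈ U, ∀ i, t i ∉ segment ℝ (cpt (-H, -H)) x := fun x hx i hi =>
    lt_irrefl _ (hUc.segment_subset hx₀ hx hi i)
  have hY : ∀ x ∈ U, (∀ i, x ≠ t i) ∧ (T t A (cpt (-H, -H)) x).det ≠ 0 ∧
      HasDerivAt (T t A (cpt (-H, -H))) (sys t A x * T t A (cpt (-H, -H)) x) x := fun x hx =>
    ⟨fun i h => lt_irrefl _ (h ▸ hx i),
      ((Matrix.isUnit_iff_isUnit_det _).1 (isUnit_Tr _)).ne_zero, hasDerivAt_T A (hseg x hx)⟩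
  have hext := extProp hre A hH.le hb
  have hinf : U.Infinite := infinite_of_mem_nhds _ (hUo.mem_nhds hx₀)
  have hWp : ∀ Φ ∈ W, Φ ∈ primW U (T t A (cpt (-H, -H)))
      (Subalgebra.toSubmodule (GC.fib W (cpt (-H, -H)))) := fun Φ hΦ x hx =>
    fib_T hW (hseg x hx) _ ⟨Φ, hΦ, rfl⟩
  have hce : ∀ Ψ : PM (r * d), (∀ Φ ∈ W, Φ * Ψ = Ψ * Φ) → ∀ x ∈ U,
      ∀ z ∈ GC.fib W (cpt (-H, -H)), z * ((T t A (cpt (-H, -H)) x)⁻¹ * Ψ.map (eval x) *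
        T t A (cpt (-H, -H)) x) = (T t A (cpt (-H, -H)) x)⁻¹ * Ψ.map (eval x) *
        T t A (cpt (-H, -H)) x * z := fun Ψ hΨ x hx z hz => by
    obtain ⟨Φ, hΦ, e⟩ := (fibc_TU hW (hseg x hx) z).1 hz
    have h5 : (Φ * Ψ).map (evalRingHom x) = (Ψ * Φ).map (evalRingHom x) := by rw [hΨ Φ hΦ]
    rw [Matrix.map_mul, Matrix.map_mul, coe_evalRingHom, e] at h5
    rw [← val_TU, ← Matrix.coe_units_inv]
    generalize TU t A (cpt (-H, -H)) x = u at h5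
    have h6 := congrArg (fun M => (u⁻¹).val * M * u.val) h5
    simpa only [mul_assoc, Units.inv_mul_cancel_left, Units.inv_mul, mul_one] using h6
  have hI : InvR (incl (Subgroup.closure (Set.range (vt (TT t A) (pp t) H))))
      (GC.fib W (cpt (-H, -H))) := fun γ => fib_vt hW hre hb γ.1 γ.2
  have hfin := hk n Mov L0 _ (GC.fib W (cpt (-H, -H))) o h0 hall hI (by
      rintro _ ⟨Φ, hΦ, rfl⟩ _ ⟨Ψ, hΨ, rfl⟩
      have e := congrArg (evalRingHom (cpt (-H, -H))).mapMatrix (hWc Φ hΦ Ψ hΨ)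
      rwa [map_mul, map_mul] at e)
    ((fib_rank hinf (fun x hx => (hY x hx).2.1) hWp).trans hWr)
    (IrrW.monoQ hWi h1 hUo hx₀ (T_self _ _ _) hY hext hWp)
    (hWa.adC h1 hUo hx₀ (T_self _ _ _) hY hext hWp hI)
    (fun i hi => ⟨(hs i hi).1.one hre A hb hW, fun h2 => by
      obtain ⟨Ψ, hΨ, hne⟩ := (hs i hi).2
      exact hne (comm_exp hre A hb Ψ i fun y hy => ⟨_, hce Ψ hΨ y hy _ h2, by
        rw [Matrix.mul_assoc, mul_nonsing_inv_cancel_left _ _ (hY y hy).2.1.isUnit]⟩)⟩) ho hM hp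
  obtain ⟨a1, a2⟩ := algOn_of h1 (fun x hx => (hY x hx).2.1) hext hfin
  obtain ⟨ε, hε, hball⟩ := Metric.isOpen_iff.1 hUo _ hx₀
  refine ⟨cpt (-H, -H), ε, T t A (cpt (-H, -H)), hε, fun x hx => ?_, a1.mono hball,
    fun Ψ hΨ a b => (a2 Ψ (hce Ψ hΨ) a b).mono hball⟩
  obtain ⟨h1, h2, h3⟩ := hY x (hball hx)
  exact ⟨h1, h2, hasDerivAt_mat.1 h3⟩

end Pool.Agent.GR.OC
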