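import Pool.Agent.Lib.MP_aa40d3_nt.OC.Top
import Pool.Agent.Lib.MP_aa40d3_nt.OC.Core
import Pool.Agent.Lib.MP_aa40d3_nt.FK.CovP
import Pool.Agent.Lib.MP_aa40d3_nt.NP.Rank

/-! Direct images of systems with a simple Lie algebra. -/

open Polynomial Matrix Set Filter Topology
open scoped Matrix.Norms.Operator

namespace Pool.Agent.GR.OC

open NP GC CV CP FB FK

/-- The local monodromy has the eigenvalues of the exponential of the residue. -/
theorem charpoly_vt {n N : ℕ} [NeZero N] {t : Fin n → ℂ} (A : Fin n → Mat N) {H : ℝ}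
    (ht : Function.Injective fun i => (t i).re) (hb : InBox (pp t) H) (i : Fin n) :
    (vt (TT t A) (pp t) H i).val.charpoly =
      (NormedSpace.exp ((2 * Real.pi * Complex.I : ℂ) • A i)).charpoly := by
  refine Polynomial.funext fun l => ?_
  have h2 : ∀ a b, Differentiable ℂ fun p : ℂ × Mat N => p.2 a b := fun a b =>
    (LinearMap.toContinuousLinearMap (Matrix.entryLinearMap ℂ ℂ a b)).differentiable.comp
      differentiable_snd
  have h1 : Differentiable ℂ fun p : ℂ × Mat N =>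
      p.2.charpoly.eval l - (vt (TT t A) (pp t) H i).val.charpoly.eval l := by
    refine Differentiable.sub_const ?_ _
    simp only [eval_charpoly, det_apply', Matrix.sub_apply]
    refine Differentiable.fun_sum fun σ _ => Differentiable.const_mul (fun p => ?_) _
    exact (HasFDerivAt.finsetProd fun j _ =>
      (((h2 (σ j) j).const_sub _) p).hasFDerivAt).differentiableAt
  refine (sub_eq_zero.1 (OL.van_lim h1 ht hb i fun y _ => ?_)).symm
  change (charpoly _).eval l - _ = 0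
  rw [charpoly_mul_comm, Units.inv_mul_cancel_left, sub_self]

theorem coreD (r : ℕ) (hr : 1 ≤ r) : ∃ k : ℕ, ∀ (d n : ℕ) (o : Fin n) (Mov Bs : Finset (Fin n))
    (t : Fin n → ℂ) (A : Fin n → Mt (r * d)) [NeZero (r * d)]
    (W : Subalgebra ℂ[X] (PM (r * d))), d ≠ 0 → Gen {o} t →
    (Function.Injective fun i => (t i).re) → Cyc t A → IrrW t A W → MonL r t A W →
    (∀ Φ ∈ W, dl t • Φ.map derivative - (pm t A * Φ - Φ * pm t A) ∈ W) →
    (∀ Φ ∈ W, ∀ Ψ ∈ W, Φ * Ψ = Ψ * Φ) → Module.finrank ℂ[X] W = d →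
    (∀ i ∈ Bs, RamAt t A W i ∧ ASp (r * d - r) t A i) →
    (∀ i, i ∉ Bs → ASp (r * d) t A i ∨ AEp r (d - 1) t A W i) →
    (∀ i, i = o ∨ i ∈ Mov →
      i ∉ Bs ∧ Chp r d (NormedSpace.exp ((2 * Real.pi * Complex.I : ℂ) • A i))) →
    o ∉ Mov → Mov.Nonempty → k + 2 * d ≤ Mov.card + Bs.card → ASi (r * d) t A → PCN t A →
    AlgOn t A {Ψ | ∀ Φ ∈ W, Φ * Ψ = Ψ * Φ} := by
  classical
  obtain ⟨k, hk⟩ := group_top r hr
  refine ⟨k, fun d n o Mov Bs t A _ W hd ht hre hpr hWi hWa hW hWc hWr hB hP hs ho hne hM hs' hpc =>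
    ?_⟩
  obtain ⟨M, w, θ, hZ, hF, hG, hw, hA⟩ := exists_model4 ht hpr.cycH hpc
  obtain ⟨κ, H0, hκ, hH0, hc, hb⟩ := exists_core {o} t
  generalize hHe : (1 + κ) * H0 = H at hb
  have hH : 0 < H := hHe ▸ mul_pos (by linarith) hH0
  have hwt : (fun i => w (Sum.inl i)) = t := funext hw
  have hwr : (fun i => (w (Sum.inl i)).re) = fun i => (t i).re := funext fun i => by rw [hw]
  have hmon : mon2 M.toModel2 H (w, θ) = vt (TT t A) (pp t) H := by
    simp only [mon2, hwt, hA]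
  have hcham : w ∈ Cham M.m (fun i => (t i).re) H := by
    refine ⟨by rw [hwt]; exact hb, fun a b hab => ?_⟩
    rw [hw, hw]; exact hab
  obtain ⟨L0, l1, l2⟩ := exists_lowerL hre Finset.univ fun _ _ _ _ => Finset.mem_univ _
  have h0 : L0.Nodup := l1.1.imp fun hab e => hab.ne (by rw [e])
  have hall : ∀ a, a ∈ L0 := fun a => List.mem_toFinset.1 (l2 ▸ Finset.mem_univ a)
  have hp := FBN.pairH_model M hκ hH0 hHe.le hZ (by rw [hwt]; exact hc) (hwr ▸ l1) hall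
    (hwr ▸ hcham) hG hF
  rw [hmon] at hp
  have h1 : ∀ i, QU (vt (TT t A) (pp t) H i).val := fun i => by
    have := arc4_single M hre i hcham hZ hG hF
    rwa [hmon] at this
  set U : Set ℂ := {x | ∀ i, x.im < (t i).im} with hU
  have hUo : IsOpen U := OL.low_open
  have hUc : Convex ℝ U := OL.low_conv
  have hx₀ : cpt (-H, -H) ∈ U := fun i => by
    have := (hb i).2
    simp only [pp, cpt] at this ⊢
    exact (abs_lt.1 this).1
  have hseg : ∀ x ∈ U, ∀ i, t i ∉ segment ℝ (cpt (-H, -H)) x := fun x hx i hi =>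
    lt_irrefl _ (hUc.segment_subset hx₀ hx hi i)
  have hY : ∀ x ∈ U, (∀ i, x ≠ t i) ∧ (T t A (cpt (-H, -H)) x).det ≠ 0 ∧
      HasDerivAt (T t A (cpt (-H, -H))) (sys t A x * T t A (cpt (-H, -H)) x) x := fun x hx =>
    ⟨fun i h => lt_irrefl _ (h ▸ hx i),
      ((Matrix.isUnit_iff_isUnit_det _).1 (isUnit_Tr _)).ne_zero, hasDerivAt_T A (hseg x hx)⟩
  have hext := extProp hre A hH.le hb
  have hinf : U.Infinite := infinite_of_mem_nhds _ (hUo.mem_nhds hx₀)
  have hWp : ∀ Φ ∈ W, Φ ∈ primW U (T t A (cpt (-H, -H)))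
      (Subalgebra.toSubmodule (GC.fib W (cpt (-H, -H)))) := fun Φ hΦ x hx =>
    fib_T hW (hseg x hx) _ ⟨Φ, hΦ, rfl⟩
  have hce : ∀ Ψ : PM (r * d), (∀ Φ ∈ W, Φ * Ψ = Ψ * Φ) → ∀ x ∈ U,
      ∀ z ∈ GC.fib W (cpt (-H, -H)), z * ((T t A (cpt (-H, -H)) x)⁻¹ * Ψ.map (eval x) *
        T t A (cpt (-H, -H)) x) = (T t A (cpt (-H, -H)) x)⁻¹ * Ψ.map (eval x) *
        T t A (cpt (-H, -H)) x * z := fun Ψ hΨ x hx z hz => by
    obtain ⟨Φ, hΦ, e⟩ := (fibc_TU hW (hseg x hx) z).1 hz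
    have h5 : (Φ * Ψ).map (evalRingHom x) = (Ψ * Φ).map (evalRingHom x) := by rw [hΨ Φ hΦ]
    rw [Matrix.map_mul, Matrix.map_mul, coe_evalRingHom, e] at h5
    rw [← val_TU, ← Matrix.coe_units_inv]
    generalize TU t A (cpt (-H, -H)) x = u at h5
    have h6 := congrArg (fun M => (u⁻¹).val * M * u.val) h5
    simpa only [mul_assoc, Units.inv_mul_cancel_left, Units.inv_mul, mul_one] using h6
  have hI : InvR (incl (Subgroup.closure (Set.range (vt (TT t A) (pp t) H))))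
      (GC.fib W (cpt (-H, -H))) := fun γ => fib_vt hW hre hb γ.1 γ.2
  have hrd : r ≤ r * d := Nat.le_mul_of_pos_right r (Nat.pos_of_ne_zero hd)
  have hfin := hk d n Mov Bs L0 _ (GC.fib W (cpt (-H, -H))) o hd h0 hall h1 hI (by
      rintro _ ⟨Φ, hΦ, rfl⟩ _ ⟨Ψ, hΨ, rfl⟩
      have e := congrArg (evalRingHom (cpt (-H, -H))).mapMatrix (hWc Φ hΦ Ψ hΨ)
      rwa [map_mul, map_mul] at e)
    ((fib_rank hinf (fun x hx => (hY x hx).2.1) hWp).trans hWr)
    (IrrW.monoQ hWi h1 hUo hx₀ (T_self _ _ _) hY hext hWp) (hWa H hH.le hb h1)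
    (fun i hi => ⟨by have := NP.rank_vtN hre A hb i (hB i hi).2; omega, by
      obtain ⟨Ψ, hΨ, hne⟩ := (hB i hi).1
      by_contra hcon
      push Not at hcon
      refine hne (comm_exp hre A hb Ψ i fun y hy => ?_)
      obtain ⟨z, hz, e⟩ := hWp Ψ hΨ y hy
      exact ⟨z, hcon z hz, e⟩⟩)
    (fun i hi => (hP i hi).imp (fun h => eq_one_of_rank (NP.rank_vtN hre A hb i h))
      (she_vt hW hre hb i))
    (fun i hi => ⟨(hs i hi).1, (hs i hi).2.imp fun E h => ⟨h.1, (charpoly_vt A hre hb i).trans h.2⟩⟩)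
    (eq_one_of_rank (NP.rank_infN hre A hH hb l1 hall hs')) ho hne hM hp
  obtain ⟨a1, a2⟩ := algOn_of h1 (fun x hx => (hY x hx).2.1) hext hfin
  obtain ⟨ε, hε, hball⟩ := Metric.isOpen_iff.1 hUo _ hx₀
  refine ⟨cpt (-H, -H), ε, T t A (cpt (-H, -H)), hε, fun x hx => ?_, a1.mono hball,
    fun Ψ hΨ a b => (a2 Ψ (hce Ψ hΨ) a b).mono hball⟩
  obtain ⟨h1, h2, h3⟩ := hY x (hball hx)
  exact ⟨h1, h2, hasDerivAt_mat.1 h3⟩

end Pool.Agent.GR.OC
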