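import Pool.Agent.Lib.MP_aa40d3_nt.OC.Stmt
import Pool.Agent.Lib.MP_aa40d3_nt.OG.Stmt

/-! Definitions used in the statement: systems with a simple Lie algebra on a curve. -/

open Polynomial Matrix
open scoped Polynomial.Bivariate

namespace Pool.Agent.GR.OC

open Pool.Agent.GR.CV

variable {F : Type} [Field F] [Algebra ℂ F] {r : ℕ}

/-- On the branch `x, y`, in the frame `G`, the system has a simple pole, and the exponential of
`2 π i` times the residue has at least two eigenvalues. -/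
def TwoL (S : CV.Sys ℂ r) (x y : LaurentSeries ℂ) : Prop :=
  ∃ G B : Matrix (Fin r) (Fin r) (LaurentSeries ℂ), G.det ≠ 0 ∧
    (∀ i j, ∀ k < 0, (B i j).coeff k = 0) ∧ OG.Two (B.map fun u => u.coeff 0) ∧
    aeval x S.D • (sL • G.map (LaurentSeries.derivative ℂ) + G * B) =
      (sL * LaurentSeries.derivative ℂ x) • (S.A.map (aevalAeval x y) * G)

/-- A space of columns over `F` that is stable under the connection is zero or everything. -/
def IrrO (S : CV.Sys ℂ r) (x y : F) : Prop :=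
  ∀ (δ : Derivation ℂ F F) (V : Submodule F (Fin r → F)), δ ≠ 0 →
    (∀ v ∈ V, (aeval x S.D • fun a => δ (v a)) - δ x • S.A.map (aevalAeval x y) *ᵥ v ∈ V) →
    V = ⊥ ∨ V = ⊤

/-- A simple Lie algebra of traceless matrices without proper invariant subspace. -/
def SimL (g : Submodule ℂ (Matrix (Fin r) (Fin r) ℂ)) : Prop :=
  (∀ a ∈ g, a.trace = 0) ∧ (∀ a ∈ g, ∀ b ∈ g, a * b - b * a ∈ g) ∧
    (∀ U : Submodule ℂ (Fin r → ℂ), (∀ a ∈ g, ∀ v ∈ U, a *ᵥ v ∈ U) → U = ⊥ ∨ U = ⊤) ∧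
    ∀ I ≤ g, (∀ a ∈ g, ∀ b ∈ I, a * b - b * a ∈ I) → I = ⊥ ∨ I = g

/-- The span over `F` of `P g P⁻¹`. -/
noncomputable def spn (P : Matrix (Fin r) (Fin r) F) (g : Submodule ℂ (Matrix (Fin r) (Fin r) ℂ)) :
    Submodule F (Matrix (Fin r) (Fin r) F) :=
  Submodule.span F {Φ | ∃ a ∈ g, Φ = P * a.map (algebraMap ℂ F) * P⁻¹}

/-- Stable under the connection induced on endomorphisms. -/
def Kept (S : CV.Sys ℂ r) (x y : F) (δ : Derivation ℂ F F)
    (W : Submodule F (Matrix (Fin r) (Fin r) F)) : Prop :=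
  ∀ Φ ∈ W, aeval x S.D • Φ.map δ -
    δ x • (S.A.map (aevalAeval x y) * Φ - Φ * S.A.map (aevalAeval x y)) ∈ W

/-- In some frame `P` over `F` the span of `g` is stable and has no proper stable subspace. -/
def LieO (S : CV.Sys ℂ r) (x y : F) (g : Submodule ℂ (Matrix (Fin r) (Fin r) ℂ)) : Prop :=
  ∃ P : Matrix (Fin r) (Fin r) F, P.det ≠ 0 ∧ ∀ δ : Derivation ℂ F F, δ ≠ 0 →
    Kept S x y δ (spn P g) ∧ ∀ W ≤ spn P g, Kept S x y δ W → W = ⊥ ∨ W = spn P g

end Pool.Agent.GR.OC
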