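import Pool.Agent.Lib.MP_aa40d3_nt.OC.Fld
import Pool.Agent.Lib.MP_aa40d3_nt.OC.StmtG
import Pool.Agent.Lib.MP_aa40d3_nt.OL.Defs
import Pool.Agent.Lib.MP_aa40d3_nt.OL.Van

/-! Auxiliary definitions for systems with a simple Lie algebra on a curve. -/

open Polynomial Matrix

namespace Pool.Agent.GR.OC

open NP GC CV OP

section
variable {r N : ℕ} {G : Type} [Group G]

/-- At least two eigenvalues. -/
def Tw (b : Mt r) : Prop := ∀ c : ℂ, ¬ IsNilpotent (b - c • (1 : Mt r))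

/-- The eigenvalues of a matrix that is trivial on all sheets but one. -/
def Chp (r d : ℕ) (m : Mt N) : Prop :=
  ∃ E : Mt r, Tw E ∧ m.charpoly = (X - C 1) ^ (r * (d - 1)) * E.charpoly

/-- A minimal invariant `Z`-module in the commutant of `Z`. -/
structure LiC (σ : G →* Mt N) (Z : Subalgebra ℂ (Mt N)) (V : Submodule ℂ (Mt N)) : Prop where
  inv : ∀ γ, ∀ y ∈ V, σ γ * y * σ γ⁻¹ ∈ V
  mod : ∀ z ∈ Z, ∀ y ∈ V, z * y = y * z ∧ z * y ∈ V
  min : ∀ U ≤ V, (∀ γ, ∀ y ∈ U, σ γ * y * σ γ⁻¹ ∈ U) → (∀ z ∈ Z, ∀ y ∈ U, z * y ∈ U) →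
    U = ⊥ ∨ U = V

/-- On every sheet the block of `V` is a Lie algebra for which blocks with two eigenvalues are
opposite. -/
def ShL (r : ℕ) (σ : G →* Mt N) (Z : Subalgebra ℂ (Mt N)) : Prop :=
  ∃ V, LiC σ Z V ∧ ∀ (J : Matrix (Fin N) (Fin r) ℂ) (K : Matrix (Fin r) (Fin N) ℂ), K * J = 1 →
    J * K ∈ Z → (∀ z ∈ Z, ∃ c : ℂ, K * z = c • K) → LieW (V.map (sandL K J)) ∧
      ∀ x y, σ x * (J * K) = J * K * σ x → σ y * (J * K) = J * K * σ y → QU (K * σ x * J) →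
        QU (K * σ y * J) → Tw (K * σ x * J) → Tw (K * σ y * J) →
        Opp (V.map (sandL K J)) (K * σ x * J) (K * σ y * J)

/-- `ShL` for the monodromy group of a direct image. -/
def MonL (r : ℕ) {n : ℕ} [NeZero N] (t : Fin n → ℂ) (A : Fin n → Mt N)
    (W : Subalgebra ℂ[X] (PM N)) : Prop :=
  ∀ H : ℝ, 0 ≤ H → InBox (pp t) H → (∀ i, QU (vt (TT t A) (pp t) H i).val) →
    ShL r (incl (Subgroup.closure (Set.range (vt (TT t A) (pp t) H)))) (GC.fib W (cpt (-H, -H)))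

end

/-- `LieO` for a connection matrix over the function field. -/
def LieB {r : ℕ} {F : Type} [Field F] [Algebra ℂ F] (δ : Derivation ℂ F F)
    (B : Matrix (Fin r) (Fin r) F) (g : Submodule ℂ (Mt r)) : Prop :=
  ∃ P : Matrix (Fin r) (Fin r) F, P.det ≠ 0 ∧ (∀ Φ ∈ spn P g, Φ.map δ - (B * Φ - Φ * B) ∈ spn P g) ∧
    ∀ L ≤ spn P g, (∀ Φ ∈ L, Φ.map δ - (B * Φ - Φ * B) ∈ L) → L = ⊥ ∨ L = spn P g

end Pool.Agent.GR.OC
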