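import Pool.Agent.Lib.MP_aa40d3_nt.OP.Esc

/-! The escape lemma for one marked member, with a free choice of the second member. -/

namespace Pool.Agent.GR.OC

open GC FB OP

variable {n : ℕ} {G : Type} [Group G] {Mov : Finset (Fin n)} {L0 : List (Fin n)} {g : Fin n → G}
  {A : Type} [Ring A] [Algebra ℂ A] [FiniteDimensional ℂ A]

theorem escC (h0 : L0.Nodup) (hall : ∀ a, a ∈ L0) (hg : Subgroup.closure (Set.range g) = ⊤)
    (P : G → Prop) (hP : ∀ γ x, P x → P (γ * x * γ⁻¹)) (hP1 : ¬ P 1) (hPa : ∀ a ∈ Mov, P (g a))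
    {o : Fin n} (ho : o ∉ Mov) {D : ℕ} (hk : Kf (D + 1) (D + 1) ≤ Mov.card)
    (hD : Module.finrank ℂ A ≤ D) (ρ : G →* A) {Q : G → Prop} (hQ : ∀ γ x, Q x → Q (γ * x * γ⁻¹))
    (hp : PairH Mo (fun x => Q x.1) (L0.map (mkd {o} g))) (H : Subgroup G) (hH : ∀ x, P x → x ∈ H) :
    ∃ (x : G) (C : Set G), IsConj (g o) x ∧ C.Nonempty ∧ (∀ y ∈ C, P y) ∧
      (∀ γ, ∀ a ∈ escSp ρ (Subgroup.closure C), ρ γ * a * ρ γ⁻¹ ∈ escSp ρ (Subgroup.closure C)) ∧
      ∀ y ∈ C, ∀ K : Submodule ℂ A, (∀ w ∈ H, Q (x * (w * y * w⁻¹)) → ρ w ∈ K) →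
        escSp ρ (Subgroup.closure C) ≤ K := by
  obtain ⟨As, R, h, hs, hlen, hA⟩ := doubling h0 hall (esc_lev ρ hD P hP) (D + 1)
    (front_init h0 hall hk fun a ha => ⟨g a, mem_cl (List.mem_singleton_self a), hPa a ha⟩)
  obtain ⟨h', hs', rfl⟩ := St.lift (MonoidHom.fst G Mk) (g := mkd {o} g) hs
  have hPh : ∀ a ∈ Mov, P (h' a).1 := fun a ha => by
    obtain ⟨c, hc⟩ := isConj_iff.1 (hs.conj a)
    exact (show c * g a * c⁻¹ = (h' a).1 from hc) ▸ hP c _ (hPa a ha)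
  obtain ⟨j, hj, hV⟩ := esc_chain hD (fun j => escV ρ (MonoidHom.fst G Mk ∘ h') (As.take j).flatten)
    fun j => escV_mono ρ _ (List.take_sublist_take_left (Nat.le_succ j)).flatten
  have hj' : j < As.length := by omega
  simp only [List.take_succ_eq_append_getElem hj', List.flatten_append, List.flatten_cons,
    List.flatten_nil, List.append_nil] at hV
  obtain ⟨-, ⟨z, hz, hPz⟩, hinv⟩ := hA As[j] (List.getElem_mem hj')
  have hmov : ∀ a ∈ As.flatten, a ∈ Mov := fun a ha => by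
    obtain ⟨B, hB, haB⟩ := List.mem_flatten.1 ha
    exact (hA B hB).1 a haB
  obtain ⟨b₀, B₀, hb₀⟩ : ∃ b B, As[j] = b :: B := by
    refine List.exists_cons_of_ne_nil fun e => hP1 ?_
    rw [e, cl] at hz
    simp only [List.not_mem_nil, Set.ofPred_false, Set.image_empty, Subgroup.closure_empty,
      Subgroup.mem_bot] at hz
    exact hz ▸ hPz
  have hAs : As.flatten = (As.take j).flatten ++ (As[j] ++ (As.drop (j + 1)).flatten) := by
    conv_lhs => rw [← List.take_append_drop j As, List.drop_eq_getElem_cons hj']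
    simp only [List.flatten_append, List.flatten_cons]
  obtain ⟨R₁, R₂, rfl⟩ := List.append_of_mem ((List.mem_append.1
    (hs.perm.mem_iff.2 (hall o))).resolve_left fun e => ho (hmov o e))
  generalize hT : (As.flatten ++ R₁).map h' = T
  have h1 : Hur (L0.map (mkd {o} g)) ((T.prod * h' o * T.prod⁻¹) :: (T ++ R₂.map h')) :=
    (hur_of_st h0 hs').trans (by simpa [← hT] using (hur_front T (h' o)).app_right (R₂.map h'))
  obtain ⟨c, hc⟩ := isConj_iff.1 (hs'.conj o)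
  have hx : Mo (T.prod * h' o * T.prod⁻¹) := by
    rw [mo_conj, ← hc, mo_conj, mo_mkd]
    exact Finset.mem_singleton_self o
  have hxc : IsConj (g o) (T.prod * h' o * T.prod⁻¹).1 :=
    (hs.conj o).trans (isConj_iff.2 ⟨T.prod.1, rfl⟩)
  generalize T.prod * h' o * T.prod⁻¹ = x at h1 hx hxc
  refine ⟨x.1, (MonoidHom.fst G Mk ∘ h') '' {a | a ∈ As[j]}, hxc,
    ⟨_, b₀, by simp [hb₀], rfl⟩, ?_, fun γ a ha => (hinv γ (hg ▸ Subgroup.mem_top γ)).le
      ⟨a, ha, rfl⟩, ?_⟩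
  · rintro _ ⟨a, ha, rfl⟩
    exact hPh a ((hA _ (List.getElem_mem hj')).1 a ha)
  rintro _ ⟨b, hb, rfl⟩ K hK
  refine (esc_le ρ _ hV).trans (Submodule.span_le.2 ?_)
  rintro _ ⟨l, hl, rfl⟩
  obtain ⟨B₁, B₂, hB⟩ := List.append_of_mem hb
  obtain ⟨C', h2⟩ := hur_pass (hl.map h') x
  have h5 := (hur_blockL (B₁.map h') [h' b]).ctx (x :: (As.take j).flatten.map h')
    ((B₂ ++ (As.drop (j + 1)).flatten ++ R₁).map h' ++ R₂.map h')
  generalize (List.map (fun y => [h' b].prod⁻¹ * y * [h' b].prod) (B₁.map h')) = B' at h5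
  have h3 := hp C' _ (h' b) (B' ++ ((B₂ ++ (As.drop (j + 1)).flatten ++ R₁).map h' ++ R₂.map h'))
    ((h1.trans (by simpa [← hT, hAs, hB] using h5)).trans (by
      simpa using h2.app_right (h' b :: (B' ++
        ((B₂ ++ (As.drop (j + 1)).flatten ++ R₁).map h' ++ R₂.map h')))))
    (Or.inl (by simpa using (mo_conj (l.map h').prod⁻¹ x).2 hx))
  have e : (l.map (MonoidHom.fst G Mk ∘ h')).prod = (l.map h').prod.1 := by
    rw [← List.map_map, ← map_list_prod]
    rfl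
  refine hK _ (H.list_prod_mem fun y hy => ?_) ?_
  · obtain ⟨a, ha, rfl⟩ := List.mem_map.1 hy
    exact hH _ (hPh a (hmov a ((List.take_sublist j As).flatten.subset (hl.subset ha))))
  · have h4 := hQ (l.map h').prod.1 _ h3
    rw [e]
    simpa [mul_assoc] using h4

end Pool.Agent.GR.OC
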