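import Pool.Agent.Lib.MP_aa40d3_nt.OC.Dfn
import Pool.Agent.Lib.MP_aa40d3_nt.OK.Clo
import Pool.Agent.Lib.MP_aa40d3_nt.OK.Com
import Pool.Agent.Lib.MP_aa40d3_nt.OK.Cont
import Pool.Agent.Lib.MP_aa40d3_nt.OK.Sko

/-! The blocks of the monodromy on one sheet lie in the closure of the group of exponentials. -/

open Polynomial Matrix Filter Topology
open scoped Matrix.Norms.Operator

namespace Pool.Agent.GR.OC

open NP GC CV OP OL OG OK

attribute [local instance 100] LieRing.ofAssociativeRing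

theorem fam_mul {N r : ℕ} {J : Matrix (Fin N) (Fin r) ℂ} {K : Matrix (Fin r) (Fin N) ℂ}
    (hKJ : K * J = 1) {a : Mt N} (h : Commute (J * K) a) (b : Mt N) :
    K * (a * b) * J = K * a * J * (K * b * J) ∧ K * (b * a) * J = K * b * J * (K * a * J) := by
  constructor
  · rw [show K * a * J * (K * b * J) = K * (a * (J * K)) * (b * J) by simp only [Matrix.mul_assoc],
      ← h.eq, ← Matrix.mul_assoc K (J * K), ← Matrix.mul_assoc K J, hKJ, Matrix.one_mul]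
    simp only [Matrix.mul_assoc]
  · rw [show K * b * J * (K * a * J) = K * b * (J * K * a * J) by simp only [Matrix.mul_assoc],
      h.eq, Matrix.mul_assoc a, Matrix.mul_assoc J, hKJ, Matrix.mul_one]
    simp only [Matrix.mul_assoc]

theorem opp_fam0 {n N r : ℕ} [NeZero N] [NeZero r] {t : Fin n → ℂ} {A : Fin n → Mt N} {H : ℝ}
    (ht : Function.Injective fun i => (t i).re) (hb : InBox (pp t) H) {g W : Submodule ℂ (Mt r)}
    (hg : SimL g) {J : Matrix (Fin N) (Fin r) ℂ} {K : Matrix (Fin r) (Fin N) ℂ} (hKJ : K * J = 1)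
    (Φ : Mt r →ₗ[ℂ] PM N) {c : ℂ[X]} (hc : c ≠ 0) (hm : ∀ a b, Φ a * Φ b = c • Φ (a * b))
    (h1 : Φ 1 = c • 1)
    (he : ∀ y ∈ Lo t, ∀ a, Commute (J * K)
      (((Fb t A H y)⁻¹).val * (Φ a).map (eval y) * (Fb t A H y).val))
    (hW : ∀ y ∈ Lo t, ∀ a ∈ g,
      K * (((Fb t A H y)⁻¹).val * (Φ a).map (eval y) * (Fb t A H y).val) * J ∈ W)
    (hd : Module.finrank ℂ W ≤ Module.finrank ℂ g) : LieW W ∧
      ∀ γ ∈ Subgroup.closure (Set.range (vt (TT t A) (pp t) H)),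
      ∀ δ ∈ Subgroup.closure (Set.range (vt (TT t A) (pp t) H)),
        γ.val * (J * K) = J * K * γ.val → δ.val * (J * K) = J * K * δ.val →
        Tw (K * γ.val * J) → Tw (K * δ.val * J) → Opp W (K * γ.val * J) (K * δ.val * J) := by
  obtain ⟨x, hx, x0⟩ := ((finite_setOfPred_isRoot hc).countable.dense_compl ℂ).exists_mem_open
    (low_open (t := t)) ⟨⟨0, -H⟩, fun j => (abs_lt.1 (hb j).2).1⟩
  replace hx : c.eval x ≠ 0 := hx
  obtain ⟨θ, hθ⟩ : ∃ θ : (Mt N)ˣ → ℂ → Module.End ℂ (Mt r), ∀ Y y a,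
      θ Y y a = K * ((Y⁻¹).val * (Φ a).map (eval y) * Y.val) * J :=
    ⟨fun Y y => sandL K J ∘ₗ LinearMap.mulLeftRight ℂ ((Y⁻¹).val, Y.val) ∘ₗ
      (leval y).mapMatrix ∘ₗ Φ, fun _ _ _ => rfl⟩
  have ev : ∀ (y : ℂ) (P : PM N), (c • P).map (eval y) = c.eval y • P.map (eval y) := fun y P =>
    Matrix.ext fun i j => eval_mul
  have k1 : ∀ y ∈ Lo t, c.eval y ≠ 0 → ∀ a b, ((c.eval y)⁻¹ • θ (Fb t A H y) y) (a * b) =
      ((c.eval y)⁻¹ • θ (Fb t A H y) y) a * ((c.eval y)⁻¹ • θ (Fb t A H y) y) b := by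
    intro y hy h0 a b
    simp only [LinearMap.smul_apply, hθ]
    rw [smul_mul_smul_comm, ← (fam_mul hKJ (he y hy a) _).1, mul_assoc _ (Fb t A H y).val,
      mul_assoc ((Fb t A H y)⁻¹).val ((Φ b).map _), Units.mul_inv_cancel_left, ← mul_assoc,
      mul_assoc _ ((Φ a).map _), show (Φ a).map (eval y) * (Φ b).map (eval y) = _ from
      (Matrix.map_mul (f := evalRingHom y)).symm, hm]
    erw [ev]
    rw [mul_smul_comm, smul_mul_assoc, Matrix.mul_smul, Matrix.smul_mul, smul_smul,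
      inv_mul_cancel_right₀ h0]
  have k2 : ∀ (Y : ℂ → (Mt N)ˣ) (y : ℂ), DifferentiableAt ℂ (fun y => (Y y).val) y →
      ∀ a, DifferentiableAt ℂ (fun y => θ (Y y) y a) y := fun Y y h a => by
    simp only [hθ]
    exact lin_diff (sandL K J) ((((h.inverse (Y y).isUnit).congr_of_eventuallyEq
      (Eventually.of_forall fun y => (Ring.inverse_unit (Y y)).symm)).mul (raml2_diff _ y)).mul h)
  have k3 : ∀ y ∈ Lo t, DifferentiableAt ℂ (fun y => (Fb t A H y).val) y := fun y hy =>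
    differentiableAt_Yb A hb (x := y) fun j _ => hy j
  obtain ⟨b1, b2⟩ := sim_map hg _ (k1 x x0 hx) (by
    rw [LinearMap.smul_apply, hθ, h1, ev, Matrix.map_one _ eval_zero eval_one, mul_smul_comm,
      mul_one, smul_mul_assoc, Units.inv_mul, Matrix.mul_smul, Matrix.smul_mul, Matrix.mul_one, hKJ,
      smul_smul, inv_mul_cancel₀ hx, one_smul])
  set e := LinearEquiv.ofBijective _ b1 with e0
  have e1 : ∀ a, ((c.eval x)⁻¹ • θ (Fb t A H x) x) (e.symm a) = a := e.apply_symm_apply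
  have e2 : g.map ((c.eval x)⁻¹ • θ (Fb t A H x) x) = W :=
    Submodule.eq_of_le_of_finrank_le (Submodule.map_le_iff_le_comap.2 fun a ha =>
      W.smul_mem _ (hθ _ _ _ ▸ hW x x0 a ha)) (hd.trans_eq (e.finrank_map_eq g).symm)
  rw [e2] at b2
  have hL : LieW W := ⟨b2.1, b2.2.1, b2.2.2.1⟩
  have k4 : ∀ Ψ, OK.Rel W Ψ → ∀ y ∈ Lo t,
      Ψ (c.eval y) (θ (Fb t A H y) y ∘ₗ e.symm.toLinearMap) = 0 := fun Ψ hΨ => by
    refine (DifferentiableOn.analyticOnNhd (fun y hy => (hΨ.1 _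
      (fun y => θ (Fb t A H y) y ∘ₗ e.symm.toLinearMap) y c.differentiableAt fun a =>
        k2 _ y (k3 y hy) _).differentiableWithinAt) low_open
      ).eqOn_zero_of_preconnected_of_eventuallyEq_zero low_conv.isPreconnected x0 ?_
    filter_upwards [low_open.mem_nhds x0, c.continuous.continuousAt.eventually_ne hx,
      loc_fam hL (T := fun y => ((c.eval y)⁻¹ • θ (Fb t A H y) y) ∘ₗ e.symm.toLinearMap) (x := x)
        (fun a => (c.continuous.continuousAt.inv₀ hx).smul (k2 _ x (k3 x x0) _).continuousAt)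
        (LinearMap.ext e1)] with y hy h0 h
    obtain ⟨u, hu, e3⟩ := h (fun a b => by
      rw [LinearMap.comp_apply, LinearMap.comp_apply, LinearMap.comp_apply, ← k1 y hy h0]
      refine congrArg _ (b1.1 ?_)
      rw [k1 x x0 hx]
      exact (e1 _).trans (congrArg₂ _ (e1 a) (e1 b)).symm) fun a ha => by
        obtain ⟨z, hz, rfl⟩ := e2.ge ha
        rw [LinearMap.comp_apply]
        erw [e.symm_apply_apply z]
        exact W.smul_mem _ (hθ _ _ _ ▸ hW y hy z hz)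
    have := hΨ.2 u hu _ h0
    rwa [← e3, LinearMap.smul_comp, smul_smul, mul_inv_cancel₀ h0, one_smul] at this
  have k5 : ∀ γ ∈ Subgroup.closure (Set.range (vt (TT t A) (pp t) H)), Commute (J * K) γ.val →
      ∀ b : (Mt r)ˣ, b.val = K * (γ⁻¹).val * J → (b⁻¹).val = K * γ.val * J → Cl0 W b := by
    intro γ hγ h b hb1 hb2 Ψ hΨ
    have := van_gen (fun y Y => Ψ ((c.eval x)⁻¹ * c.eval y)
      ((c.eval x)⁻¹ • θ Y y ∘ₗ e.symm.toLinearMap)) (fun Y y hY => hΨ.1 _ _ y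
        (c.differentiableAt.const_mul _) fun a => (k2 Y y hY _).const_smul _) ht hb hγ
      (k4 (fun d T => Ψ ((c.eval x)⁻¹ * d) ((c.eval x)⁻¹ • T)) ⟨fun d T y hd hT => hΨ.1 _ _ y
        (hd.const_mul _) fun a => (hT a).const_smul _, fun u hu d hd => by
          simpa only [smul_smul] using hΨ.2 u hu _ (mul_ne_zero (inv_ne_zero hx) hd)⟩) x x0
    rw [inv_mul_cancel₀ hx] at this
    refine (congrArg _ (LinearMap.ext fun a => ?_)).trans this
    conv_lhs => rw [← e1 a, AdU_apply, hb1, hb2, LinearMap.smul_apply, hθ, mul_smul_comm,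
      smul_mul_assoc, ← (fam_mul hKJ h.units_inv_right _).1, ← (fam_mul hKJ h _).2]
    rw [LinearMap.smul_apply, LinearMap.comp_apply, hθ, _root_.mul_inv_rev, Units.val_mul,
      Units.val_mul]
    simp only [mul_assoc, LinearEquiv.coe_coe]
  have k6 : ∀ γ ∈ Subgroup.closure (Set.range (vt (TT t A) (pp t) H)), Commute (J * K) γ.val →
      ∃ b ∈ Cl W, b.val = K * γ.val * J := fun γ hγ h =>
    ⟨⟨K * γ.val * J, K * (γ⁻¹).val * J,
      by rw [← (fam_mul hKJ h _).1, γ.mul_inv, Matrix.mul_one, hKJ],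
      by rw [← (fam_mul hKJ h _).2, γ.inv_mul, Matrix.mul_one, hKJ]⟩,
      ⟨k5 _ (inv_mem hγ) h.units_inv_right _ rfl rfl, k5 _ hγ h _ rfl rfl⟩, rfl⟩
  refine ⟨hL, fun γ hγ δ hδ c1 c2 t1 t2 => ?_⟩
  obtain ⟨u, hu, e3⟩ := k6 γ hγ c1.symm
  obtain ⟨v, hv, e4⟩ := k6 δ hδ c2.symm
  rw [← e3] at t1 ⊢
  rw [← e4] at t2 ⊢
  let L : LieSubalgebra ℂ (Mt r) := ⟨W, fun {a b} ha hb => hL.lie a ha b hb⟩
  exact opp_big (L := L) hL b2.2.2.2 (big_cl (L := L) hL) hu hv t1 t2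

theorem opp_fam {n N r : ℕ} [NeZero N] [NeZero r] {t : Fin n → ℂ} {A : Fin n → Mt N} {H : ℝ}
    (ht : Function.Injective fun i => (t i).re) (hb : InBox (pp t) H) {g W : Submodule ℂ (Mt r)}
    (hg : SimL g) {J : Matrix (Fin N) (Fin r) ℂ} {K : Matrix (Fin r) (Fin N) ℂ} (hKJ : K * J = 1)
    (Φ : Mt r →ₗ[ℂ] PM N) {c : ℂ[X]} (hc : c ≠ 0) (hm : ∀ a b, Φ a * Φ b = c • Φ (a * b))
    (h1 : Φ 1 = c • 1)
    (he : ∀ y ∈ Lo t, ∀ a, Commute (J * K)
      (((Fb t A H y)⁻¹).val * (Φ a).map (eval y) * (Fb t A H y).val))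
    (hW : ∀ y ∈ Lo t, ∀ a ∈ g,
      K * (((Fb t A H y)⁻¹).val * (Φ a).map (eval y) * (Fb t A H y).val) * J ∈ W)
    (hd : Module.finrank ℂ W ≤ Module.finrank ℂ g) : LieW W ∧
      ∀ γ ∈ Subgroup.closure (Set.range (vt (TT t A) (pp t) H)),
      ∀ δ ∈ Subgroup.closure (Set.range (vt (TT t A) (pp t) H)),
        γ.val * (J * K) = J * K * γ.val → δ.val * (J * K) = J * K * δ.val →
        QU (K * γ.val * J) → QU (K * δ.val * J) → Tw (K * γ.val * J) → Tw (K * δ.val * J) →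
        Opp W (K * γ.val * J) (K * δ.val * J) :=
  (opp_fam0 ht hb hg hKJ Φ hc hm h1 he hW hd).imp_right
    fun h γ hγ δ hδ c1 c2 _ _ => h γ hγ δ hδ c1 c2

end Pool.Agent.GR.OC
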