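import Pool.Agent.Lib.MP_aa40d3_nt.OC.Main
import Pool.Agent.Lib.MP_aa40d3_nt.CP.Final
import Pool.Agent.Lib.MP_aa40d3_nt.RC.Lst
import Pool.Agent.Lib.MP_aa40d3_nt.RC.Cov

/-! Systems on an arbitrary curve with one free puncture. -/

open Polynomial Matrix
open scoped Polynomial.Bivariate IntermediateField

namespace Pool.Agent.GR.OC

open Pool.Agent.GR.CV Pool.Agent.GR.GE FB CP
open Pool.Agent.Lib.MP_a01f70_lc.QQ (Place)

variable {r : ℕ} {F : Type} [Field F] [Algebra ℂ F] {S S' : CV.Sys ℂ r} {x y f w : F}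
  {E : Derivation ℤ F F}

theorem chg_conC (h : Chg S S' x y f w E) : ∃ (δ : Derivation ℂ F F)
    (B : Matrix (Fin r) (Fin r) F), CP.Con S' f w δ B ∧
      aeval x S.D • B = δ x • S.A.map (aevalAeval x y) := by
  let δ : Derivation ℂ F F :=
    { toFun := E
      map_add' := map_add E
      map_smul' := fun c u => by
        rw [Algebra.smul_def, E.leibniz, h.ext, smul_zero, add_zero, RingHom.id_apply,
          Algebra.smul_def, Algebra.algebraMap_self, RingHom.id_apply, Algebra.smul_def]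
      map_one_eq_zero' := E.map_one_eq_zero
      leibniz' := E.leibniz }
  have h1 : aeval f S'.D ≠ 0 := fun e => h.m'.tr ⟨_, h.D', e⟩
  refine ⟨δ, _, ⟨h.m', h.D', h.one, smul_inv_smul₀ h1 _⟩, ?_⟩
  rw [smul_comm, h.eq, smul_smul, inv_mul_cancel_left₀ h1]
  rfl

section
variable {δ : Derivation ℂ F F} {B : Matrix (Fin r) (Fin r) F}

theorem AdF.adB (h : AdF S x y) (h0 : δ ≠ 0)
    (e : aeval x S.D • B = δ x • S.A.map (aevalAeval x y)) : AdB δ B := fun W hW =>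
  h δ W h0 fun Φ hΦ => by
    have h4 := W.smul_mem (aeval x S.D) (hW Φ hΦ)
    rwa [smul_sub, smul_sub, ← Matrix.smul_mul, ← Matrix.mul_smul, e, Matrix.smul_mul,
      Matrix.mul_smul, ← smul_sub] at h4

theorem DetO.detF (h : DetO S x y) (h0 : aeval x S.D ≠ 0)
    (e : aeval x S.D • B = δ x • S.A.map (aevalAeval x y)) : DetF δ B := by
  obtain ⟨m, u, hm, hu, e'⟩ := h
  refine ⟨m, u, hm, hu, mul_left_cancel₀ h0 ?_⟩
  have h4 := congrArg Matrix.trace e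
  rw [trace_smul, trace_smul (δ x), smul_eq_mul, smul_eq_mul] at h4
  rw [e' δ]
  linear_combination (-(m : F) * u) * h4

end

variable [IsFF F]

theorem chg_ram (h : Chg S S' x y f w E) (φ : F →ₐ[ℂ] LaurentSeries ℂ)
    (hφ : RamL S (φ x) (φ y)) : RamL S' (φ f) (φ w) := by
  obtain ⟨G, B, hG, hB, hc, h1⟩ := hφ
  have hE : Ext E 0 := fun c => (h.ext c).trans (map_zero _).symm
  have h0 : ∀ a, cd 0 a = 0 := fun a => by
    ext k
    rfl
  have h2 := hE.loc φ h.m'.tr x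
  rw [h0, h0, sub_zero, sub_zero, h.one, map_one, mul_one] at h2
  have h3 : aeval (φ x) S.D ≠ 0 := by
    rw [aeval_algHom_apply]
    exact (map_ne_zero φ).2 fun e => h.m.tr ⟨_, h.D, e⟩
  have h4 : aeval (φ x) S.D • S'.A.map (aevalAeval (φ f) (φ w)) =
      (aeval (φ f) S'.D * φ (E x)) • S.A.map (aevalAeval (φ x) (φ y)) := Matrix.ext fun i j => by
    have h5 := congrArg φ (congrFun (congrFun h.eq i) j)
    simpa only [Matrix.smul_apply, Matrix.map_apply, smul_eq_mul, map_mul, ta1_map,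
      ← aeval_algHom_apply] using h5
  exact ⟨G, B, hG, hB, hc, ta1_mat h3 h1 (by rw [mul_assoc, h2]) h4⟩

theorem punC_of (h : Chg S S' x y f w E) {Sg : Finset (Place ℂ F)}
    (hL : ∀ p, p ∉ Sg → ∀ φ, At φ p → S'.Loc (φ f) (φ w)) {c : ℂ} {e : ℕ}
    (h1 : Fib Sg f c 1 e) {p : Place ℂ F} (hp : p ∈ Sg) (ho : p.ord (f - algebraMap ℂ F c) = 1)
    (hE : ∀ φ, At φ p → RamL S (φ x) (φ y)) : PunC S' e c := by
  obtain ⟨q, hq, h1⟩ := h1
  choose φ a b using fun j => exists_at _ (h1 j).2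
  obtain ⟨ψ, a', b'⟩ := exists_at _ ho
  have e : ∀ j, φ j f = xt c 1 := fun j => ta2_xt ((b j).trans (pow_one _).symm)
  have e' : ψ f = xt c 1 := ta2_xt (b'.trans (pow_one _).symm)
  exact ⟨ψ w, fun j => φ j w, Fin.cons_injective_iff.2 ⟨fun ⟨j, k⟩ =>
    (h1 j).1 (At.unique a' (ta2_ext h.m' ((e j).trans e'.symm) k ▸ a j) ▸ hp), fun i j k =>
    hq (At.unique (ta2_ext h.m' ((e i).trans (e j).symm) k ▸ a i) (a j))⟩,
    fun j => e j ▸ hL _ (h1 j).1 _ (a j), by rw [← e', ← ta1_map, h.m'.root, map_zero],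
    e' ▸ chg_ram h ψ (hE ψ a')⟩

/-- A covering of degree `2 g + 1` and the list of its special values. -/
theorem exists_cov {Sg : Finset (Place ℂ F)} {p₀ : Place ℂ F} (h0 : p₀ ∈ Sg) (h : RC.Free Sg p₀) :
    ∃ (f : F) (n : ℕ) (t : Fin n → ℂ) (j : Place ℂ F → Fin n),
      Module.finrank ℂ⟮f⟯ F = 2 * genus F + 1 ∧ Pls Sg f (-1) (2 * genus F + 1) ∧
      (Function.Injective fun i => (t i).re) ∧ (∀ i, (t i).re < 0) ∧ Gen {j p₀} t ∧
      (∀ c, c ∉ Set.range t → Fib Sg f c 1 (2 * genus F + 1)) ∧ Set.InjOn j Sg ∧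
      ∀ p ∈ Sg, Fib Sg f (t (j p)) 1 (2 * genus F) ∧ p.ord (f - algebraMap ℂ F (t (j p))) = 1 := by
  classical
  obtain ⟨f, v, k1, k2, k3, k4, -, k6⟩ := RC.exists_simple h0 h
  obtain ⟨f', n, t, M, o, l0, l1, l2, l3, l4, -, -, l7, l8, l9⟩ :=
    RC.exists_list2 (Nat.succ_ne_zero _) k1 k2 k3 ⟨p₀, h0, k4 p₀ h0⟩ k6
  have : Nonempty (Fin n) := ⟨o⟩
  choose! j j1 j2 j3 using fun p hp => l9 (v p) p hp (k4 p hp)
  refine ⟨f', n, t, j, l0, Fib.pls0.1 l1, l2, l3, (j3 p₀ h0).2 rfl ▸ l4, l8, fun p hp q hq e => ?_,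
    fun p hp => ⟨l7 _ (j1 p hp), j2 p hp⟩⟩
  by_contra hne
  have k := RC.fib_le2 (Nat.succ_pos _) l0 l1 (l7 _ (j1 p hp)) {p, q} fun z hz => by
    rcases Finset.mem_insert.1 hz with rfl | hz
    · exact ⟨(j2 z hp).ge, Or.inl hp⟩
    · rw [Finset.mem_singleton.1 hz, e]
      exact ⟨(j2 q hq).ge, Or.inl hq⟩
  rw [Finset.sum_pair hne, j2 p hp, e, j2 q hq] at k
  omega

theorem finalC (r g : ℕ) : ∃ k : ℕ, ∀ (R : Type) [CommRing R] [Algebra.FiniteType ℤ R]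
    (ι ψ : R →+* ℂ) (S : CV.Sys R r) (F : Type) [Field F] [Algebra ℂ F] (x y : F)
    (Sg M : Finset (Place ℂ F)) (p₀ : Place ℂ F), RingHom.ker ι ≤ RingHom.ker ψ → S.P.Monic →
    Irreducible (S.map ι).P → Irreducible (S.map ψ).P → (S.map ψ).D ≠ 0 → Transcendental ℂ x →
    ℂ⟮x, y⟯ = ⊤ → aevalAeval x y (S.map ι).P = 0 → genus F = g → p₀ ∈ M → M ⊆ Sg → k ≤ M.card →
    RC.Free Sg p₀ → (∀ p ∈ M, ∀ φ, At φ p → RamL (S.map ι) (φ x) (φ y)) →
    (∀ p ∉ Sg, ∀ φ, At φ p → (S.map ι).Loc (φ x) (φ y)) → AdF (S.map ι) x y →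
    (g = 0 ∨ DetO (S.map ι) x y) →
    (∀ m : Ideal R, m.IsMaximal → (S.map (Ideal.Quotient.mk m)).Tri) → (S.map ψ).Alg := by
  classical
  obtain ⟨k, hk⟩ := finalCa r (2 * g)
  refine ⟨k + 1, fun R _ _ ι ψ S F _ _ x y Sg M p₀ h0 hP hI hI' hD hx hxy hy hg h1 h2 h3 h4 h5 hL hA
    hDe hF => SP.alg_spec ι ψ h0 S hP hI ?_ hI' hD⟩
  have hMo : GE.Model x y (S.map ι).P := ⟨hx, hxy, hP.map _, hI, hy⟩
  have : IsFF F := isFF_of_gen hx hxy hI.ne_zero hy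
  obtain ⟨f, n, t, j, k0, k1, k2, k3, k4, k5, k6, k7⟩ := exists_cov (h2 h1) h4
  rw [hg] at k0 k1 k5 k7
  have hf : Transcendental ℂ f := tr_of_rank (by omega)
  obtain ⟨w, hw, hw'⟩ := exists_int hf
  obtain ⟨P', hM'⟩ := GE.exists_model hf hw hw'
  have hd' := hM'.deg.trans k0
  obtain ⟨S', E, rfl, h⟩ := exists_chg (S.map ι) hMo (d_ne h0 hD) hM'
  obtain ⟨R', _, _, ι', S₀, q1, rfl, q2⟩ := NP.transportT ι S hP h hF
  have hL' : ∀ p, p ∉ Sg → ∀ φ, At φ p → (S₀.map ι').Loc (φ f) (φ w) :=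
    fun p hp φ hφ => h.loc φ (hL p hp φ hφ)
  obtain ⟨δ, B, hC, e⟩ := chg_conC h
  refine h.alg (hk n R' ι' S₀ F f w δ B t (j p₀) ((M.erase p₀).image j) q1
    ((q1.natDegree_map _).symm.trans hd') hC k2 k3 k4 (fun i hi => ?_) (fun hi => ?_) ?_
    (fun c hc => unr_fin hM' hL' (k5 c hc)) (unr_inf hM' hL' k1)
    (hA.adB (fun e => one_ne_zero (hC.one.symm.trans (by rw [e]; rfl))) e)
    (hDe.imp (fun e => by omega) fun k => k.detF (fun e => hx ⟨_, h.D, e⟩) e) q2)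
  · obtain ⟨p, hp, rfl⟩ : ∃ p ∈ M, j p = i := hi.elim (fun e => ⟨p₀, h1, e.symm⟩) fun hi => by
      obtain ⟨p, hp, e⟩ := Finset.mem_image.1 hi
      exact ⟨p, Finset.mem_of_mem_erase hp, e⟩
    exact punC_of h hL' (k7 p (h2 hp)).1 (h2 hp) (k7 p (h2 hp)).2 (h5 p hp)
  · obtain ⟨p, hp, e⟩ := Finset.mem_image.1 hi
    exact (Finset.mem_erase.1 hp).1 (k6 (h2 (Finset.mem_of_mem_erase hp)) (h2 h1) e)
  · rw [Finset.card_image_of_injOn (k6.mono fun p hp => h2 (Finset.mem_of_mem_erase hp)),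
      Finset.card_erase_of_mem h1]
    omega

end Pool.Agent.GR.OC
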