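import Pool.Agent.Lib.MP_aa40d3_nt.OC.Core
import Pool.Agent.Lib.MP_aa40d3_nt.CP.Fld

/-! Modules of endomorphisms on the curve and on the direct image. -/

open Polynomial Matrix
open scoped Polynomial.Bivariate

namespace Pool.Agent.GR.OC

open CV CP

variable {r d n : ℕ} {F : Type} [Field F] [Algebra ℂ F] {S : CV.Sys ℂ r} {x y : F}
  {δ : Derivation ℂ F F} {B Φ Φ' : Matrix (Fin r) (Fin r) F} {q : ℂ[X][Y]} {δ₀ : ℂ[X]}
  {Θ Θ' : PM (r * d)}

/-- `Θ` is the direct image of `Φ`. -/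
def Rl (x y : F) (Θ : PM (r * d)) (Φ : Matrix (Fin r) (Fin r) F) : Prop :=
  CV.Om r d y * Θ.map (aeval x) = Φ * CV.Om r d y

theorem Rl.mul (h : Rl x y Θ Φ) (h' : Rl x y Θ' Φ') : Rl x y (Θ * Θ') (Φ * Φ') := by
  rw [Rl, fld_mul, ← Matrix.mul_assoc, h, Matrix.mul_assoc, h', Matrix.mul_assoc]

theorem Rl.add (h : Rl x y Θ Φ) (h' : Rl x y Θ' Φ') : Rl x y (Θ + Θ') (Φ + Φ') := by
  rw [Rl, fld_add, Matrix.mul_add, h, h', Matrix.add_mul]

theorem Rl.sub (h : Rl x y Θ Φ) (h' : Rl x y Θ' Φ') : Rl x y (Θ - Θ') (Φ - Φ') := by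
  rw [Rl, fld_sub, Matrix.mul_sub, h, h', Matrix.sub_mul]

theorem Rl.smul (h : Rl x y Θ Φ) (c : ℂ[X]) : Rl x y (c • Θ) (aeval x c • Φ) := by
  rw [Rl, fld_smul, Matrix.mul_smul, h, Matrix.smul_mul]

theorem rl_inj (h : Con S x y δ B) (hp : Prep S d q δ₀) (e : Rl x y Θ Φ) (e' : Rl x y Θ' Φ) :
    Θ = Θ' := h.inj hp (e.trans e'.symm)

theorem rl_scl (h : Con S x y δ B) (hp : Prep S d q δ₀) (u : F) :
    ∃ (c : ℂ[X]) (a : ℂ[X][Y]), c ≠ 0 ∧ Rl x y (aeval (pM S d) a) ((aeval x c * u) • 1) := by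
  obtain ⟨c, a, hc, e⟩ := h.m.den u
  exact ⟨c, a, hc.ne_zero, by rw [Rl, h.omM hp, ← e, Matrix.smul_mul, Matrix.one_mul]⟩

theorem rl_der (h : Con S x y δ B) (hp : Prep S d q δ₀) (e : Rl x y Θ Φ) :
    Rl x y ((δ₀ * S.D) • Θ.map derivative - (pB S d q δ₀ * Θ - Θ * pB S d q δ₀))
      (aeval x (δ₀ * S.D) • (Φ.map δ - (B * Φ - Φ * B))) := by
  have e1 := h.omB hp
  generalize δ₀ * S.D = D at e1
  generalize pB S d q δ₀ = B₁ at e1
  have e2 : (Θ.map (aeval x)).map δ = (Θ.map derivative).map (aeval x) :=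
    Matrix.ext fun a b => h.der1 _
  have e4 := congrArg (Matrix.map · δ) e
  have e5 := congrArg (· * Θ.map (aeval x)) e1
  have e6 := congrArg (· * B₁.map (aeval x)) e
  have e7 := congrArg (Φ * ·) e1
  have e8 := congrArg (B * ·) e
  simp only [fld_der, e2] at e4
  simp only [Rl, fld_sub, fld_smul, fld_mul, Matrix.mul_smul, Matrix.smul_mul,
    Matrix.mul_sub, Matrix.sub_mul, Matrix.mul_assoc] at e4 e5 e6 e7 e8 ⊢
  ext1 a b
  have k4 := congrFun (congrFun e4 a) b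
  have k5 := congrFun (congrFun e5 a) b
  have k6 := congrFun (congrFun e6 a) b
  have k7 := congrFun (congrFun e7 a) b
  have k8 := congrFun (congrFun e8 a) b
  simp only [Matrix.smul_apply, Matrix.add_apply, Matrix.sub_apply,
    smul_eq_mul] at k4 k5 k6 k7 k8 ⊢
  linear_combination aeval x D * k4 - k5 + k6 + k7 - aeval x D * k8

theorem fld_der_smul (u : F) (Φ : Matrix (Fin r) (Fin r) F) :
    (u • Φ).map δ - (B * (u • Φ) - u • Φ * B) = u • (Φ.map δ - (B * Φ - Φ * B)) + δ u • Φ := by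
  rw [Matrix.mul_smul, Matrix.smul_mul]
  ext a b
  simp only [Matrix.sub_apply, Matrix.add_apply, Matrix.smul_apply, map_apply, smul_eq_mul,
    Derivation.leibniz]
  ring

section
variable {N : ℕ} {G : PM N}

theorem cj_smul (c : ℂ[X]) (U : PM N) : G * (c • U) * G.adjugate = c • (G * U * G.adjugate) := by
  rw [Matrix.mul_smul, Matrix.smul_mul]

theorem cj_mul (U V : PM N) :
    G * U * G.adjugate * (G * V * G.adjugate) = G.det • (G * (U * V) * G.adjugate) := by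
  simp only [Matrix.mul_assoc]
  rw [← Matrix.mul_assoc G.adjugate, adjugate_mul, Matrix.smul_mul, Matrix.one_mul, Matrix.mul_smul,
    Matrix.mul_smul]

theorem cj_cj (U : PM N) : G * (G.adjugate * U * G) * G.adjugate = (G.det * G.det) • U := by
  simp only [← Matrix.mul_assoc]
  rw [Matrix.mul_assoc _ G, mul_adjugate, Matrix.mul_smul, Matrix.mul_one, Matrix.smul_mul,
    Matrix.one_mul, smul_smul]

theorem cj_cj' (U : PM N) : G.adjugate * (G * U * G.adjugate) * G = (G.det * G.det) • U := by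
  simp only [← Matrix.mul_assoc]
  rw [Matrix.mul_assoc _ G.adjugate, adjugate_mul, Matrix.mul_smul, Matrix.mul_one, Matrix.smul_mul,
    Matrix.one_mul, smul_smul]

theorem cj_inj (hG : G.det ≠ 0) {U V : PM N} (h : G * U * G.adjugate = G * V * G.adjugate) :
    U = V := fld_cancel (mul_ne_zero hG hG) (by rw [← cj_cj', h, cj_cj'])

theorem cj_aeval {M : PM N} {W : Subalgebra ℂ[X] (PM N)} (h : ∀ k : ℕ, G * M ^ k * G.adjugate ∈ W)
    (a : ℂ[X][Y]) : G * aeval M a * G.adjugate ∈ W := by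
  induction a using Polynomial.induction_on' with
  | add p q hp hq =>
    rw [map_add, Matrix.mul_add, Matrix.add_mul]
    exact W.add_mem hp hq
  | monomial k c =>
    rw [aeval_monomial, ← Algebra.smul_def, cj_smul]
    exact W.smul_mem (h k) c

end

variable {G : PM (r * d)} {W : Subalgebra ℂ[X] (PM (r * d))}

theorem rl_desc (h : Con S x y δ B) (hp : Prep S d q δ₀) (hd : d ≠ 0) (hG : G.det ≠ 0)
    (h1 : ∀ k : ℕ, G * pM S d ^ k * G.adjugate ∈ W) {Ψ : PM (r * d)}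
    (e : ∀ Φ ∈ W, Φ * Ψ = Ψ * Φ) : ∃ Φ, Rl x y (G.adjugate * Ψ * G) Φ := by
  refine h.desc hp hd (cj_inj hG (fld_cancel hG ?_))
  rw [← cj_mul, ← cj_mul, cj_cj, Matrix.mul_smul, Matrix.smul_mul, ← pow_one (pM S d), e _ (h1 1)]

/-- The module on the curve that belongs to a module `V` on the direct image. -/
theorem exists_dn (h : Con S x y δ B) (hp : Prep S d q δ₀) (hδ : δ₀ ≠ 0) {t : Fin n → ℂ}
    {A : Fin n → Mt (r * d)} {ρ : ℂ[X]} (g : Gau (δ₀ * S.D) (pB S d q δ₀) (dl t) (pm t A) ρ G)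
    (hρ : ρ ≠ 0) (hG : G.det ≠ 0) (h1 : ∀ k : ℕ, G * pM S d ^ k * G.adjugate ∈ W)
    {V : Submodule ℂ[X] (PM (r * d))}
    (v1 : ∀ Φ ∈ V, dl t • Φ.map derivative - (pm t A * Φ - Φ * pm t A) ∈ V)
    (v2 : ∀ (f : ℂ[X]) Φ, f ≠ 0 → f • Φ ∈ V → Φ ∈ V) (v3 : ∀ Φ ∈ W, ∀ Ψ ∈ V, Φ * Ψ ∈ V) :
    ∃ L : Submodule F (Matrix (Fin r) (Fin r) F), (∀ Φ ∈ L, Φ.map δ - (B * Φ - Φ * B) ∈ L) ∧
      ∀ Φ, Φ ∈ L ↔ ∃ (c : ℂ[X]) (Θ : PM (r * d)), c ≠ 0 ∧ G * Θ * G.adjugate ∈ V ∧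
        Rl x y Θ (aeval x c • Φ) := by
  let L : Submodule F (Matrix (Fin r) (Fin r) F) :=
    { carrier := {Φ | ∃ (c : ℂ[X]) (Θ : PM (r * d)), c ≠ 0 ∧ G * Θ * G.adjugate ∈ V ∧
        Rl x y Θ (aeval x c • Φ)}
      add_mem' := by
        rintro Φ Φ' ⟨c, Θ, hc, hm, e⟩ ⟨c', Θ', hc', hm', e'⟩
        refine ⟨c * c', c' • Θ + c • Θ', mul_ne_zero hc hc', ?_, ?_⟩
        · rw [Matrix.mul_add, Matrix.add_mul, cj_smul, cj_smul]
          exact V.add_mem (V.smul_mem _ hm) (V.smul_mem _ hm')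
        · have := (e.smul c').add (e'.smul c)
          rwa [smul_smul, smul_smul, mul_comm (aeval x c'), ← smul_add, ← map_mul] at this
      zero_mem' := ⟨1, 0, one_ne_zero, by simp, by simp [Rl]⟩
      smul_mem' := by
        rintro u Φ ⟨c, Θ, hc, hm, e⟩
        obtain ⟨c', a, hc', e'⟩ := rl_scl h hp u
        refine ⟨c * c', _, mul_ne_zero hc hc',
          v2 _ _ hG (cj_mul (G := G) _ _ ▸ v3 _ (cj_aeval h1 a) _ hm), ?_⟩
        have := e'.mul e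
        rwa [Matrix.smul_mul, Matrix.one_mul, smul_smul, mul_right_comm, mul_comm (aeval x c'),
          ← map_mul, mul_smul] at this }
  refine ⟨L, ?_, fun _ => Iff.rfl⟩
  intro Φ hΦ
  obtain ⟨c, Θ, hc, hm, e⟩ := id hΦ
  have k : (aeval x c • Φ).map δ - (B * (aeval x c • Φ) - aeval x c • Φ * B) ∈ L :=
    ⟨_, _, mul_ne_zero hδ h.D, v2 _ _ (mul_ne_zero (mul_ne_zero (dl_ne t) hρ) hG) (by
      rw [fld_gau g hG]
      exact V.sub_mem (V.smul_mem _ (v1 _ hm)) (V.smul_mem _ hm)), rl_der h hp e⟩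
  rw [fld_der_smul, L.add_mem_iff_left (L.smul_mem _ hΦ)] at k
  exact (L.smul_mem_iff (h.ne hc)).1 k

/-- A stable module is scalar or contains the traceless matrices. -/
def AdB (δ : Derivation ℂ F F) (B : Matrix (Fin r) (Fin r) F) : Prop :=
  ∀ L : Submodule F (Matrix (Fin r) (Fin r) F), (∀ Φ ∈ L, Φ.map δ - (B * Φ - Φ * B) ∈ L) →
    (∀ Φ ∈ L, ∃ u : F, Φ = u • 1) ∨ ∀ Φ, Φ.trace = 0 → Φ ∈ L

theorem adZ_of (h : Con S x y δ B) (hB : AdB δ B) (hp : Prep S d q δ₀) (hd : d ≠ 0) (hδ : δ₀ ≠ 0)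
    {t : Fin n → ℂ} {A : Fin n → Mt (r * d)} {ρ : ℂ[X]}
    (g : Gau (δ₀ * S.D) (pB S d q δ₀) (dl t) (pm t A) ρ G) (hρ : ρ ≠ 0) (hG : G.det ≠ 0)
    (h1 : ∀ k : ℕ, G * pM S d ^ k * G.adjugate ∈ W)
    (h2 : ∀ (c : ℂ[X]) Φ, c ≠ 0 → c • Φ ∈ W → Φ ∈ W) : AdZ t A W := by
  intro V v1 v2 v3
  obtain ⟨L, l1, l2⟩ := exists_dn h hp hδ g hρ hG h1 v1 v2 fun Φ a Ψ b => (v3 Φ a Ψ b).2
  refine (hB L l1).imp (fun k Ψ hΨ => ?_) fun k a b ha hb => ?_
  · obtain ⟨Φ, e⟩ := rl_desc h hp hd hG h1 fun Φ a => (v3 Φ a Ψ hΨ).1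
    obtain ⟨u, rfl⟩ := k Φ ((l2 Φ).2 ⟨1, _, one_ne_zero, cj_cj (G := G) Ψ ▸ V.smul_mem _ hΨ, by
      rwa [map_one, one_smul]⟩)
    obtain ⟨c, a, hc, e'⟩ := rl_scl h hp u
    have e5 := cj_aeval h1 a
    rw [rl_inj h hp e' (mul_smul (aeval x c) u (1 : Matrix (Fin r) (Fin r) F) ▸ e.smul c), cj_smul,
      cj_cj, smul_smul] at e5
    exact h2 _ _ (mul_ne_zero hc (mul_ne_zero hG hG)) e5
  · obtain ⟨Φ, e⟩ := rl_desc h hp hd hG h1 ha
    obtain ⟨Φ', e'⟩ := rl_desc h hp hd hG h1 hb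
    obtain ⟨c, Θ, hc, hm, e1⟩ := (l2 _).1 (k (Φ * Φ' - Φ' * Φ)
      (by rw [trace_sub, trace_mul_comm, sub_self]))
    have e2 := V.smul_mem G.det hm
    rw [rl_inj h hp e1 (((e.mul e').sub (e'.mul e)).smul c), cj_smul, smul_comm, Matrix.mul_sub,
      Matrix.sub_mul, smul_sub, ← cj_mul, ← cj_mul, cj_cj, cj_cj, smul_mul_smul_comm,
      smul_mul_smul_comm, ← smul_sub, smul_smul] at e2
    exact v2 _ _ (mul_ne_zero hc (mul_ne_zero (mul_ne_zero hG hG) (mul_ne_zero hG hG))) e2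

theorem AdB.irr [Nontrivial (Fin r)] (h : AdB δ B) : IrrF δ B := by
  classical
  intro V hV
  let L : Submodule F (Matrix (Fin r) (Fin r) F) :=
    { carrier := {Φ | ∀ j, (fun i => Φ i j) ∈ V}
      add_mem' := fun ha hb j => V.add_mem (ha j) (hb j)
      zero_mem' := fun j => V.zero_mem
      smul_mem' := fun c a ha j => V.smul_mem c (ha j) }
  refine (h L fun Φ hΦ j => ?_).imp (fun k => ?_) fun k => ?_
  · have e : (fun i => (Φ.map δ - (B * Φ - Φ * B)) i j) =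
        ((fun i => δ (Φ i j)) - B *ᵥ fun i => Φ i j) + ∑ l, B l j • fun i => Φ i l := by
      funext a
      simp [Matrix.mul_apply, mulVec, dotProduct, Finset.sum_apply, mul_comm]
      ring
    rw [e]
    exact V.add_mem (hV _ (hΦ j)) (V.sum_mem fun l _ => V.smul_mem _ (hΦ l))
  · refine eq_bot_iff.2 fun l hl => funext fun i => ?_
    obtain ⟨c, hc⟩ := k (Matrix.of fun a _ => l a) fun _ => hl
    obtain ⟨j, hj⟩ := exists_ne i
    simpa [hj.symm] using congrFun (congrFun hc i) j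
  · refine eq_top_iff.2 fun v _ => ?_
    rw [pi_eq_sum_univ' v]
    refine V.sum_mem fun i _ => V.smul_mem _ ?_
    obtain ⟨j, hj⟩ := exists_ne i
    convert k (Matrix.single i j 1) (Matrix.trace_single_eq_of_ne i j 1 hj.symm) j using 1
    funext a
    simp [Matrix.single_apply, Pi.single_apply, eq_comm]

end Pool.Agent.GR.OC
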