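import Pool.Agent.Lib.MP_aa40d3_nt.OC.Dfn
import Pool.Agent.Lib.MP_aa40d3_nt.RC.Frm
import Pool.Agent.Lib.MP_aa40d3_nt.CP.Loc

/-! Frames with a given residue below a puncture. -/

open Polynomial Matrix
open scoped Polynomial.Bivariate

namespace Pool.Agent.GR.OC

open CV

variable {N n r d e : ℕ}

/-- One branch with two eigenvalues and `e` ordinary branches over `t`. -/
def PunT (S : CV.Sys ℂ r) (e : ℕ) (t : ℂ) : Prop :=
  ∃ (z : CV.LL) (y : Fin e → CV.LL), Function.Injective (Fin.cons z y : Fin (e + 1) → CV.LL) ∧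
    (∀ j, S.Loc (xt t 1) (y j)) ∧ aevalAeval (xt t 1) z S.P = 0 ∧ TwoL S (xt t 1) z

/-- The condition on the residue of the direct image. -/
def ExT (r d : ℕ) (A : Mt N) : Prop :=
  Chp r d (NormedSpace.exp ((2 * Real.pi * Complex.I : ℂ) • A))

theorem ExT.conj {A E u : Mt N} (h : ExT r d E) (hu : u.det ≠ 0) (e : A * u = u * E) :
    ExT r d A := by
  obtain ⟨b, h1, h2⟩ := h
  exact ⟨b, h1, (RC.frm_char hu (CP.exp_inter (by
    rw [Matrix.smul_mul, e, Matrix.mul_smul]))).trans h2⟩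

open scoped Matrix.Norms.Operator in
theorem exp_bd (B : Fin d → Mt r) :
    NormedSpace.exp (bd B) = bd fun k => NormedSpace.exp (B k) := by
  have h1 : ∀ B : Fin d → Mt r,
      bd B = reindexAlgEquiv ℂ ℂ finProdFinEquiv (blockDiagonal B) := fun _ => rfl
  have h2 := NormedSpace.map_exp (reindexAlgEquiv ℂ ℂ (finProdFinEquiv (m := r) (n := d)))
    (continuous_id.matrix_reindex _ _) (blockDiagonal B)
  rw [h1, h1]
  refine h2.symm.trans (congrArg _ ((exp_blockDiagonal B).trans (congrArg _ ?_)))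
  exact funext fun k => Pi.coe_exp B k

theorem exT_bd {B : Mt r} (h : OG.Two B) :
    ExT r (e + 1) (bd (Fin.cons B fun _ => 0 : Fin (e + 1) → Mt r)) := by
  refine ⟨_, h, ?_⟩
  have h1 : (2 * Real.pi * Complex.I : ℂ) • bd (Fin.cons B fun _ => 0 : Fin (e + 1) → Mt r) =
      bd (Fin.cons ((2 * Real.pi * Complex.I : ℂ) • B) fun _ => 0) := Matrix.ext fun i j => by
    rw [Matrix.smul_apply, bd, bd, Matrix.of_apply, Matrix.of_apply]
    split_ifs
    · exact Fin.cases rfl (fun _ => smul_zero _) (sh i)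
    · exact smul_zero _
  rw [h1, exp_bd, RC.frm_bd, Fin.prod_univ_succ, Fin.cons_zero, mul_comm]
  simp only [Fin.cons_succ, NormedSpace.exp_zero, charpoly_one, Fintype.card_fin,
    Finset.prod_const, Finset.card_univ, ← pow_mul, Nat.add_sub_cancel, map_one]

/-- Copy of `exists_fuchs2`; the last clause exports the conjugating matrix. -/
theorem exists_fuchs3 {D : ℂ[X]} {B : PM N} {t : Fin n → ℂ} {M : Finset (Fin n)} {U : ℂ → LM N}
    (ht : Function.Injective t) (hD : D ≠ 0) (h : CV.Fr r D B t M U) {V : LM N}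
    (hV : MSol D B sL⁻¹ V 0) : ∃ (ρ : ℂ[X]) (G : PM N) (A : Fin n → Matrix (Fin N) (Fin N) ℂ),
      ρ ≠ 0 ∧ G.det ≠ 0 ∧ Gau D B (dl t) (pm t A) ρ G ∧ CV.NF (ga ρ G sL⁻¹ V) ∧
      (∀ i ∈ M, A i * A i = (1 / 2 : ℂ) • A i) ∧ ∀ i, i ∉ M → ∀ Cm : LM N, (∀ a b, Ov 0 (Cm a b)) →
        MSol D B (xt (t i) 1) (U (t i)) Cm →
          ∃ u : Mt N, u.det ≠ 0 ∧ A i * u = u * Cm.map fun f => f.coeff 0 := by
  classical
  let Z : Finset ℂ := D.roots.toFinset ∪ Finset.univ.image t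
  have hZ : ∀ i, t i ∈ Z := fun i => Finset.mem_union_right _ (Finset.mem_image_of_mem _ (by simp))
  have hinf : ∀ {p : ℂ[X]}, p ≠ 0 → ev sL⁻¹ p ≠ 0 := fun hp => (map_ne_zero_iff _ ev_inv_inj).2 hp
  obtain ⟨ρ, hρ, hρZ, hN⟩ := exists_scale (Z := Z) (ee_pos (t := t) (M := M)) (h.det ht)
  have hs := gau_scale D ρ B
  have h1 : (1 : PM N).det ≠ 0 := by simp
  have hD' := mul_ne_zero hρ hD
  have hF := h.gau ht hs hD hρ h1
  have hV' := hs.msol (hinf hD) (hinf hρ) (hinf h1) hV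
  obtain ⟨G, hG, hNF⟩ := popov hV'.1 (lat_full (Z := Z) (ee_pos (t := t) (M := M))
    (U := fun z => ga ρ 1 (xt z (ee t M z)) (U z)))
  obtain ⟨Q, hQ⟩ := hG.gau (D := ρ * D) (D' := dl t) fun l hl => lat_div ee_pos hN hD'
    (fun z hz => by
      rw [eval_mul, mul_eq_zero] at hz
      exact hz.elim (hρZ z) fun hz => Finset.mem_union_left _
        (Multiset.mem_toFinset.2 ((mem_roots hD).2 hz)))
    fun z hz => hF.stab ht (hl z hz)
  have hV'' := hQ.msol (hinf hD') (hinf one_ne_zero) (hinf hG.1) hV'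
  rw [ga_one] at hV''
  obtain ⟨A, rfl, -⟩ := ext_inf ht hV'' hNF
  have hF' := hF.gau ht hQ hD' one_ne_zero hG.1
  have hdet := fun i => lat_det ee_pos hN hG (hZ i)
  simp only [ga_one] at hF'
  have hc := hs.comp hQ hD'
  rw [mul_one, mul_one] at hc
  refine ⟨ρ, G, A, hρ, hG.1, hc, ?_, fun i hi => ?_, fun i hi Cm hC hS => ?_⟩
  · rwa [← ga_one, ga_comp, mul_one, mul_one] at hNF
  · have h2 := hdet i
    have h3 := hF'.2.2 i hi
    simp only [ee_mem hi] at h2 h3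
    have h4 := res_half (dl_eval t i) h3.1 h2
    rw [pm_eval, Matrix.smul_mul, Matrix.mul_smul, smul_smul, smul_smul] at h4
    have h5 := dl_deriv_ne ht i
    refine smul_right_injective _ (mul_ne_zero h5 h5) (h4.trans ?_)
    simp only [smul_smul]
    congr 1
    ring
  · have h2 := hdet i
    simp only [ee_not ht hi] at h2
    rw [← ga_one, ga_comp, mul_one, mul_one] at h2
    obtain ⟨h3, h4⟩ := RC.res_conj (dl_eval t i) (hc.msol (ev_xt_ne le_rfl hD) (ev_xt_ne le_rfl hρ)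
      (ev_xt_ne le_rfl hG.1) hS) hC h2
    rw [pm_eval, Matrix.smul_mul] at h4
    exact ⟨_, h3, smul_right_injective _ (dl_deriv_ne ht i) h4⟩

/-- As `push_exp`. -/
theorem push_two {S : CV.Sys ℂ r} {q : ℂ[X][Y]} {δ : ℂ[X]} {t : ℂ} (h : Prep S (e + 1) q δ)
    (hS : PunT S e t) : ∃ U Cm : LM (r * (e + 1)), TP r (δ * S.D) (pB S (e + 1) q δ) t U ∧
      (∀ a b, Ov 0 (Cm a b)) ∧ MSol (δ * S.D) (pB S (e + 1) q δ) (xt t 1) U Cm ∧
      ExT r (e + 1) (Cm.map fun f => f.coeff 0) := by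
  obtain ⟨z, y, hy, hl, h0, G₀, B₀, h2, h4, h5, h7⟩ := hS
  choose G hG using fun j => pushb_loc (hl j)
  obtain ⟨U, h1, -, -⟩ := push_loc h (y := Fin.cons z y) (G := Fin.cons G₀ G)
    (B := Fin.cons B₀ fun _ => 0) hy
    fun j => Fin.cases (show LocG S (xt t 1) z G₀ B₀ from ⟨h0, h2, h7⟩) hG j
  have h3 : ∀ i j, Ov 0 (bd (Fin.cons B₀ fun _ => 0 : Fin (e + 1) → LM r) i j) := fun i j => by
    rw [bd, Matrix.of_apply]
    split_ifs
    · exact Fin.cases (h4 _ _) (fun _ => Ov.zero 0) (sh i)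
    · exact Ov.zero 0
  refine ⟨U, _, ⟨_, _, pushb_card 0, h3, fun i hi j => ?_, h1⟩, h3, h1, ?_⟩
  · obtain ⟨l, hl⟩ := Fin.exists_succ_eq.2 fun e => hi (pushb_mem e)
    rw [bd, Matrix.of_apply, ← hl]
    simp
  · have h8 : ((bd (Fin.cons B₀ fun _ => 0 : Fin (e + 1) → LM r)).map fun f => f.coeff 0) =
        bd (Fin.cons (B₀.map fun f => f.coeff 0) fun _ => 0) := Matrix.ext fun i j => by
      rw [Matrix.map_apply, bd, bd, Matrix.of_apply, Matrix.of_apply]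
      split_ifs
      · exact Fin.cases rfl (fun _ => rfl) (sh i)
      · rfl
    rw [h8]
    exact exT_bd h5

/-- Copy of `exists_frames2`. -/
theorem exists_frames3 (hr : 1 ≤ r) {S : CV.Sys ℂ r} {q : ℂ[X][Y]} {δ : ℂ[X]}
    (h : Prep S (e + 1) q δ) (hδ : δ ≠ 0)
    (hK : ∀ z, ∃ U Cm : LM (r * (e + 1)), (∀ i j, Ov 0 (Cm i j)) ∧
      MSol (δ * S.D) (pB S (e + 1) q δ) (xt z 1) U Cm)
    {t : Fin n → ℂ} (ht : Function.Injective t) {M : Finset (Fin n)}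
    (hB : ∀ i ∈ M, 1 ≤ e ∧ S.Bra (e + 1) (t i)) (hP : ∀ i, i ∉ M → S.Unr (xt (t i) 1) e)
    (hU : ∀ c, c ∉ Set.range t → S.Unr (xt c 1) (e + 1)) : ∃ U : ℂ → LM (r * (e + 1)),
      CV.Fr r (δ * S.D) (pB S (e + 1) q δ) t M U ∧
      (∀ i ∈ M, ∃ (j : Fin (r * (e + 1))) (τ : CV.LL), sg τ ≠ τ ∧
        ((pM S (e + 1)).map (ev (xt (t i) 2)) *ᵥ fun a => U (t i) a j) = τ • fun a => U (t i) a j) ∧
      ∀ i, i ∉ M → PunT S e (t i) → ∃ Cm : LM (r * (e + 1)), (∀ a b, Ov 0 (Cm a b)) ∧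
        MSol (δ * S.D) (pB S (e + 1) q δ) (xt (t i) 1) (U (t i)) Cm ∧
        ExT r (e + 1) (Cm.map fun f => f.coeff 0) := by
  have key : ∀ z : ℂ, ∃ U : LM (r * (e + 1)),
      (z ∉ Set.range t → TG (δ * S.D) (pB S (e + 1) q δ) z U) ∧
      (∀ i, t i = z → i ∉ M → TP r (δ * S.D) (pB S (e + 1) q δ) z U ∧ (PunT S e z →
        ∃ Cm : LM (r * (e + 1)), (∀ a b, Ov 0 (Cm a b)) ∧
          MSol (δ * S.D) (pB S (e + 1) q δ) (xt z 1) U Cm ∧
          ExT r (e + 1) (Cm.map fun f => f.coeff 0))) ∧ ∀ i, t i = z → i ∈ M →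
        TB r (δ * S.D) (pB S (e + 1) q δ) z U ∧ ∃ (j : Fin (r * (e + 1))) (τ : CV.LL), sg τ ≠ τ ∧
          ((pM S (e + 1)).map (ev (xt z 2)) *ᵥ fun a => U a j) = τ • fun a => U a j := by
    intro z
    by_cases hz : z ∈ Set.range t
    · obtain ⟨i, rfl⟩ := hz
      by_cases hi : i ∈ M
      · obtain ⟨U, h1⟩ := push_bra hr (Nat.succ_le_succ (hB i hi).1) h (hB i hi).2
        exact ⟨U, fun h2 => absurd ⟨i, rfl⟩ h2, fun j hj h2 => absurd (ht hj ▸ hi) h2,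
          fun _ _ _ => h1⟩
      · by_cases hp : PunT S e (t i)
        · obtain ⟨U, Cm, h1, h3⟩ := push_two h hp
          exact ⟨U, fun h2 => absurd ⟨i, rfl⟩ h2, fun _ _ _ => ⟨h1, fun _ => ⟨Cm, h3⟩⟩,
            fun j hj h2 => absurd (ht hj ▸ h2) hi⟩
        · obtain ⟨U, h1⟩ := push_pun h e.succ_ne_zero hδ (hP i hi) (hK _)
          exact ⟨U, fun h2 => absurd ⟨i, rfl⟩ h2, fun _ _ _ => ⟨h1, fun h3 => absurd h3 hp⟩,
            fun j hj h2 => absurd (ht hj ▸ h2) hi⟩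
    · obtain ⟨U, y, -, h1, -⟩ := push_unr h (hU z hz)
      exact ⟨U, fun _ => h1, fun i hi => absurd ⟨i, hi⟩ hz, fun i hi => absurd ⟨i, hi⟩ hz⟩
  choose U h1 h2 h3 using key
  exact ⟨U, ⟨h1, fun i hi => (h2 _ i rfl hi).1, fun i hi => (h3 _ i rfl hi).1⟩,
    fun i hi => (h3 _ i rfl hi).2, fun i hi => (h2 _ i rfl hi).2⟩

end Pool.Agent.GR.OC
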