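import Pool.Agent.Lib.MP_aa40d3_nt.OC.Ind
import Pool.Agent.Lib.MP_aa40d3_nt.OP.Lift
import Pool.Agent.Lib.MP_aa40d3_nt.CP.Grp2
import Pool.Agent.Lib.MP_aa40d3_nt.NP.Small

/-! The group theorem for one marked generator and a subgroup of finite index. -/

open Matrix

namespace Pool.Agent.GR.OC

open NP GC FB OP CP

variable {n r : ℕ} {H : Type} [Group H] {β : H →* Mt r}

/-- Pairs that agree up to a scalar. -/
def lfS (β : H →* Mt r) : Subgroup (H × GLr r) where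
  carrier := {p | ∃ c : ℂ, p.2.val = c • β p.1}
  one_mem' := ⟨1, by simp⟩
  mul_mem' := by
    rintro x y ⟨c, hc⟩ ⟨e, he⟩
    exact ⟨c * e, by
      rw [Prod.snd_mul, Prod.fst_mul, Units.val_mul, map_mul, hc, he, smul_mul_smul_comm]⟩
  inv_mem' := by
    rintro ⟨x, u⟩ ⟨c, hc⟩
    have h : β x⁻¹ = c • (u⁻¹).val := by
      rw [← one_mul (β x⁻¹), ← u.inv_mul, show u.val = c • β x from hc, mul_smul_comm,
        smul_mul_assoc, mul_assoc, rep_mul_inv, mul_one]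
    by_cases h0 : c = 0
    · refine ⟨0, ?_⟩
      change (u⁻¹).val = _
      rw [← mul_one (u⁻¹).val, ← rep_mul_inv β x, h, h0, zero_smul, zero_smul, mul_zero, mul_zero]
    · exact ⟨c⁻¹, by
        change (u⁻¹).val = c⁻¹ • β x⁻¹
        rw [h, inv_smul_smul₀ h0]⟩

theorem lf_ne [NeZero r] {u : GLr r} {c : ℂ} {m : Mt r} (h : u.val = c • m) : c ≠ 0 := by
  rintro rfl
  exact u.ne_zero (h.trans (zero_smul _ _))

theorem lf_scl [NeZero r] {γ : H} {u : GLr r} (h : (γ, u) ∈ lfS β) (hu : Scl u.val) :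
    Scl (β γ) := by
  obtain ⟨c, hc⟩ := h
  obtain ⟨e, he⟩ := hu
  exact ⟨c⁻¹ * e, by rw [mul_smul, ← he, show u.val = c • β γ from hc, inv_smul_smul₀ (lf_ne hc)]⟩

theorem lf_conj [NeZero r] {γ : H} {u : GLr r} (h : (γ, u) ∈ lfS β) (z : Mt r) :
    u.val * z * (u⁻¹).val = β γ * z * β γ⁻¹ := by
  obtain ⟨c, hc⟩ := h
  have h : β γ⁻¹ = c • (u⁻¹).val := by
    rw [← one_mul (β γ⁻¹), ← u.inv_mul, show u.val = c • β γ from hc, mul_smul_comm,
      smul_mul_assoc, mul_assoc, rep_mul_inv, mul_one]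
  rw [h, show u.val = c • β γ from hc, mul_smul_comm, smul_mul_assoc, smul_mul_assoc]

theorem lf_qu [NeZero r] {γ : H} {u : GLr r} (h : (γ, u) ∈ lfS β) (hu : u.val.det = 1)
    (hq : QU (β γ)) : QU u.val := by
  obtain ⟨c, hc⟩ := h
  obtain ⟨m, hm, hm'⟩ := isOfFinOrder_iff_pow_eq_one.1 hq.det
  refine Rel.qu (a := β.toHomUnits γ) (Nat.mul_pos (NeZero.pos r) hm) ⟨c, ?_, hc⟩ hq
  rw [show u.val = c • β γ from hc, det_smul, Fintype.card_fin] at hu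
  rw [pow_mul, ← mul_one (_ ^ m), ← hm', ← mul_pow, hu, hm', one_pow]

theorem exists_lift [NeZero r] [Group.FG H] (β : H →* Mt r) :
    ∃ Γ : Subgroup (GLr r), Group.FG Γ ∧ (∀ u, (incl Γ u).det = 1) ∧
      (∀ γ, ∃ u : Γ, (γ, u.1) ∈ lfS β) ∧ ∀ u : Γ, ∃ γ, (γ, u.1) ∈ lfS β := by
  have k : ∀ γ, ∃ u : GLr r, u.val.det = 1 ∧ (γ, u) ∈ lfS β := fun γ => by
    obtain ⟨c, hc⟩ := IsAlgClosed.exists_pow_nat_eq (β γ).det⁻¹ (NeZero.pos r)
    have h1 : (c • β γ).det = 1 := by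
      rw [det_smul, Fintype.card_fin, hc]
      exact inv_mul_cancel₀ ((isUnit_iff_isUnit_det _).1 (β.toHomUnits γ).isUnit).ne_zero
    obtain ⟨u, hu⟩ := (isUnit_iff_isUnit_det _).2 (h1 ▸ isUnit_one)
    exact ⟨u, hu ▸ h1, c, hu⟩
  choose u h1 h2 using k
  obtain ⟨T, hT, hf⟩ := Group.fg_iff.1 (inferInstance : Group.FG H)
  have h3 : Subgroup.closure ((fun γ => (γ, u γ)) '' T) ≤ lfS β :=
    (Subgroup.closure_le _).2 (by rintro _ ⟨γ, -, rfl⟩; exact h2 γ)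
  refine ⟨(Subgroup.closure ((fun γ => (γ, u γ)) '' T)).map (MonoidHom.snd _ _), ?_, ?_,
    fun γ => ?_, ?_⟩
  · rw [MonoidHom.map_closure]
    exact (Group.fg_iff_subgroup_fg _).2 ((Subgroup.fg_iff _).2 ⟨_, rfl, (hf.image _).image _⟩)
  · rintro ⟨_, p, hp, rfl⟩
    refine (Subgroup.closure_le ((Units.map (detMonoidHom : Mt r →* ℂ)).comp
      (MonoidHom.snd H _)).ker).2 ?_ hp |> congrArg Units.val
    rintro _ ⟨γ, -, rfl⟩
    exact Units.ext (h1 γ)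
  · have h4 : γ ∈ (Subgroup.closure ((fun γ => (γ, u γ)) '' T)).map (MonoidHom.fst _ _) := by
      rw [MonoidHom.map_closure, Set.image_image]
      simp [hT]
    obtain ⟨p, hp, rfl⟩ := h4
    exact ⟨⟨p.2, p, hp, rfl⟩, h3 hp⟩
  · rintro ⟨_, p, hp, rfl⟩
    exact ⟨p.1, h3 hp⟩

theorem scS_index [NeZero r] {Γ : Subgroup (GLr r)} [Finite Γ]
    (h1 : ∀ γ, ∃ u : Γ, (γ, u.1) ∈ lfS β) (h2 : ∀ u : Γ, ∃ γ, (γ, u.1) ∈ lfS β) :
    (scS β).FiniteIndex := by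
  choose f hf using h2
  have : Finite (H ⧸ scS β) := Finite.of_surjective (fun u : Γ => (f u : H ⧸ scS β)) fun q => by
    obtain ⟨γ, rfl⟩ := QuotientGroup.mk_surjective q
    obtain ⟨u, hu⟩ := h1 γ
    refine ⟨u, QuotientGroup.eq.2 (lf_scl (mul_mem (inv_mem (hf u)) hu) ⟨1, ?_⟩)⟩
    exact (congrArg Units.val (inv_mul_cancel u.1)).trans (one_smul _ _).symm
  exact Subgroup.finiteIndex_of_finite_quotient

/-- The lifts of the members of a normal subgroup. -/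
theorem exists_lfN [NeZero r] {Γ : Subgroup (GLr r)} (h1 : ∀ γ, ∃ u : Γ, (γ, u.1) ∈ lfS β)
    (h2 : ∀ u : Γ, ∃ γ, (γ, u.1) ∈ lfS β) {M : Subgroup H} (hM : M.Normal)
    (hz : ∃ z ∈ M, ¬ Scl (β z)) : ∃ N : Subgroup Γ, N.Normal ∧ (∃ x ∈ N, ¬ Scl (incl Γ x)) ∧
      ∀ u ∈ N, ∃ w ∈ M, (w, u.1) ∈ lfS β := by
  obtain ⟨z, a1, a2⟩ := hz
  obtain ⟨u, hu⟩ := h1 z
  refine ⟨((lfS β ⊓ M.comap (MonoidHom.fst _ _)).map (MonoidHom.snd _ _)).subgroupOf Γ,
    ⟨fun v ⟨p, hp, e⟩ w => ?_⟩, ⟨u, ⟨_, ⟨hu, a1⟩, rfl⟩, fun h => a2 (lf_scl hu h)⟩,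
    fun v ⟨p, hp, e⟩ => ⟨p.1, hp.2, (show p.2 = v.1 from e) ▸ hp.1⟩⟩
  obtain ⟨γ, hγ⟩ := h2 w
  exact ⟨(γ, w.1) * p * (γ, w.1)⁻¹, ⟨(lfS β).mul_mem ((lfS β).mul_mem hγ hp.1) ((lfS β).inv_mem hγ),
    hM.conj_mem _ hp.2 γ⟩, congrArg (fun v => w.1 * v * w.1⁻¹) e⟩

theorem finite_oc (r d : ℕ) [NeZero r] : ∃ k : ℕ, ∀ (n : ℕ) (Mov : Finset (Fin n))
    (L0 : List (Fin n)) (G : Type) [Group G] (g : Fin n → G) (H H₀ : Subgroup G) [H.FiniteIndex]
    [H₀.Normal] (β : H →* Mt r) (o : Fin n) (Q : G → Prop), L0.Nodup → (∀ a, a ∈ L0) →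
    Subgroup.closure (Set.range g) = ⊤ → H.index ≤ d → H₀ ≤ H → AdI β →
    (∀ a, a = o ∨ a ∈ Mov → g a ∈ H₀ ∧ ∃ w : H, IsConj (g a) w ∧ ¬ Scl (β w)) → o ∉ Mov →
    k ≤ Mov.card → (∀ γ x, Q x → Q (γ * x * γ⁻¹)) → (∀ w : H, Q w → QU (β w)) →
    PairH Mo (fun x => Q x.1) (L0.map (mkd {o} g)) → (scS β).FiniteIndex := by
  classical
  obtain ⟨l, hl1, hl⟩ := Nat.exists_infinite_primes (r * r + 2)
  obtain ⟨A₀, _, _, _, ⟨u₀⟩⟩ := exists_tow (Module.End ℂ (Mt r)) 1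
  obtain ⟨A₁, _, _, _, ⟨u₁⟩⟩ := exists_tow (Module.End ℂ (Mt r)) l
  obtain ⟨D, hD⟩ : ∃ D, D = d * d *
    (Module.finrank ℂ (A₁ × A₀) + Module.finrank ℂ (A₁ × A₁) + r * r) := ⟨_, rfl⟩
  refine ⟨Kf (D + 1) (D + 1), fun n Mov L0 G _ g H H₀ _ _ β o Q h0 hall hg hd hH hA hP ho hk hQ hq
    hp => ?_⟩
  have : Group.FG G := ⟨⟨Finset.univ.image g, by
    rw [Finset.coe_image, Finset.coe_univ, Set.image_univ, hg]⟩⟩
  have : Group.FG H := Subgroup.fg_of_index_ne_zero H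
  obtain ⟨Γ, _, hdet, h1, h2⟩ := exists_lift β
  suffices Finite Γ from scS_index h1 h2
  have hT : Typ (incl Γ) (slW r) := AdI.typ fun Z hZ => hA Z fun γ z hz => by
    obtain ⟨u, hu⟩ := h1 γ
    exact lf_conj hu z ▸ hZ u z hz
  by_contra hG
  have main : ∀ (τ : ℂ ≃+* ℂ) (b : ℕ) (A₂ : Type) [Ring A₂] [Algebra ℂ A₂] [FiniteDimensional ℂ A₂]
      (u₂ : Tow (Module.End ℂ (Mt r)) b A₂), Module.finrank ℂ (A₁ × A₂) ≤
        Module.finrank ℂ (A₁ × A₀) + Module.finrank ℂ (A₁ × A₁) → 0 < b →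
      (∀ x, QU (incl Γ x) → (incl Γ x ^ l).trace = τ (incl Γ x ^ b).trace) →
      b ≠ 1 ∧ ∀ c, ∀ δ ∈ AdW (incl Γ) (slW r) c, τ δ ∈ AdS (incl Γ) c :=
    fun τ b A₂ _ _ _ u₂ hA hb h => by
    obtain ⟨x, y, M, -, -, k1, k2, k3, k4, k6⟩ := escH h0 hall hg hH β hP ho hk
      (hD ▸ Nat.mul_le_mul (Nat.mul_le_mul hd hd) (Nat.add_le_add_right hA _))
      ((u₁.P.comp (AdR β)).prod (u₂.P.comp (AdR (tw τ β)))) hQ hp
    obtain ⟨u, hu⟩ := h1 x
    obtain ⟨v, hv⟩ := h1 y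
    obtain ⟨N, _, k7, k8⟩ := exists_lfN h1 h2 k3 k4
    obtain ⟨F₁, hF₁⟩ := u₁.ev (Mt r)
      (LinearMap.mulLeft ℂ (incl Γ u) ∘ₗ LinearMap.applyₗ (incl Γ v))
    obtain ⟨F₂, hF₂⟩ := u₂.ev (Mt r)
      (LinearMap.mulLeft ℂ ((incl Γ u).map τ) ∘ₗ LinearMap.applyₗ ((incl Γ v).map τ))
    have e : ∀ (w : H) (w' : Γ), (w, w'.1) ∈ lfS β →
        (((u₁.P.comp (AdR β)).prod (u₂.P.comp (AdR (tw τ β)))) w ∈ LinearMap.eqLocus
        (traceLinearMap _ ℂ ℂ ∘ₗ F₁ ∘ₗ LinearMap.fst ℂ _ _)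
        (traceLinearMap _ ℂ ℂ ∘ₗ F₂ ∘ₗ LinearMap.snd ℂ _ _) ↔
        ((incl Γ u * AdR (incl Γ) w' (incl Γ v)) ^ l).trace =
          τ ((incl Γ u * AdR (incl Γ) w' (incl Γ v)) ^ b).trace) := fun w w' hw => by
      have e1 : AdR (incl Γ) w' (incl Γ v) = AdR β w (incl Γ v) := by
        rw [AdR_apply, AdR_apply]
        exact lf_conj hw _
      change (F₁ (u₁.P _)).trace = (F₂ (u₂.P _)).trace ↔ _
      rw [e1, hF₁, hF₂, ← tr_tw, Matrix.map_mul, ← AdR_tw]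
      rfl
    refine OP.key (incl_inj Γ) hdet hT τ (show r * r < l by omega) hb N k7
      (test_sl (fun e => k1 (lf_scl hu e)) fun e => k2 (lf_scl hv e)) (fun w' hw' => ?_) hG
    obtain ⟨w, a1, a2⟩ := k8 w' hw'
    refine (e w w' a2).1 (k6 _ (fun w hw => ?_) w a1)
    obtain ⟨w', a3⟩ := h1 w
    refine (e w w' a3).2 ?_
    have := h (u * (w' * v * w'⁻¹)) (lf_qu (mul_mem hu (mul_mem (mul_mem a3 hv) (inv_mem a3)))
      (hdet (u * (w' * v * w'⁻¹))) (hq _ hw))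
    rwa [map_mul, map_mul, map_mul, ← AdR_apply] at this
  refine OP.arith hdet hT.rat hl (by omega) fun τ b hb => ?_
  rcases hb with rfl | rfl
  · exact main τ 1 A₀ u₀ (by omega) one_pos
  · exact main τ b A₁ u₁ (by omega) hl.pos

variable {N d : ℕ} {G : Type} [Group G] {σ : G →* Mt N}

/-- Invariant `Z`-modules in the commutant of `Z` lie in `Z` or contain all commutators. -/
def AdC (σ : G →* Mt N) (Z : Subalgebra ℂ (Mt N)) : Prop :=
  ∀ V : Submodule ℂ (Mt N), (∀ γ, ∀ y ∈ V, σ γ * y * σ γ⁻¹ ∈ V) →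
    (∀ z ∈ Z, ∀ y ∈ V, z * y = y * z ∧ z * y ∈ V) → (∀ y ∈ V, y ∈ Z) ∨
      ∀ a b, (∀ z ∈ Z, z * a = a * z) → (∀ z ∈ Z, z * b = b * z) → a * b - b * a ∈ V

theorem sl_of_comm [NeZero r] {V : Submodule ℂ (Mt r)} (h : ∀ a b, a * b - b * a ∈ V) {z : Mt r}
    (hz : z.trace = 0) : z ∈ V := by
  have h1 : ∀ i j, (single i j 1 - if i = j then single 0 0 1 else 0 : Mt r) ∈ V := fun i j => by
    have := h (single i 0 1) (single 0 j 1)
    rw [single_mul_single_same, mul_one] at this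
    split_ifs with e
    · subst e
      rwa [single_mul_single_same, mul_one] at this
    · rwa [single_mul_single_of_ne _ _ _ _ (Ne.symm e)] at this
  have h2 : z = ∑ i, ∑ j, z i j • (single i j 1 - if i = j then single 0 0 1 else 0 : Mt r) := by
    simp only [smul_sub, Finset.sum_sub_distrib, smul_ite, smul_zero, Finset.sum_ite_eq,
      Finset.mem_univ, if_true]
    rw [← Finset.sum_smul, show ∑ i, z i i = 0 from hz, zero_smul, sub_zero]
    simpa only [smul_single, smul_eq_mul, mul_one] using matrix_eq_sum_single z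
  rw [h2]
  exact sum_mem fun i _ => sum_mem fun j _ => V.smul_mem _ (h1 i j)

theorem finOn_oc (r d : ℕ) (hr : 1 ≤ r) (hd : d ≠ 0) : ∃ k : ℕ, ∀ (n : ℕ) (Mov : Finset (Fin n))
    (L0 : List (Fin n)) (G : Type) [Group G] (g : Fin n → G) (σ : G →* Mt (r * d))
    (Z : Subalgebra ℂ (Mt (r * d))) (o : Fin n), L0.Nodup → (∀ a, a ∈ L0) →
    Subgroup.closure (Set.range g) = ⊤ → Function.Injective σ → InvR σ Z → CommA Z →
    Module.finrank ℂ Z = d → IrrZ σ Z → AdC σ Z →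
    (∀ a, a = o ∨ a ∈ Mov → One r (d - 1) Z (σ (g a)) ∧ σ (g a) ∉ Z) → o ∉ Mov → k ≤ Mov.card →
    PairH Mo (fun x => QU (σ x.1)) (L0.map (mkd {o} g)) →
    FinOn σ {y | ∀ z ∈ Z, z * y = y * z} := by
  classical
  have : NeZero r := ⟨by omega⟩
  obtain ⟨k, hk⟩ := finite_oc r d
  refine ⟨k, fun n Mov L0 G _ g σ Z o h0 hall hg hi hZ hc hf hI hA h1 ho hM hp => ?_⟩
  have := wed_semiZ hI hZ
  obtain ⟨e, e0, em, eo, e1, es⟩ := exists_idemS hc hf
  obtain ⟨b, rfl⟩ := exists_BR hi hZ e0 em eo e1 es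
  have htr := b.trans (fun U k1 k2 => hI U k1 fun z hz v hv => by
    obtain ⟨c, rfl⟩ := es z hz
    rw [sum_mulVec]
    exact U.sum_mem fun i _ => by rw [smul_mulVec]; exact U.smul_mem _ (k2 i v hv)) e0
  have hrk := b.rank_eq htr rfl
  obtain ⟨s⟩ : Nonempty (Fin d) := ⟨⟨0, Nat.pos_of_ne_zero hd⟩⟩
  obtain ⟨J, K, hKJ, hJK⟩ : ∃ (J : Matrix (Fin (r * d)) (Fin r) ℂ)
      (K : Matrix (Fin r) (Fin (r * d)) ℂ), K * J = 1 ∧ J * K = b.e s := by
    have h := idem_fac (b.idem s)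
    rwa [hrk s] at h
  have hK : K * b.e s = K := by rw [← hJK, ← Matrix.mul_assoc, hKJ, Matrix.one_mul]
  have hJ : b.e s * J = J := by rw [← hJK, Matrix.mul_assoc, hKJ, Matrix.mul_one]
  have hKi : ∀ i, i ≠ s → K * b.e i = 0 := fun i h => by
    rw [← hK, Matrix.mul_assoc, b.orth _ _ h.symm, Matrix.mul_zero]
  let H : Subgroup G := (MulAction.stabilizer (Equiv.Perm (Fin d)) s).comap b.π
  have hH : ∀ γ : H, σ γ * b.e s = b.e s * σ γ := fun γ => by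
    rw [b.act, show b.π γ s = s from γ.2]
  have hidx : H.index = d := by
    have h2 : Nat.card (G ⧸ H) = Nat.card (Fin d) := Nat.card_eq_of_bijective
      (Quotient.lift (fun γ => b.π γ s) fun x y h => by
        have h3 : b.π (x⁻¹ * y) s = s := QuotientGroup.leftRel_apply.1 h
        rw [← mul_inv_cancel_left x y, map_mul, Equiv.Perm.mul_apply, h3]) ⟨by
          rintro ⟨x⟩ ⟨y⟩ (h : b.π x s = b.π y s)
          refine QuotientGroup.eq.2 (?_ : b.π (x⁻¹ * y) s = s)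
          rw [map_mul, Equiv.Perm.mul_apply, ← h, map_inv, Equiv.Perm.coe_inv,
            Equiv.symm_apply_apply], fun i => by
          obtain ⟨x, -, hx⟩ := htr s (Finset.mem_univ _) i (Finset.mem_univ _)
          exact ⟨(x : G ⧸ H), hx⟩⟩
    rwa [Nat.card_eq_fintype_card (α := Fin d), Fintype.card_fin] at h2
  have : H.FiniteIndex := ⟨hidx ▸ hd⟩
  let β : H →* Mt r :=
    { toFun := fun γ => K * σ γ * J
      map_one' := by rw [OneMemClass.coe_one, map_one, Matrix.mul_one, hKJ]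
      map_mul' := fun x y => by
        rw [Matrix.mul_assoc (K * σ x), ← Matrix.mul_assoc J, ← Matrix.mul_assoc J, hJK, ← hH,
          Matrix.mul_assoc (σ y), hJ, Subgroup.coe_mul, map_mul]
        simp only [Matrix.mul_assoc] }
  have hβ : ∀ γ : H, β γ = K * σ γ * J := fun _ => rfl
  have hsc : ∀ γ : H, Scl (β γ) → ∃ c : ℂ, σ γ * b.e s = c • b.e s := fun γ ⟨c, h⟩ => ⟨c, by
    have h2 := congrArg (fun m => J * m * K) h
    simp only [hβ, Matrix.mul_smul, Matrix.smul_mul, Matrix.mul_one, hJK, ← Matrix.mul_assoc] at h2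
    rwa [← hH, Matrix.mul_assoc _ J, hJK, Matrix.mul_assoc, b.idem] at h2⟩
  have hcj : ∀ (γ x : G) (c : ℂ), σ (γ⁻¹ * x * γ) * b.e s = c • b.e s →
      σ x * b.e (b.π γ s) = c • b.e (b.π γ s) := fun γ x c h => by
    have h2 : b.e (b.π γ s) = σ γ * b.e s * σ γ⁻¹ := by
      rw [b.act, Matrix.mul_assoc, rep_mul_inv, Matrix.mul_one]
    rw [h2, ← Matrix.smul_mul, ← Matrix.mul_smul, ← h]
    simp only [← Matrix.mul_assoc, ← map_mul]
    rw [show γ * (γ⁻¹ * x * γ) = x * γ by group]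
  have hJZ : ∀ a : Mt r, ∀ z ∈ Z, z * (J * a * K) = J * a * K * z := fun a z hz => by
    obtain ⟨c, rfl⟩ := es z hz
    simp only [Finset.mul_sum, Finset.sum_mul, Matrix.mul_smul, Matrix.smul_mul]
    refine Finset.sum_congr rfl fun i _ => congrArg _ ?_
    by_cases h : i = s
    · rw [h, Matrix.mul_assoc _ K, hK, ← Matrix.mul_assoc, ← Matrix.mul_assoc, hJ]
    · rw [Matrix.mul_assoc _ K, hKi i h, ← hJ]
      simp only [← Matrix.mul_assoc, b.orth _ _ h, Matrix.zero_mul, Matrix.mul_zero]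
  have hfi := hk n Mov L0 G g H b.π.ker β o (fun x => QU (σ x)) h0 hall hg hidx.le
    (fun x hx => (by rw [MonoidHom.mem_ker.1 hx]; rfl : b.π x s = s)) (fun V hV => ?_)
    (fun a ha => ?_) ho hM (fun γ x hx => QU.of_isConj (a := σ.toHomUnits _) (b := σ.toHomUnits x)
      (σ.toHomUnits.map_isConj (isConj_iff.2 ⟨γ, rfl⟩).symm) hx)
    (fun w hw => QU.of_lin (σ := σ.comp H.subtype) (L := sandL K J) (fun _ => rfl) hw) hp
  · have : ((scS β).map H.subtype).FiniteIndex := ⟨by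
      rw [Subgroup.index_map_subtype]
      exact mul_ne_zero hfi.1 Subgroup.FiniteIndex.index_ne_zero⟩
    have : Group.FG G := ⟨⟨Finset.univ.image g, by
      rw [Finset.coe_image, Finset.coe_univ, Set.image_univ, hg]⟩⟩
    choose χ hχ using fun i => exists_char σ (((scS β).map H.subtype).normalCore ⊓ b.π.ker) (e0 i)
      fun x hx => by
        obtain ⟨γ, -, rfl⟩ := htr s (Finset.mem_univ _) i (Finset.mem_univ _)
        obtain ⟨w, a1, a2⟩ := hx.1 γ⁻¹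
        obtain ⟨c, a3⟩ := hsc w a1
        exact ⟨c, hcj γ x c (by rwa [show (w : G) = γ⁻¹ * x * γ⁻¹⁻¹ from a2, inv_inv] at a3)⟩
    refine finOn_of σ _ _ b.e b.sum χ hχ (fun i γ => by
      rw [b.act, MonoidHom.mem_ker.1 γ.2.2]
      rfl) fun i j ⟨y, hy, hne⟩ γ => ?_
    have hij : i = j := by
      by_contra h3
      rw [hy _ (em i), Matrix.mul_assoc, b.orth i j h3, Matrix.mul_zero] at hne
      exact hne rfl
    rw [hij, div_self']
    exact IsOfFinOrder.one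
  · let U : Submodule ℂ (Mt (r * d)) :=
      { carrier := {y | (∀ z ∈ Z, z * y = y * z) ∧ ∀ γ, K * (σ γ * y * σ γ⁻¹) * J ∈ V}
        add_mem' := fun ha hb => ⟨fun z hz => by rw [mul_add, add_mul, ha.1 z hz, hb.1 z hz],
          fun γ => by
            rw [mul_add, add_mul, Matrix.mul_add, Matrix.add_mul]
            exact V.add_mem (ha.2 γ) (hb.2 γ)⟩
        zero_mem' := ⟨fun z _ => by rw [mul_zero, zero_mul], fun γ => by simp⟩
        smul_mem' := fun c a ha => ⟨fun z hz => by rw [mul_smul_comm, smul_mul_assoc, ha.1 z hz],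
          fun γ => by
            rw [mul_smul_comm, smul_mul_assoc, Matrix.mul_smul, Matrix.smul_mul]
            exact V.smul_mem c (ha.2 γ)⟩ }
    have hU : ∀ v ∈ V, J * v * K ∈ U := fun v hv => ⟨hJZ v, fun γ => by
      by_cases h : b.π γ s = s
      · have h2 := hV ⟨γ, h⟩ v hv
        simpa only [hβ, Matrix.mul_assoc, Subgroup.coe_inv] using h2
      · rw [← hJ]
        simp only [← Matrix.mul_assoc]
        rw [Matrix.mul_assoc K, b.act, ← Matrix.mul_assoc, hKi _ h]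
        simp⟩
    refine (hA U (fun δ y hy => ⟨fun z hz => (Subalgebra.mem_centralizer_iff ℂ).1 (inv_cent
      (σ := σ) (S := Z) (fun γ y hy => by simpa only [inv_inv, SetLike.mem_coe] using hZ γ⁻¹ y hy)
        δ y ((Subalgebra.mem_centralizer_iff ℂ).2 hy.1)) z hz, fun γ => by
        simpa only [map_mul, _root_.mul_inv_rev, mul_assoc] using hy.2 (γ * δ)⟩)
      fun z hz y hy => ⟨hy.1 z hz, fun z' hz' => by
        rw [← mul_assoc, hc z' hz' z hz, mul_assoc, hy.1 z' hz', mul_assoc], fun γ => ?_⟩).imp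
      (fun h v hv => ?_) fun h z hz => sl_of_comm (fun a a' => ?_) hz
    · obtain ⟨c, h2⟩ := es _ (hZ γ z hz)
      have h3 : K * (σ γ * z * σ γ⁻¹) = c s • K := by
        rw [h2, Matrix.mul_sum, Finset.sum_eq_single s (fun i _ h => by
          rw [Matrix.mul_smul, hKi i h, smul_zero]) (by simp), Matrix.mul_smul, hK]
      have h4 : σ γ * (z * y) * σ γ⁻¹ = σ γ * z * σ γ⁻¹ * (σ γ * y * σ γ⁻¹) := by
        simp only [mul_assoc]
        rw [← mul_assoc (σ γ⁻¹) (σ γ), rep_inv_mul, one_mul]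
      rw [h4, ← Matrix.mul_assoc, h3, Matrix.smul_mul, Matrix.smul_mul]
      exact V.smul_mem _ (hy.2 γ)
    · obtain ⟨c, h2⟩ := es _ (h _ (hU v hv))
      refine ⟨c s, ?_⟩
      have h3 := congrArg (fun m => K * m * J) h2
      simp only [← Matrix.mul_assoc, hKJ, Matrix.one_mul] at h3
      rwa [Matrix.mul_assoc, hKJ, Matrix.mul_one, Matrix.mul_sum, Finset.sum_eq_single s
        (fun i _ h => by rw [Matrix.mul_smul, hKi i h, smul_zero]) (by simp), Matrix.mul_smul, hK,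
        Matrix.smul_mul, hKJ] at h3
    · have h2 := (h _ _ (hJZ a) (hJZ a')).2 1
      simpa only [inv_one, map_one, mul_one, one_mul, Matrix.mul_sub, Matrix.sub_mul,
        Matrix.mul_assoc, hKJ, Matrix.mul_one, ← Matrix.mul_assoc K J, Matrix.one_mul] using h2
  · obtain ⟨i, hi'⟩ := one_sheet hr b hrk em hd (h1 a ha).1
    have h2 : b.π (g a) = 1 := Equiv.ext fun j => by
      by_contra h3
      by_cases h4 : j = i
      · exact h3 ((b.π (g a)).injective (hi' _ (h4 ▸ h3)).1)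
      · exact h3 (hi' j h4).1
    obtain ⟨γ, -, rfl⟩ := htr s (Finset.mem_univ _) i (Finset.mem_univ _)
    refine ⟨h2, ⟨γ⁻¹ * g a * γ, (by simp [h2] : b.π (γ⁻¹ * g a * γ) s = s)⟩,
      isConj_iff.2 ⟨γ⁻¹, by rw [inv_inv]⟩, fun h3 => (h1 a ha).2 ?_⟩
    obtain ⟨c, h4⟩ := hsc _ h3
    rw [← Matrix.mul_one (σ (g a)), ← b.sum, Finset.mul_sum]
    refine sum_mem fun j _ => ?_
    by_cases h5 : j = b.π γ s
    · rw [h5, hcj γ _ c h4]
      exact Z.smul_mem (em _) c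
    · rw [(hi' j h5).2]
      exact em j

end Pool.Agent.GR.OC
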