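import Pool.Agent.Lib.MP_aa40d3_nt.OC.Grp
import Pool.Agent.Lib.MP_aa40d3_nt.OL.Lie

/-! The block on one sheet, the escape property and the group theorem for a block. -/

open Matrix

namespace Pool.Agent.GR.OC

open NP GC FB OP CP

variable {r d N : ℕ} {G : Type} [Group G] {σ : G →* Mt N}

/-- The stabiliser of a sheet. -/
def stS (b : BR σ d) (s : Fin d) : Subgroup G :=
  (MulAction.stabilizer (Equiv.Perm (Fin d)) s).comap b.π

theorem mem_stS {b : BR σ d} {s : Fin d} {γ : G} : γ ∈ stS b s ↔ b.π γ s = s := Iff.rfl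

theorem stS_comm {b : BR σ d} {s : Fin d} (γ : stS b s) : σ γ * b.e s = b.e s * σ γ := by
  rw [b.act, show b.π γ s = s from γ.2]

/-- The block on a sheet, in the frame `J, K`. -/
def blkS (b : BR σ d) (s : Fin d) {J : Matrix (Fin N) (Fin r) ℂ} {K : Matrix (Fin r) (Fin N) ℂ}
    (hKJ : K * J = 1) (hJK : J * K = b.e s) : stS b s →* Mt r where
  toFun := fun γ => K * σ γ * J
  map_one' := by rw [OneMemClass.coe_one, map_one, Matrix.mul_one, hKJ]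
  map_mul' := fun x y => by
    rw [Matrix.mul_assoc (K * σ x), ← Matrix.mul_assoc J, ← Matrix.mul_assoc J, hJK, ← stS_comm,
      Matrix.mul_assoc (σ y), ← hJK, Matrix.mul_assoc J, hKJ, Matrix.mul_one, Subgroup.coe_mul,
      map_mul]
    simp only [Matrix.mul_assoc]

variable {H : Type} [Group H]

/-- The conclusion of the escape lemma for all small algebras that see only `β`. -/
def EscS (β : H →* Mt r) (X Y : H → Prop) (D : ℕ) : Prop :=
  ∀ (A : Type) [Ring A] [Algebra ℂ A] [FiniteDimensional ℂ A] (ρ : H →* A),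
    Module.finrank ℂ A ≤ D → (∀ x, β x = 1 → ρ x = 1) →
    ∃ (x y : H) (M : Subgroup H), X x ∧ Y y ∧ ¬ Scl (β x) ∧ ¬ Scl (β y) ∧ M.Normal ∧
      (∃ z ∈ M, ¬ Scl (β z)) ∧ ∀ K : Submodule ℂ A,
        (∀ w, QU (β (x * (w * y * w⁻¹))) → ρ w ∈ K) → ∀ w ∈ M, ρ w ∈ K

theorem lf_adR [NeZero r] {β : H →* Mt r} {Γ : Subgroup (GLr r)} {γ : H} {u : Γ}
    (h : (γ, u.1) ∈ lfS β) : AdR (incl Γ) u = AdR β γ := LinearMap.ext fun z => by
  rw [AdR_apply, AdR_apply]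
  exact lf_conj h z

theorem engineB (r : ℕ) [NeZero r] : ∃ D : ℕ, ∀ (H : Type) [Group H] [Group.FG H] (β : H →* Mt r)
    (W : Submodule ℂ (Mt r)) (X Y : H → Prop), LieW W → IrW β W → IrrR β →
    (∀ x y, X x → Y y → ¬ Scl (β x) → ¬ Scl (β y) → Opp W (β x) (β y)) → EscS β X Y D →
    (scS β).FiniteIndex := by
  obtain ⟨D, hD⟩ := engine r
  refine ⟨D, fun H _ _ β W X Y hL hW hI hO hE => ?_⟩
  obtain ⟨Γ, _, hdet, h1, h2⟩ := exists_lift β
  suffices Finite Γ from scS_index h1 h2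
  refine hD Γ (incl Γ) W (incl_inj Γ) hdet (hL.typ2 ⟨fun u z hz => ?_, fun U a1 a2 =>
    hW.2 U a1 fun γ z hz => ?_⟩ fun U hU => hI U fun γ v hv => ?_) fun τ A _ _ _ P hA => ?_
  · obtain ⟨γ, hγ⟩ := h2 u
    exact lf_adR hγ ▸ hW.1 γ z hz
  · obtain ⟨u, hu⟩ := h1 γ
    exact lf_adR hu ▸ a2 u z hz
  · obtain ⟨u, c, hc⟩ := h1 γ
    have := U.smul_mem c⁻¹ (hU u v hv)
    rwa [incl_apply, show u.1.val = c • β γ from hc, smul_mulVec, inv_smul_smul₀ (lf_ne hc)] at this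
  have e : ∀ (w : H) (w' : Γ), (w, w'.1) ∈ lfS β →
      P.comp ((AdR (incl Γ)).prod (AdR (tw τ (incl Γ)))) w' =
        P.comp ((AdR β).prod (AdR (tw τ β))) w := fun w w' hw => by
    refine congrArg P (Prod.ext (lf_adR hw) (LinearMap.ext fun z => ?_))
    obtain ⟨z, rfl⟩ : ∃ y : Mt r, y.map τ = z := ⟨z.map τ.symm, mp_mp τ.symm z⟩
    change AdR (tw τ (incl Γ)) w' _ = AdR (tw τ β) w _
    rw [AdR_tw, AdR_tw, lf_adR hw]
  obtain ⟨x, y, M, k1, k2, k3, k4, k5, k6, k7⟩ := hE A (P.comp ((AdR β).prod (AdR (tw τ β)))) hA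
    fun x hx => by
      rw [← e x 1 ⟨1, by simp [hx]⟩, map_one]
  obtain ⟨u, hu⟩ := h1 x
  obtain ⟨v, hv⟩ := h1 y
  obtain ⟨N, a1, a2, a3⟩ := exists_lfN h1 h2 k5 k6
  refine ⟨u, v, N, ?_, a1, a2, fun K hK w' hw' => ?_⟩
  · obtain ⟨c, hc⟩ := hu
    obtain ⟨c', hc'⟩ := hv
    rw [incl_apply, incl_apply, show u.1.val = c • β x from hc, show v.1.val = c' • β y from hc']
    exact ((hO x y k1 k2 k3 k4).smul (lf_ne hc) (lf_ne hc')).test
  · obtain ⟨w, b1, b2⟩ := a3 w' hw'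
    rw [e w w' b2]
    refine k7 K (fun w hw => ?_) w b1
    obtain ⟨w', b3⟩ := h1 w
    exact e w w' b3 ▸ hK w' (lf_qu (mul_mem hu (mul_mem (mul_mem b3 hv) (inv_mem b3)))
      (hdet (u * (w' * v * w'⁻¹))) hw)

end Pool.Agent.GR.OC
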