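import Pool.Agent.Lib.MP_aa40d3_nt.OC.Esc
import Pool.Agent.Lib.MP_aa40d3_nt.MG.Rep

/-! The escape lemma for a subgroup of finite index. -/

namespace Pool.Agent.GR.OC

open GC FB OP

variable {n r : ℕ} {G : Type} [Group G] {Mov : Finset (Fin n)} {L0 : List (Fin n)} {g : Fin n → G}
  {A : Type} [Ring A] [Algebra ℂ A] [FiniteDimensional ℂ A]

theorem ind_rep (G₁ : Subgroup G) [G₁.FiniteIndex] (ρ : G₁ →* A) :
    ∃ (A' : Type) (_ : Ring A') (_ : Algebra ℂ A') (_ : FiniteDimensional ℂ A'),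
      Module.finrank ℂ A' = G₁.index * G₁.index * Module.finrank ℂ A ∧
      ∃ (R : G →* A') (F : A' →ₗ[ℂ] A), ∀ x : G₁, F (R x) = ρ x := by
  classical
  obtain ⟨e, he, he0, hem⟩ := rep_ext G₁ ρ
  have := Fintype.ofFinite (G ⧸ G₁)
  have hiff : ∀ (g : G) (r : G ⧸ G₁), g⁻¹ * r.out ∈ G₁ ↔ r = (g : G ⧸ G₁) := fun g r => by
    rw [← QuotientGroup.eq, QuotientGroup.out_eq', eq_comm]
  let R : G →* Matrix (G ⧸ G₁) (G ⧸ G₁) A :=
    { toFun := fun x => Matrix.of fun q q' => e (q.out⁻¹ * x * q'.out)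
      map_one' := by
        ext q q'
        rw [Matrix.of_apply, mul_one, Matrix.one_apply]
        split_ifs with hq
        · rw [hq, inv_mul_cancel]
          exact (he 1).trans (map_one ρ)
        · refine he0 _ fun hm => hq ?_
          rw [(hiff _ _).1 hm, QuotientGroup.out_eq']
      map_mul' := fun x y => by
        ext q q'
        have key : ∀ r : G ⧸ G₁, q.out⁻¹ * x * r.out ∈ G₁ ↔ r = ((x⁻¹ * q.out : G) : G ⧸ G₁) :=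
          fun r => by rw [← hiff, mul_inv_rev, inv_inv]
        rw [Matrix.mul_apply, Finset.sum_eq_single ((x⁻¹ * q.out : G) : G ⧸ G₁)]
        · simp only [Matrix.of_apply]
          rw [hem _ ((key _).2 rfl)]
          congr 1
          group
        · intro r _ hr
          simp only [Matrix.of_apply]
          rw [he0 _ fun hm => hr ((key r).1 hm), zero_mul]
        · intro hr
          exact absurd (Finset.mem_univ _) hr }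
  have hw : (((1 : G) : G ⧸ G₁)).out ∈ G₁ := by
    have := (hiff 1 ((1 : G) : G ⧸ G₁)).2 rfl
    rwa [inv_one, one_mul] at this
  let F : Matrix (G ⧸ G₁) (G ⧸ G₁) A →ₗ[ℂ] A :=
    { toFun := fun M => ρ ⟨_, hw⟩ * M ((1 : G) : G ⧸ G₁) ((1 : G) : G ⧸ G₁) * ρ ⟨_, hw⟩⁻¹
      map_add' := fun M N => by rw [Matrix.add_apply, mul_add, add_mul]
      map_smul' := fun c M => by
        rw [Matrix.smul_apply, mul_smul_comm, smul_mul_assoc, RingHom.id_apply] }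
  refine ⟨Matrix (G ⧸ G₁) (G ⧸ G₁) A, inferInstance, inferInstance, inferInstance, ?_, R, F,
    fun x => ?_⟩
  · rw [Module.finrank_matrix, ← Nat.card_eq_fintype_card, ← Subgroup.index_eq_card]
  · have h1 : R x ((1 : G) : G ⧸ G₁) ((1 : G) : G ⧸ G₁) = ρ (⟨_, hw⟩⁻¹ * x * ⟨_, hw⟩) :=
      he ((⟨_, hw⟩ : G₁)⁻¹ * x * (⟨_, hw⟩ : G₁))
    change ρ ⟨_, hw⟩ * R x ((1 : G) : G ⧸ G₁) ((1 : G) : G ⧸ G₁) * ρ ⟨_, hw⟩⁻¹ = ρ x
    rw [h1, ← map_mul, ← map_mul]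
    congr 1
    group

/-- The elements that act as scalars. -/
def scS (β : G →* Mt r) : Subgroup G where
  carrier := {x | Scl (β x)}
  one_mem' := ⟨1, by rw [map_one, one_smul]⟩
  mul_mem' := by
    rintro x y ⟨c, hc⟩ ⟨e, he⟩
    exact ⟨c * e, by rw [map_mul, hc, he, smul_mul_smul_comm, one_mul]⟩
  inv_mem' := by
    rintro x ⟨c, hc⟩
    have h := rep_inv_mul β x
    rw [hc, mul_smul_comm, mul_one] at h
    by_cases h0 : c = 0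
    · refine ⟨0, ?_⟩
      rw [← mul_one (β x⁻¹), ← h, h0, zero_smul, zero_smul, mul_zero]
    · exact ⟨c⁻¹, by rw [← h, inv_smul_smul₀ h0]⟩

theorem escH (h0 : L0.Nodup) (hall : ∀ a, a ∈ L0) (hg : Subgroup.closure (Set.range g) = ⊤)
    {H H₀ : Subgroup G} [H.FiniteIndex] [hn : H₀.Normal] (hH : H₀ ≤ H) (β : H →* Mt r) {o : Fin n}
    (hP : ∀ a, a = o ∨ a ∈ Mov → g a ∈ H₀ ∧ ∃ w : H, IsConj (g a) w ∧ ¬ Scl (β w)) (ho : o ∉ Mov)
    {D : ℕ} (hk : Kf (D + 1) (D + 1) ≤ Mov.card)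
    (hD : H.index * H.index * (Module.finrank ℂ A + r * r) ≤ D) (ρ : H →* A) {Q : G → Prop}
    (hQ : ∀ γ x, Q x → Q (γ * x * γ⁻¹)) (hp : PairH Mo (fun x => Q x.1) (L0.map (mkd {o} g))) :
    ∃ (x y : H) (M : Subgroup H), IsConj (g o) x ∧ (∃ a ∈ Mov, IsConj (g a) y) ∧ ¬ Scl (β x) ∧
      ¬ Scl (β y) ∧ M.Normal ∧ (∃ z ∈ M, ¬ Scl (β z)) ∧ ∀ K : Submodule ℂ A,
        (∀ w : H, Q (x * (w * y * w⁻¹) : H) → ρ w ∈ K) → ∀ w ∈ M, ρ w ∈ K := by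
  obtain ⟨A', _, _, _, hA, R, F, hF⟩ := ind_rep H (ρ.prod β)
  have hc : ∀ γ x, IsConj x (γ * x * γ⁻¹ : G) := fun γ x => isConj_iff.2 ⟨γ, rfl⟩
  obtain ⟨x, C, k1, ⟨y₀, hy₀⟩, k2, k3, k4⟩ := escC h0 hall hg
    (fun x => x ∈ H₀ ∧ (∃ a ∈ Mov, IsConj (g a) x) ∧ ∃ w : H, IsConj x w ∧ ¬ Scl (β w))
    (fun γ x ⟨a1, ⟨a, a2, a3⟩, w, a4, a5⟩ =>
      ⟨hn.conj_mem _ a1 γ, ⟨a, a2, a3.trans (hc γ x)⟩, w, (hc γ x).symm.trans a4, a5⟩)
    (fun ⟨_, _, w, a4, a5⟩ => a5 (by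
      rw [show w = 1 from Subtype.ext (isConj_one_right.1 a4)]
      exact (scS β).one_mem))
    (fun a ha => ⟨(hP a (Or.inr ha)).1, ⟨a, ha, IsConj.refl _⟩, (hP a (Or.inr ha)).2⟩) ho hk
    (by rwa [hA, Module.finrank_prod, Module.finrank_matrix, Fintype.card_fin, Module.finrank_self,
      mul_one]) R hQ hp H₀ fun _ h => h.1
  have k5 : ∀ γ : G, ∃ y ∈ C, ∃ w : H, w = γ * y * γ⁻¹ ∧ ¬ Scl (β w) := fun γ => by
    by_contra hcon
    push Not at hcon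
    have a1 : Subgroup.closure C ≤ ((scS β).map H.subtype).comap (MulAut.conj γ).toMonoidHom :=
      (Subgroup.closure_le _).2 fun y hy =>
        ⟨⟨_, hH (hn.conj_mem _ (k2 y hy).1 γ)⟩, hcon y hy _ rfl, rfl⟩
    have a2 : escSp R (Subgroup.closure C) ≤ (ℂ ∙ (1 : Mt r)).comap
        (LinearMap.snd ℂ _ _ ∘ₗ F ∘ₗ (escCj R γ).toLinearMap) := by
      refine Submodule.span_le.2 ?_
      rintro _ ⟨y, hy, rfl⟩
      obtain ⟨w, ⟨c, a3⟩, a4⟩ := a1 hy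
      refine Submodule.mem_span_singleton.2 ⟨c, ?_⟩
      change _ = (F (R γ * R y * R γ⁻¹)).2
      rw [← map_mul, ← map_mul, ← show (w : G) = γ * y * γ⁻¹ from a4, hF]
      exact a3.symm
    obtain ⟨-, -, w, a3, a4⟩ := k2 y₀ hy₀
    obtain ⟨δ, a5⟩ := isConj_iff.1 a3
    obtain ⟨c, a6⟩ := Submodule.mem_span_singleton.1 (a2 (k3 (γ⁻¹ * δ) _
      (Submodule.subset_span ⟨y₀, Subgroup.subset_closure hy₀, rfl⟩)))
    refine a4 ⟨c, Eq.symm (a6.trans ?_)⟩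
    change (F (R γ * (R (γ⁻¹ * δ) * R y₀ * R (γ⁻¹ * δ)⁻¹) * R γ⁻¹)).2 = _
    simp only [← map_mul]
    rw [show γ * (γ⁻¹ * δ * y₀ * (γ⁻¹ * δ)⁻¹) * γ⁻¹ = w by rw [← a5]; group, hF]
    rfl
  obtain ⟨-, x', b1, b2⟩ := hP o (Or.inl rfl)
  obtain ⟨γ, b3⟩ := isConj_iff.1 (k1.symm.trans b1)
  obtain ⟨y, b4, y', b5, b6⟩ := k5 γ
  obtain ⟨z, b7, z', b8, b9⟩ := k5 1
  obtain ⟨-, ⟨a, c1, c2⟩, -⟩ := k2 y b4
  have hN : (escN R (Subgroup.closure C)).Normal := ⟨fun y hy γ => ⟨by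
    rw [map_mul, map_mul]
    exact k3 γ _ hy.1, by
    rw [conj_inv, map_mul, map_mul]
    exact k3 γ _ hy.2⟩⟩
  refine ⟨x', y', (escN R (Subgroup.closure C)).subgroupOf H, b1,
    ⟨a, c1, c2.trans (b5 ▸ hc γ y)⟩, b2, b6, inferInstance, ⟨z', ?_, b9⟩, fun K hK w hw => ?_⟩
  · have c3 := Subgroup.subset_closure b7
    rw [Subgroup.mem_subgroupOf, b8, one_mul, inv_one, mul_one]
    exact ⟨Submodule.subset_span ⟨z, c3, rfl⟩, Submodule.subset_span ⟨z⁻¹, inv_mem c3, rfl⟩⟩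
  have c3 : ∀ (v : G) (w : H), w = γ * v * γ⁻¹ → (R v ∈ K.comap
      (LinearMap.fst ℂ _ _ ∘ₗ F ∘ₗ (escCj R γ).toLinearMap) ↔ ρ w ∈ K) := fun v w e => by
    change (F (R γ * R v * R γ⁻¹)).1 ∈ K ↔ _
    rw [← map_mul, ← map_mul, ← e, hF]
    rfl
  refine (c3 (γ⁻¹ * w * γ⁻¹⁻¹) w (by group)).1 (k4 y b4 _ (fun v hv hq => ?_) (hN.conj_mem _ hw γ⁻¹).1)
  refine (c3 v ⟨_, hH (hn.conj_mem _ hv γ)⟩ rfl).2 (hK _ ?_)
  convert hQ γ _ hq using 1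
  simp only [Subgroup.coe_mul, Subgroup.coe_inv, b5, ← b3]
  group

end Pool.Agent.GR.OC
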