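import Pool.Agent.Lib.MP_aa40d3_nt.CP.Loc
import Pool.Agent.Lib.MP_aa40d3_nt.OP.An

/-! Ramification on one sheet, in any frame. -/

open Polynomial Matrix
open scoped Polynomial.Bivariate

namespace Pool.Agent.GR.OC

open CV CP

variable {r d n : ℕ}

theorem om_bd' {K : Type} [Field K] (y : K) (a : Matrix (Fin r) (Fin r) K) :
    Om r d y * (bd fun _ : Fin d => a : Matrix (Fin (r * d)) (Fin (r * d)) K) = a * Om r d y := by
  ext i j
  rw [om_mul, mul_apply]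
  simp [bd, Om, mul_comm]

theorem bd_sum {K : Type} [Field K] (φ : ℂ[X] →+* K) (a : Matrix (Fin r) (Fin r) K) :
    (bd fun _ : Fin d => a : Matrix (Fin (r * d)) (Fin (r * d)) K) =
      ∑ p : Fin r × Fin r, a p.1 p.2 • (bd fun _ : Fin d => single p.1 p.2 (1 : ℂ[X])).map φ := by
  ext i j
  rw [Matrix.sum_apply, Finset.sum_eq_single (co i, co j)]
  · by_cases h : sh i = sh j <;> simp [bd, h]
  · intro p _ hp
    have : ¬ (p.1 = co i ∧ p.2 = co j) := fun h => hp (Prod.ext h.1 h.2)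
    simp [bd, single_apply, this]
  · simp

theorem sum_bd {K ι : Type} [Field K] [Fintype ι] {N : ℕ} (f : Fin d → K) (h : ι → K)
    (P : Fin d → Matrix (Fin N) (Fin N) K) (Q : ι → Matrix (Fin N) (Fin N) K)
    (g g' : Matrix (Fin N) (Fin N) K) : ∑ k, f k • (P k * (g * (∑ p, h p • Q p) * g')) =
      ∑ k : Fin d × ι, (f k.1 * h k.2) • (P k.1 * (g * Q k.2 * g')) := by
  simp only [Fintype.sum_prod_type, Finset.mul_sum, Finset.sum_mul, Matrix.mul_smul,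
    Matrix.smul_mul, Finset.smul_sum, smul_smul]

theorem ram_frame {t : Fin n → ℂ} (ht : Function.Injective t)
    {A : Fin n → Matrix (Fin (r * d)) (Fin (r * d)) ℂ} {i : Fin n} {ρ : ℂ[X]} {G Mu : PM (r * d)}
    (hG : G.det ≠ 0) {U : LM (r * d)} {ys : Fin d → CV.LL}
    (hy : Function.Injective ys) {Gs Bs : Fin d → Matrix (Fin r) (Fin r) CV.LL} {o : Fin d}
    (hB : ∀ j a b, Ov 0 (Bs j a b))
    (hU : MSol (dl t) (pm t A) (xt (t i) 1) (ga ρ G (xt (t i) 1) U) (bd Bs))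
    (hI : UI (ga ρ G (xt (t i) 1) U))
    (hM : Mu.map (ev (xt (t i) 1)) * U = U * diagonal fun j => ys (sh j))
    (hG0 : (Gs o).det ≠ 0) (hO : Om r d (ys o) * U = blk Gs o)
    {W : Subalgebra ℂ[X] (PM (r * d))} (hW : ∀ (f : ℂ[X]) Φ, f ≠ 0 → f • Φ ∈ W → Φ ∈ W)
    (h1 : ∀ k : ℕ, G * Mu ^ k * G.adjugate ∈ W)
    (h2 : ∀ a, G * bd (fun _ : Fin d => a) * G.adjugate ∈ W)
    (h4 : OP.Ram ((Bs o).map fun f => f.coeff 0)) : RamAt t A W i := by
  classical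
  obtain ⟨E, hE⟩ : ∃ E, ¬ Commute (NormedSpace.exp ((2 * Real.pi * Complex.I : ℂ) •
      (Bs o).map fun f => f.coeff 0)) E := by
    by_contra! h
    obtain ⟨c, hc⟩ := OP.scl_of_comm h
    exact h4 c hc
  obtain ⟨Φ, hΦ, rfl⟩ : ∃ Φ : Matrix (Fin r) (Fin r) CV.LL, (∀ a b, Ov 0 (Φ a b)) ∧
      (Φ.map fun f => f.coeff 0) = E := ⟨E.map (algebraMap ℂ CV.LL), fun a b => ov_alg _,
    Matrix.ext fun a b => by simp [alg_eq]⟩
  obtain ⟨V, hV1, hV2, hV⟩ := ov_mat_inv hI.1 hI.2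
  have hx : ∀ {p : ℂ[X]}, p ≠ 0 → ev (xt (t i) 1) p ≠ 0 := fun hp => ev_xt_ne le_rfl hp
  have hU0 : U.det ≠ 0 := fun e => hU.1 (by rw [ga, det_smul, det_mul, e, mul_zero, mul_zero])
  obtain ⟨f, hf⟩ := wdr_vand hy fun j => if j = o then 1 else 0
  have hP := loc_idem (K := CV.LL) hM hf
  have h5 := loc_alg (a := (ev (xt (t i) 1) ρ)⁻¹) (c := 1) (O := (Gs o)⁻¹ * Om r d (ys o)) (Φ := Φ)
    (Θ := bd fun _ => Gs o * Φ * (Gs o)⁻¹) hU0 (wdr_adj (ev (xt (t i) 1)) G) hP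
    (by rw [Matrix.mul_assoc, hO, mul_blk, nonsing_inv_mul _ hG0.isUnit, pr])
    (by rw [Matrix.mul_assoc, om_bd', one_smul, Matrix.mul_assoc, Matrix.mul_assoc,
      nonsing_inv_mul_cancel_left _ _ hG0.isUnit])
  have hπ : ∀ a b, Ov 0 (pr CV.LL r o a b) := fun a b => by
    simp only [pr, blk, of_apply, Matrix.one_apply]
    split_ifs
    exacts [ov_one, Ov.zero 0, Ov.zero 0]
  have hπ0 : ((pr CV.LL r o).map fun f => f.coeff 0) = pr ℂ r o := by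
    ext a b
    simp only [pr, blk, map_apply, of_apply, Matrix.one_apply]
    split_ifs <;> simp
  have hC : ∀ a b, Ov 0 (bd Bs a b) := fun a b => by
    simp only [bd, of_apply]
    split_ifs
    exacts [hB _ _ _, Ov.zero 0]
  have hC0 : ((bd Bs).map fun f => f.coeff 0) = bd fun j => (Bs j).map fun f => f.coeff 0 := by
    ext a b
    simp only [bd, map_apply, of_apply]
    split_ifs <;> simp
  have h6 := loc_res ht hC hI.1 hU
  rw [hC0] at h6
  change _ * ga ρ G _ U = _ • (ga ρ G _ U * _) at h5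
  generalize ga ρ G (xt (t i) 1) U = U' at h5 h6 hV1 hV2 hI
  have m0 : ∀ {α β γ : Type} [Fintype β] {P : Matrix α β CV.LL} {Q : Matrix β γ CV.LL},
      (∀ a b, Ov 0 (P a b)) → (∀ a b, Ov 0 (Q a b)) → (∀ a b, Ov 0 ((P * Q) a b)) ∧
        ((P * Q).map fun f => f.coeff 0) =
          (P.map fun f => f.coeff 0) * Q.map fun f => f.coeff 0 := fun hP hQ =>
    ⟨fun a b => by simpa using ov_mat_mul hP hQ a b, by simpa using coeff_mat_mul hP hQ⟩
  have a1 := m0 (P := (pr CV.LL r o)ᵀ) (fun a b => hπ b a) hΦ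
  have a2 := m0 a1.1 hπ
  have a3 := m0 hI.1 a2.1
  have a4 := m0 a3.1 hV
  have e0 := mul_ne_zero (mul_ne_zero (hx hG) (hx hG)) one_ne_zero
  obtain ⟨Ψ, hΨ, e⟩ := loc_lat (t := t i) hW (fun k : Fin d × Fin r × Fin r =>
    W.mul_mem (h1 k.1) (h2 (single k.2.1 k.2.2 1))) a4.1
    (f := fun k => (ev (xt (t i) 1) G.det * ev (xt (t i) 1) G.det * 1)⁻¹ * f k.1 *
      (Gs o * Φ * (Gs o)⁻¹) k.2.1 k.2.2) (by
      rw [loc_sum (K := CV.LL) e0 hV1 h5, bd_sum (ev (xt (t i) 1)), sum_bd]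
      simp only [Matrix.map_mul, wdr_map_pow])
  have a5 := (m0 hI.1 hV).2
  have a6 := (m0 hV hI.1).2
  have e1 : ((1 : LM (r * d)).map fun f => f.coeff 0) = 1 := Matrix.map_one _ (by simp) (by simp)
  rw [hV1, e1] at a5
  rw [hV2, e1] at a6
  rw [a4.2, a3.2, a2.2, a1.2, transpose_map, hπ0] at e
  generalize (U'.map fun f => f.coeff 0) = u at h6 a5 a6 e
  generalize (V.map fun f => f.coeff 0) = v at a5 a6 e
  refine ⟨Ψ, hΨ, fun h7 => hE ?_⟩
  have b1 := exp_inter (A := (2 * Real.pi * Complex.I : ℂ) • A i) (L := u * (pr ℂ r o)ᵀ)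
    (B := (2 * Real.pi * Complex.I : ℂ) • (Bs o).map fun f => f.coeff 0) (by
      rw [Matrix.smul_mul, Matrix.mul_smul, ← Matrix.mul_assoc, h6, Matrix.mul_assoc, bd_pr,
        Matrix.mul_assoc])
  have b2 := congrArg (fun w => pr ℂ r o * (v * (w * (u * (pr ℂ r o)ᵀ)))) h7.eq
  have b3 : ∀ w : Matrix (Fin (r * d)) (Fin r) ℂ, v * (u * w) = w := fun w => by
    rw [← Matrix.mul_assoc, ← a6, Matrix.one_mul]
  have b4 : ∀ w : Matrix (Fin r) (Fin r) ℂ, pr ℂ r o * ((pr ℂ r o)ᵀ * w) = w := fun w => by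
    rw [← Matrix.mul_assoc, pr_mul, Matrix.one_mul]
  have b5 : ∀ w : Matrix (Fin r) (Fin r) ℂ, NormedSpace.exp ((2 * Real.pi * Complex.I : ℂ) • A i) *
      (u * ((pr ℂ r o)ᵀ * w)) = u * ((pr ℂ r o)ᵀ * (NormedSpace.exp
        ((2 * Real.pi * Complex.I : ℂ) • (Bs o).map fun f => f.coeff 0) * w)) := fun w => by
    rw [← Matrix.mul_assoc u, ← Matrix.mul_assoc, b1, Matrix.mul_assoc, Matrix.mul_assoc]
  simp only [e, Matrix.mul_assoc, b1, b3, b4, b5, pr_mul, Matrix.mul_one] at b2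
  exact b2

end Pool.Agent.GR.OC
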