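import Pool.Agent.Lib.MP_aa40d3_nt.OC.LieA
import Pool.Agent.Lib.MP_aa40d3_nt.OC.Loc

/-! The direct image of a module of Lie algebras. -/

open Polynomial Matrix
open scoped Polynomial.Bivariate

namespace Pool.Agent.GR.OC

open NP GC CV OP CP

variable {r d n : ℕ} {F : Type} [Field F] [Algebra ℂ F] {S : CV.Sys ℂ r} {x y : F}
  {δ : Derivation ℂ F F} {B Φ Φ' : Matrix (Fin r) (Fin r) F} {q : ℂ[X][Y]} {δ₀ : ℂ[X]}
  {Θ : PM (r * d)}

/-- The constant block matrix. -/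
noncomputable def bdL (r d : ℕ) : Mt r →ₗ[ℂ] PM (r * d) where
  toFun a := bd fun _ : Fin d => a.map C
  map_add' a b := Matrix.ext fun i j => by
    by_cases h : sh i = sh j <;> simp [bd, h]
  map_smul' c a := Matrix.ext fun i j => by
    by_cases h : sh i = sh j <;> simp [bd, h, smul_eq_C_mul]

theorem rl_bd (x y : F) (a : Mt r) : Rl x y (bdL r d a) (a.map (algebraMap ℂ F)) := by
  rw [Rl, ← om_bd']
  refine congrArg _ (Matrix.ext fun i j => ?_)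
  by_cases h : sh i = sh j <;> simp [bdL, bd, h]

theorem rl_zero : Rl x y (0 : PM (r * d)) (0 : Matrix (Fin r) (Fin r) F) := by simp [Rl]

theorem rl_one : Rl x y (1 : PM (r * d)) (1 : Matrix (Fin r) (Fin r) F) := by
  rw [Rl, Matrix.map_one _ (map_zero _) (map_one _), Matrix.mul_one, Matrix.one_mul]

theorem rl_uniq (hd : d ≠ 0) (e : Rl x y Θ Φ) (e' : Rl x y Θ Φ') : Φ = Φ' := by
  have h := congrArg (· * (fldE r (⟨0, Nat.pos_of_ne_zero hd⟩ : Fin d)).map (aeval x))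
    (e.symm.trans e')
  simpa only [Matrix.mul_assoc, fld_omE, pow_zero, one_smul, Matrix.mul_one] using h

theorem rl_div (h : Con S x y δ B) {c : ℂ[X]} (hc : c ≠ 0) (e : Rl x y (c • Θ) Φ) :
    Rl x y Θ ((aeval x c)⁻¹ • Φ) := by
  rw [Rl, fld_smul, Matrix.mul_smul] at e
  rw [Rl, Matrix.smul_mul, ← e, inv_smul_smul₀ (h.ne hc)]

theorem rl_pow (h : Con S x y δ B) (hp : Prep S d q δ₀) (k : ℕ) :
    Rl x y (pM S d ^ k) (y ^ k • 1) := by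
  simpa [Rl] using h.omM hp (Y ^ k)

theorem rl_comm (h : Con S x y δ B) (hp : Prep S d q δ₀) (e : Rl x y Θ Φ) :
    Θ * pM S d = pM S d * Θ := by
  have h1 := rl_pow h hp 1
  rw [pow_one] at h1
  refine rl_inj h hp (e.mul h1) ?_
  rw [Matrix.mul_smul, Matrix.mul_one, ← Matrix.one_mul Φ, ← Matrix.smul_mul]
  exact h1.mul e

/-- A span over the field, read on the direct image. -/
theorem rl_span (h : Con S x y δ B) (hp : Prep S d q δ₀) {U : Submodule ℂ[X] (PM (r * d))}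
    {e : ℂ[X]} (he : e ≠ 0) (hU : ∀ a : ℂ[X][Y], ∀ Θ ∈ U, e • (aeval (pM S d) a * Θ) ∈ U)
    {T : Set (Matrix (Fin r) (Fin r) F)}
    (hT : ∀ Φ ∈ T, ∃ c : ℂ[X], c ≠ 0 ∧ ∃ Θ ∈ U, Rl x y Θ (aeval x c • Φ))
    (hΦ : Φ ∈ Submodule.span F T) : ∃ c : ℂ[X], c ≠ 0 ∧ ∃ Θ ∈ U, Rl x y Θ (aeval x c • Φ) := by
  induction hΦ using Submodule.span_induction with
  | mem Ψ k => exact hT Ψ k
  | zero => exact ⟨1, one_ne_zero, 0, U.zero_mem, by rw [smul_zero]; exact rl_zero⟩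
  | add Ψ Ψ' _ _ k k' =>
    obtain ⟨c, hc, Θ, hm, k⟩ := k
    obtain ⟨c', hc', Θ', hm', k'⟩ := k'
    refine ⟨c * c', mul_ne_zero hc hc', _, U.add_mem (U.smul_mem c' hm) (U.smul_mem c hm'), ?_⟩
    have := (k.smul c').add (k'.smul c)
    rwa [smul_smul, smul_smul, mul_comm (aeval x c'), ← smul_add, ← map_mul] at this
  | smul u Ψ _ k =>
    obtain ⟨c, hc, Θ, hm, k⟩ := k
    obtain ⟨c', a, hc', k'⟩ := rl_scl h hp u
    refine ⟨e * (c * c'), mul_ne_zero he (mul_ne_zero hc hc'), _, hU a Θ hm, ?_⟩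
    have := (k'.mul k).smul e
    rwa [Matrix.smul_mul, Matrix.one_mul, smul_smul _ (aeval x c), mul_right_comm,
      mul_comm (aeval x c'), ← map_mul, mul_smul, smul_smul, ← map_mul] at this

theorem rl_lift (h : Con S x y δ B) (hp : Prep S d q δ₀) (Φ : Matrix (Fin r) (Fin r) F) :
    ∃ c : ℂ[X], c ≠ 0 ∧ ∃ Θ : PM (r * d), Rl x y Θ (aeval x c • Φ) := by
  obtain ⟨c, hc, Θ, -, e⟩ := rl_span h hp (U := ⊤) one_ne_zero (fun _ _ _ => trivial)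
    (T := Set.range fun a : Mt r => a.map (algebraMap ℂ F)) (by
      rintro _ ⟨a, rfl⟩
      exact ⟨1, one_ne_zero, _, trivial, by rw [map_one, one_smul]; exact rl_bd x y a⟩)
    (Φ := Φ) (by
      rw [matrix_eq_sum_single Φ]
      refine sum_mem fun i _ => sum_mem fun j _ => ?_
      rw [← mul_one (Φ i j), ← smul_eq_mul, ← smul_single]
      exact Submodule.smul_mem _ _ (Submodule.subset_span ⟨single i j 1,
        (map_single _ _ _ _).trans (by rw [map_one])⟩))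
  exact ⟨c, hc, Θ, e⟩

theorem monL_of [NeZero r] [NeZero (r * d)] {G : PM (r * d)} {W : Subalgebra ℂ[X] (PM (r * d))}
    {g : Submodule ℂ (Mt r)} (h : CP.Con S x y δ B) (hg : SimL g) (hB : LieB δ B g)
    (hp : Prep S d q δ₀) (hδ : δ₀ ≠ 0) {t : Fin n → ℂ} {A : Fin n → Mt (r * d)} {ρ : ℂ[X]}
    (hre : Function.Injective fun i => (t i).re)
    (ga : Gau (δ₀ * S.D) (pB S d q δ₀) (dl t) (pm t A) ρ G) (hρ : ρ ≠ 0) (hG : G.det ≠ 0)
    (h1 : ∀ k : ℕ, G * pM S d ^ k * G.adjugate ∈ W)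
    (hst : ∀ Φ ∈ W, dl t • Φ.map derivative - (pm t A * Φ - Φ * pm t A) ∈ W)
    (hT : ∀ Θ, Θ * pM S d = pM S d * Θ → ∀ Φ ∈ W,
      Φ * (G * Θ * G.adjugate) = G * Θ * G.adjugate * Φ)
    (hrep : ∀ Φ ∈ W, ∃ p : Fin d → ℂ[X],
      G.det • (Φ * G) = G * ∑ k : Fin d, p k • pM S d ^ (k : ℕ)) : MonL r t A W := by
  obtain ⟨P, hP, hs, hm⟩ := hB
  have hd : d ≠ 0 := right_ne_zero_of_mul (NeZero.ne (r * d))
  have hGG := mul_ne_zero hG hG
  obtain ⟨c₁, a1, Θ₁, a2⟩ := rl_lift h hp P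
  obtain ⟨c₂, b1, Θ₂, b2⟩ := rl_lift h hp P⁻¹
  obtain ⟨lam, hl⟩ : ∃ lam : Mt r →ₗ[ℂ] PM (r * d), ∀ a,
      Rl x y (lam a) (aeval x (c₁ * c₂) • (P * a.map (algebraMap ℂ F) * P⁻¹)) :=
    ⟨LinearMap.mulLeftRight ℂ (Θ₁, Θ₂) ∘ₗ bdL r d, fun a => by
      have := (a2.mul (rl_bd x y a)).mul b2
      rwa [Matrix.smul_mul, smul_mul_smul_comm, ← map_mul] at this⟩
  obtain ⟨V, hV⟩ : ∃ V : Submodule ℂ[X] (PM (r * d)),
      ∀ Ψ, Ψ ∈ V ↔ ∃ Φ ∈ spn P g, Rl x y (G.adjugate * Ψ * G) Φ := ⟨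
    { carrier := {Ψ | ∃ Φ ∈ spn P g, Rl x y (G.adjugate * Ψ * G) Φ}
      add_mem' := by
        rintro _ _ ⟨Φ, k, e⟩ ⟨Φ', k', e'⟩
        exact ⟨_, add_mem k k', by rw [Matrix.mul_add, Matrix.add_mul]; exact e.add e'⟩
      zero_mem' := ⟨0, zero_mem _, by rw [Matrix.mul_zero, Matrix.zero_mul]; exact rl_zero⟩
      smul_mem' := by
        rintro f _ ⟨Φ, k, e⟩
        exact ⟨_, Submodule.smul_mem _ _ k, by
          rw [Matrix.mul_smul, Matrix.smul_mul]; exact e.smul f⟩ }, fun _ => Iff.rfl⟩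
  have v2 : ∀ (f : ℂ[X]) Ψ, f ≠ 0 → f • Ψ ∈ V → Ψ ∈ V := fun f Ψ hf hΨ => by
    obtain ⟨Φ, k, e⟩ := (hV _).1 hΨ
    rw [Matrix.mul_smul, Matrix.smul_mul] at e
    exact (hV _).2 ⟨_, Submodule.smul_mem _ _ k, rl_div h hf e⟩
  have v0 : ∀ Θ, ∀ Φ ∈ spn P g, Rl x y Θ Φ → G * Θ * G.adjugate ∈ V := fun Θ Φ k e =>
    (hV _).2 ⟨_, Submodule.smul_mem _ _ k, by rw [cj_cj']; exact e.smul _⟩
  refine monL_abs hre hg (V := V) hst (fun Ψ hΨ => ?_) v2 (fun Θ hΘ Ψ hΨ => ?_)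
    (fun U u0 u1 u2 u3 => ?_) (LinearMap.mulLeftRight ℂ (G, G.adjugate) ∘ₗ lam)
    (mul_ne_zero hG (mul_ne_zero a1 b1)) (fun a b => ?_) ?_
    (fun a => hT _ (rl_comm h hp (hl a)))
    (fun a ha => v0 _ _ (Submodule.smul_mem _ _ (Submodule.subset_span ⟨a, ha, rfl⟩)) (hl a))
    fun U u1 u2 Ψ hΨ => ?_
  · obtain ⟨Φ, k, e⟩ := (hV _).1 hΨ
    have k1 := V.smul_mem (dl t * ρ * G.det)
      (v0 _ _ (Submodule.smul_mem _ _ (hs Φ k)) (rl_der h hp e))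
    rw [fld_gau ga hG, cj_cj, V.sub_mem_iff_left (V.smul_mem _ (V.smul_mem _ hΨ))] at k1
    have k2 := v2 _ _ (mul_ne_zero (mul_ne_zero hρ (mul_ne_zero hδ h.D)) hG) k1
    rw [map_deriv_smul, smul_add, add_sub_assoc,
      V.add_mem_iff_right (V.smul_mem _ (V.smul_mem _ hΨ)), Matrix.mul_smul, Matrix.smul_mul,
      smul_comm, ← smul_sub, ← smul_sub] at k2
    exact v2 _ _ hGG k2
  · obtain ⟨Φ, k, e⟩ := (hV _).1 hΨ
    have k0 := hT _ (rl_comm h hp e) Θ hΘ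
    rw [cj_cj, Matrix.mul_smul, Matrix.smul_mul] at k0
    obtain ⟨p, k1⟩ := hrep Θ hΘ
    have k2 : ∃ u : F, Rl x y (∑ k : Fin d, p k • pM S d ^ (k : ℕ)) (u • 1) :=
      Finset.sum_induction _ (fun M => ∃ u : F, Rl x y M (u • 1))
        (fun _ _ ⟨u, a⟩ ⟨v, b⟩ => ⟨u + v, by rw [add_smul]; exact a.add b⟩)
        ⟨0, by rw [zero_smul]; exact rl_zero⟩
        fun j _ => ⟨_, by rw [mul_smul]; exact (rl_pow h hp j).smul _⟩
    obtain ⟨u, k2⟩ := k2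
    have k3 := v0 _ _ (by rw [Matrix.smul_mul, Matrix.one_mul]; exact Submodule.smul_mem _ u k)
      (k2.mul e)
    refine ⟨fld_cancel hGG k0, v2 _ _ (mul_ne_zero hG hGG) ?_⟩
    rwa [← Matrix.mul_assoc G, ← k1, Matrix.smul_mul, Matrix.smul_mul, Matrix.mul_assoc Θ,
      Matrix.mul_assoc Θ, cj_cj, Matrix.mul_smul, smul_smul] at k3
  · obtain ⟨L, l1, l2⟩ := exists_dn h hp hδ ga hρ hG h1 u1 u2 u3
    refine (hm L (fun Φ k => ?_) l1).imp (fun k => eq_bot_iff.2 fun Ψ hΨ => ?_)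
      fun k Ψ hΨ => ?_
    · obtain ⟨c, Θ, hc, k1, e⟩ := (l2 Φ).1 k
      obtain ⟨Φ', k2, e'⟩ := (hV _).1 (u0 k1)
      rw [cj_cj'] at e'
      rwa [rl_uniq hd e' (e.smul _), Submodule.smul_mem_iff _ (h.ne hGG),
        Submodule.smul_mem_iff _ (h.ne hc)] at k2
    · obtain ⟨Φ, -, e⟩ := (hV _).1 (u0 hΨ)
      obtain rfl : Φ = 0 := k.le ((l2 Φ).2 ⟨1, _, one_ne_zero,
        cj_cj (G := G) Ψ ▸ U.smul_mem _ hΨ, by rwa [map_one, one_smul]⟩)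
      have k1 := cj_cj (G := G) Ψ
      rw [rl_inj h hp e rl_zero, Matrix.mul_zero, Matrix.zero_mul] at k1
      exact (smul_eq_zero.1 k1.symm).resolve_left hGG
    · obtain ⟨Φ, k1, e⟩ := (hV _).1 hΨ
      obtain ⟨c, Θ, hc, k2, e'⟩ := (l2 Φ).1 (k.ge k1)
      rw [rl_inj h hp e' (e.smul c), cj_smul, cj_cj] at k2
      exact u2 _ _ hGG (u2 _ _ hc k2)
  · change G * lam a * G.adjugate * (G * lam b * G.adjugate) = _ • (G * lam (a * b) * G.adjugate)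
    have := (hl a).mul (hl b)
    rw [smul_mul_smul_comm, mul_smul, Matrix.mul_assoc (P * _) P⁻¹, Matrix.mul_assoc P (b.map _),
      nonsing_inv_mul_cancel_left _ _ hP.isUnit, ← Matrix.mul_assoc, Matrix.mul_assoc P,
      ← Matrix.map_mul] at this
    rw [cj_mul, rl_inj h hp this ((hl (a * b)).smul (c₁ * c₂)), cj_smul, smul_smul]
  · change G * lam 1 * G.adjugate = _
    have := hl 1
    rw [Matrix.map_one _ (map_zero _) (map_one _), Matrix.mul_one, mul_nonsing_inv _ hP.isUnit]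
      at this
    rw [rl_inj h hp this (rl_one.smul _), cj_smul, Matrix.mul_one, mul_adjugate, smul_smul,
      mul_comm (c₁ * c₂)]
  · obtain ⟨Φ, k, e⟩ := (hV _).1 hΨ
    obtain ⟨c, hc, Θ, k1, e'⟩ := rl_span h hp
      (U := U.comap (LinearMap.mulLeftRight ℂ[X] (G, G.adjugate))) hG
      (fun a Θ hΘ => by
        change G * (_ • _) * G.adjugate ∈ U
        rw [cj_smul, ← cj_mul]
        exact u2 _ (cj_aeval h1 a) _ hΘ)
      (by
        rintro _ ⟨a, ha, rfl⟩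
        exact ⟨_, mul_ne_zero a1 b1, _, u1 a ha, hl a⟩) k
    refine ⟨_, mul_ne_zero hc hGG, ?_⟩
    rw [mul_smul, ← cj_cj, ← cj_smul, ← rl_inj h hp e' (e.smul c)]
    exact k1

end Pool.Agent.GR.OC
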