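import Pool.Agent.Lib.MP_aa40d3_nt.OC.Fam
import Pool.Agent.Lib.MP_aa40d3_nt.OL.Dict

/-! The fibre of a module of Lie algebras on a direct image. -/

open Polynomial Matrix
open scoped Matrix.Norms.Operator

namespace Pool.Agent.GR.OC

open NP GC CV OP OL

theorem one_den {R M : Type} [CommRing R] [IsDomain R] [AddCommGroup M] [Module R M]
    {V S : Submodule R M} (hV : V.FG) (h : ∀ x ∈ V, ∃ f : R, f ≠ 0 ∧ f • x ∈ S) :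
    ∃ f : R, f ≠ 0 ∧ ∀ x ∈ V, f • x ∈ S := by
  obtain ⟨T, rfl⟩ := hV
  choose! f h1 h2 using fun x (hx : x ∈ T) => h x (Submodule.subset_span hx)
  refine ⟨∏ x ∈ T, f x, Finset.prod_ne_zero_iff.2 h1, fun x hx =>
    (Submodule.span_le (p := S.comap (LinearMap.lsmul R M (∏ x ∈ T, f x)))).2 (fun y hy => ?_) hx⟩
  obtain ⟨c, hc⟩ := Finset.dvd_prod_of_mem f hy
  change (∏ x ∈ T, f x) • y ∈ S
  rw [hc, mul_comm, mul_smul]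
  exact S.smul_mem _ (h2 y hy)

theorem ev_smul {l m : Type} (f : ℂ[X]) (P : Matrix l m ℂ[X]) (z : ℂ) :
    (f • P).map (eval z) = f.eval z • P.map (eval z) := Matrix.ext fun _ _ => eval_mul

theorem monL_abs {n N r : ℕ} [NeZero N] [NeZero r] {t : Fin n → ℂ} {A : Fin n → Mt N}
    (hre : Function.Injective fun i => (t i).re) {g : Submodule ℂ (Mt r)} (hg : SimL g)
    {W : Subalgebra ℂ[X] (PM N)} {V : Submodule ℂ[X] (PM N)}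
    (hst : ∀ Φ ∈ W, dl t • Φ.map derivative - (pm t A * Φ - Φ * pm t A) ∈ W) (v1 : Stab t A V)
    (v2 : ∀ (f : ℂ[X]) Ψ, f ≠ 0 → f • Ψ ∈ V → Ψ ∈ V)
    (v3 : ∀ Θ ∈ W, ∀ Ψ ∈ V, Θ * Ψ = Ψ * Θ ∧ Θ * Ψ ∈ V)
    (v4 : ∀ U ≤ V, Stab t A U → (∀ (f : ℂ[X]) Ψ, f ≠ 0 → f • Ψ ∈ U → Ψ ∈ U) →
      (∀ Θ ∈ W, ∀ Ψ ∈ U, Θ * Ψ ∈ U) → U = ⊥ ∨ V ≤ U)
    (Φ : Mt r →ₗ[ℂ] PM N) {c : ℂ[X]} (hc : c ≠ 0) (hm : ∀ a b, Φ a * Φ b = c • Φ (a * b))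
    (h1 : Φ 1 = c • 1) (v5 : ∀ a, ∀ Θ ∈ W, Θ * Φ a = Φ a * Θ) (v6 : ∀ a ∈ g, Φ a ∈ V)
    (v7 : ∀ S : Submodule ℂ[X] (PM N), (∀ a ∈ g, Φ a ∈ S) → (∀ Θ ∈ W, ∀ Ψ ∈ S, Θ * Ψ ∈ S) →
      ∀ Ψ ∈ V, ∃ f : ℂ[X], f ≠ 0 ∧ f • Ψ ∈ S) : MonL r t A W := by
  intro H hH hb hζ
  have hx₀ : cpt (-H, -H) ∈ Lo t := fun i => (abs_lt.1 (hb i).2).1
  have hseg : ∀ x ∈ Lo t, ∀ i, t i ∉ segment ℝ (cpt (-H, -H)) x := fun x hx i hi =>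
    lt_irrefl _ (low_conv.segment_subset hx₀ hx hi i)
  have hinf : (Lo t).Infinite := infinite_of_mem_nhds _ (low_open.mem_nhds hx₀)
  have hF : ∀ y ∈ Lo t, Fb t A H y = TU t A (cpt (-H, -H)) y := fun y hy =>
    Units.ext (Yb_eq_T A hb hy)
  have hZ : ∀ y ∈ Lo t, fibcCar W (Fb t A H y) (cpt (-H, -H)) y := fun y hy =>
    hF y hy ▸ fibc_TU hst (hseg y hy)
  have hV : ∀ y ∈ Lo t, Car V (Fb t A H y) (cpt (-H, -H)) y := fun y hy =>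
    hF y hy ▸ car_TU v1 (hseg y hy)
  refine ⟨fibS V (cpt (-H, -H)), ⟨fun γ z hz => (car_vt v1 hb γ.2 z).1 hz, ?_,
    fun U hU hi hz => ?_⟩, fun J K hKJ hJK hK => ?_⟩
  · rintro _ ⟨Θ, hΘ, rfl⟩ _ ⟨Ψ, hΨ, rfl⟩
    rw [← ev_mul, ← ev_mul, ← (v3 Θ hΘ Ψ hΨ).1]
    exact ⟨rfl, _, (v3 Θ hΘ Ψ hΨ).2, rfl⟩
  · have hY : ∀ x ∈ Lo t, (∀ i, x ≠ t i) ∧ (T t A (cpt (-H, -H)) x).det ≠ 0 ∧
        HasDerivAt (T t A (cpt (-H, -H))) (sys t A x * T t A (cpt (-H, -H)) x) x := fun x hx =>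
      ⟨fun i h => lt_irrefl _ (h ▸ hx i),
        ((Matrix.isUnit_iff_isUnit_det _).1 (isUnit_Tr _)).ne_zero, hasDerivAt_T A (hseg x hx)⟩
    refine (v4 (V ⊓ primW (Lo t) (T t A (cpt (-H, -H))) U) inf_le_left
      (fun Ψ hΨ => ⟨v1 Ψ hΨ.1, primt_stable low_open hY U Ψ hΨ.2⟩)
      (fun f Ψ hf hΨ => ⟨v2 f Ψ hf hΨ.1, primW_sat low_open hY U hf hΨ.2⟩)
      fun Θ hΘ Ψ hΨ => ⟨(v3 Θ hΘ Ψ hΨ.1).2, fun x hx => ?_⟩).imp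
      (fun k => eq_bot_iff.2 fun z hz => ?_) fun k => le_antisymm hU ?_
    · obtain ⟨z, a1, a2⟩ := fib_T hst (hseg x hx) _ ⟨Θ, hΘ, rfl⟩
      obtain ⟨w, b1, b2⟩ := hΨ.2 x hx
      exact ⟨_, hz z a1 w b1, prim_mul a2 b2⟩
    · obtain ⟨Ψ, hΨ, e, he, k1⟩ := fact_ontoQ hζ hx₀ (hY _ hx₀).1 (T_self _ _ _)
        (extProp hre A hH hb) (Z := U) (fun γ hγ => hi ⟨γ, hγ⟩) hz
      obtain ⟨f, hf, k2⟩ := fibS_sat hinf (fun x hx => (hY x hx).2.1)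
        (fun Ψ hΨ x hx => fibS_T v1 (hseg x hx) _ ⟨Ψ, hΨ, rfl⟩) (Φ := Ψ) fun x hx =>
          (hΨ x hx).imp fun w hw => ⟨hU hw.1, hw.2⟩
      rw [show Ψ = 0 from k.le ⟨v2 f Ψ hf k2, hΨ⟩, Matrix.map_zero _ eval_zero] at k1
      exact (smul_eq_zero.1 k1.symm).resolve_left he
    · rintro _ ⟨Ψ, hΨ, rfl⟩
      obtain ⟨w, hw, e⟩ := (k hΨ).2 _ hx₀
      rw [T_self, mul_one, one_mul] at e
      rwa [e]
  let ψ : ℂ → Mt N →ₗ[ℂ] Mt r := fun y =>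
    sandL (K * ((Fb t A H y)⁻¹).val) ((Fb t A H y).val * J)
  have hψ : ∀ y z, ψ y z = K * (((Fb t A H y)⁻¹).val * z * (Fb t A H y).val) * J := fun y z => by
    simp only [ψ, sandL, LinearMap.coe_mk, AddHom.coe_mk, Matrix.mul_assoc]
  let ε : ℂ → PM N →ₗ[ℂ] Mt N := fun y => (aeval y : ℂ[X] →ₐ[ℂ] ℂ).mapMatrix.toLinearMap
  have hε : ∀ y Ψ, ε y Ψ = Ψ.map (eval y) := fun y Ψ => Matrix.ext fun a b => coe_aeval_eq_eval y ▸ rfl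
  let S : Submodule ℂ[X] (PM N) :=
    { carrier := {Ψ | ∀ y ∈ Lo t, ψ y (Ψ.map (eval y)) ∈ g.map (ψ y ∘ₗ ε y ∘ₗ Φ)}
      add_mem' := fun ha hb y hy => by
        rw [Matrix.map_add _ (fun _ _ => eval_add), map_add]
        exact Submodule.add_mem _ (ha y hy) (hb y hy)
      zero_mem' := fun y _ => by
        rw [Matrix.map_zero _ eval_zero, map_zero]
        exact Submodule.zero_mem _
      smul_mem' := fun f a ha y hy => by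
        rw [ev_smul, map_smul]
        exact Submodule.smul_mem _ _ (ha y hy) }
  obtain ⟨f, hf, hS⟩ := one_den (IsNoetherian.noetherian V) (v7 S
    (fun a ha y _ => ⟨a, ha, congrArg (ψ y) (hε y _)⟩) fun Θ hΘ Ψ hΨ y hy => by
      obtain ⟨e, he⟩ := hK _ ((fibc_inv (hZ y hy) _).1 ⟨Θ, hΘ, rfl⟩)
      have k : ψ y ((Θ * Ψ).map (eval y)) = e • ψ y (Ψ.map (eval y)) := by
        rw [hψ, hψ, ev_mul, ← Matrix.smul_mul, ← Matrix.smul_mul, ← he, inv_inv]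
        simp only [Matrix.mul_assoc, Units.mul_inv_cancel_left]
      rw [k]
      exact Submodule.smul_mem _ _ (hΨ y hy))
  obtain ⟨y, hy, k⟩ : ∃ y ∈ Lo t, f.eval y ≠ 0 := by
    by_contra! h
    exact hf (eq_zero_of_infinite_isRoot f (hinf.mono h))
  refine (opp_fam hre hb (W := (fibS V (cpt (-H, -H))).map (sandL K J)) hg hKJ Φ hc hm h1
    (fun y hy a => ?_) (fun y hy a ha => ⟨_, ?_, rfl⟩)
    ((Submodule.finrank_mono ?_).trans (g.finrank_map_le (ψ y ∘ₗ ε y ∘ₗ Φ)))).imp_right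
    fun h u v => h u.1 u.2 v.1 v.2
  · obtain ⟨Θ, hΘ, e⟩ := (hZ y hy _).1 hJK
    have h5 := congrArg (fun M : PM N =>
      ((Fb t A H y)⁻¹).val * M.map (eval y) * (Fb t A H y).val) (v5 a Θ hΘ)
    generalize J * K = z at e
    simpa only [ev_mul, e, mul_assoc, Units.inv_mul_cancel_left, commute_iff_eq, Units.inv_mul,
      mul_one] using h5
  · exact (car_inv (hV y hy) _).1 ⟨_, v6 a ha, rfl⟩
  · rintro _ ⟨z, hz, rfl⟩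
    obtain ⟨Ψ, hΨ, e⟩ := (hV y hy z).1 hz
    have h5 := hS Ψ hΨ y hy
    rw [ev_smul, map_smul, Submodule.smul_mem_iff _ k, e, hψ] at h5
    simp only [mul_assoc, Units.inv_mul_cancel_left, Units.inv_mul, mul_one] at h5
    exact h5

end Pool.Agent.GR.OC
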