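import Pool.Agent.Lib.MP_aa40d3_nt.RC.Stmt
import Pool.Agent.Lib.MP_aa40d3_nt.OP.Stmt

/-! Definitions used in the statement: ramified poles, irreducible endomorphisms, determinant. -/

open Polynomial Matrix
open scoped Polynomial.Bivariate

namespace Pool.Agent.GR.OC

open Pool.Agent.GR.CV

variable {F : Type} [Field F] [Algebra ℂ F] {r : ℕ}

/-- On the branch `x, y`, in the frame `G`, the system has a simple pole, and the exponential of
`2 π i` times the residue is not a scalar matrix. -/
def RamL (S : CV.Sys ℂ r) (x y : LaurentSeries ℂ) : Prop :=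
  ∃ G B : Matrix (Fin r) (Fin r) (LaurentSeries ℂ), G.det ≠ 0 ∧
    (∀ i j, ∀ k < 0, (B i j).coeff k = 0) ∧ OP.Ram (B.map fun u => u.coeff 0) ∧
    aeval x S.D • (sL • G.map (LaurentSeries.derivative ℂ) + G * B) =
      (sL * LaurentSeries.derivative ℂ x) • (S.A.map (aevalAeval x y) * G)

/-- A space of matrices over `F` that is stable under the connection induced on endomorphisms
consists of scalar matrices or contains all traceless matrices. -/
def AdF (S : CV.Sys ℂ r) (x y : F) : Prop :=
  ∀ (δ : Derivation ℂ F F) (W : Submodule F (Matrix (Fin r) (Fin r) F)), δ ≠ 0 →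
    (∀ Φ ∈ W, aeval x S.D • Φ.map δ -
      δ x • (S.A.map (aevalAeval x y) * Φ - Φ * S.A.map (aevalAeval x y)) ∈ W) →
    (∀ Φ ∈ W, ∃ u : F, Φ = u • 1) ∨ ∀ Φ, Φ.trace = 0 → Φ ∈ W

/-- A power of the determinant of the system has a solution in `F`. -/
def DetO (S : CV.Sys ℂ r) (x y : F) : Prop :=
  ∃ (m : ℕ) (h : F), 0 < m ∧ h ≠ 0 ∧ ∀ δ : Derivation ℂ F F,
    aeval x S.D * δ h = m * δ x * (S.A.map (aevalAeval x y)).trace * h

end Pool.Agent.GR.OC
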