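import Pool.Agent.Lib.MP_aa40d3_nt.RC.CorA
import Pool.Agent.Lib.MP_aa40d3_nt.RC.CorB
import Pool.Agent.Lib.MP_aa40d3_nt.RC.CorC
import Pool.Agent.Lib.MP_aa40d3_nt.OC.Stmt

/-! Fuchsian systems of any rank as systems on the curve `y = 0`: local and generic conditions. -/

open Polynomial Matrix
open scoped Polynomial.Bivariate IntermediateField

namespace Pool.Agent.GR.OC

open CV CP RC Pool.Agent.GR.GE
open Pool.Agent.Lib.MP_a01f70_lc.QQ (Place)

variable {n r : ℕ} {t : Fin n → ℂ} {A : Fin n → Mt r} {u : CV.LL} {c : ℂ}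

theorem linR_A {L : Type} [CommRing L] [Algebra ℂ L] (x y : L) :
    (linR t A).A.map (aevalAeval x y) = (pm t A).map (aeval x) :=
  Matrix.ext fun _ _ => aevalAeval_C x y _

theorem linR_loc (hu : Ov 1 (u - algebraMap ℂ CV.LL c)) (hc : ∀ i, c ≠ t i) :
    (linR t A).Loc u 0 := by
  have h0 : (ev u (dl t)).coeff 0 ≠ 0 := by
    rw [(cor_ov hu _).2]
    exact fun e => (dl_root e).elim fun i k => hc i k.symm
  have h1 : ev u (dl t) ≠ 0 := fun e => h0 (by rw [e]; rfl)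
  obtain ⟨G, h2, h3⟩ := cor_ode (M := ((ev u (dl t))⁻¹ * dL u) • (pm t A).map (ev u)) fun a b =>
    (((cor_ov hu _).1.inv h0).mul_left (ev_X u ▸ (cor_ov hu X).1).der).mul_left (cor_ov hu _).1
  refine ⟨aevalAeval_Y u 0, G, h2, ?_⟩
  rw [linR_A]
  change ev u (dl t) • G.map dL = dL u • ((pm t A).map (ev u) * G)
  rw [h3]
  exact (cor_alg h1 0 _ _ _).1

/-- At `t o` the system has a simple pole with residue `A o` in the standard frame. -/
theorem linR_pole (ht : Function.Injective t) {o : Fin n}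
    (hu : Ov 1 (u - algebraMap ℂ CV.LL (t o))) (h1 : u.coeff 1 ≠ 0) :
    ∃ B : LM r, (∀ i j, ∀ k < 0, (B i j).coeff k = 0) ∧ (B.map fun v => v.coeff 0) = A o ∧
      aeval u (linR t A).D • (sL • (1 : LM r).map (LaurentSeries.derivative ℂ) + 1 * B) =
        (sL * LaurentSeries.derivative ℂ u) • ((linR t A).A.map (aevalAeval u 0) * 1) := by
  obtain ⟨w, hw⟩ := dvd_iff_isRoot.2 (dl_eval t o)
  have hd : (derivative (dl t)).eval (t o) = w.eval (t o) := by simp [hw]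
  have e1 : ev u (dl t) = (u - algebraMap ℂ CV.LL (t o)) * ev u w := by
    rw [hw, map_mul, map_sub, ev_X, ev_C]
  have e2 : (ev u (dl t)).coeff 1 = u.coeff 1 * (derivative (dl t)).eval (t o) := by
    have := hu.coeff_mul (cor_ov hu w).1
    rwa [← e1, add_zero, (cor_ov hu w).2, ← hd, HahnSeries.coeff_sub, alg_eq,
      HahnSeries.coeff_single_of_ne one_ne_zero, sub_zero] at this
  have e3 : Ov 1 (ev u (dl t)) := e1 ▸ hu.mul_right (cor_ov hu w).1
  have e4 : (ev u (dl t)).coeff 1 ≠ 0 := e2 ▸ mul_ne_zero h1 (dl_deriv_ne ht o)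
  have e5 : ev u (dl t) ≠ 0 := fun e => e4 (by rw [e]; rfl)
  have e6 : Ov 0 ((ev u (dl t))⁻¹ * (sL * dL u)) :=
    (e3.inv e4).mul (ev_X u ▸ (cor_ov hu X).1).sder_one
  have e7 := e3.coeff_mul e6
  rw [mul_inv_cancel_left₀ e5, add_zero, sdL_coeff, Int.cast_one, one_mul, e2, mul_assoc,
    left_eq_mul₀ h1] at e7
  refine ⟨((ev u (dl t))⁻¹ * (sL * dL u)) • (pm t A).map (ev u),
    fun i j => e6.mul_left (cor_ov hu _).1, ?_, ?_⟩
  · ext i j
    have e8 := e6.coeff_mul (cor_ov hu (pm t A i j)).1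
    have e9 := congrFun (congrFun (pm_eval t A o) i) j
    rw [Matrix.map_apply, Matrix.smul_apply, smul_eq_mul] at e9
    rw [add_zero, (cor_ov hu _).2, e9, ← mul_assoc (HahnSeries.coeff _ _), mul_comm _ (eval _ _), e7,
      one_mul] at e8
    exact e8
  · rw [linR_A]
    change ev u (dl t) • (sL • (1 : LM r).map dL + _) = (sL * dL u) • ((pm t A).map (ev u) * 1)
    rw [show (1 : LM r).map dL = 0 from Matrix.ext fun i j => by
      simp [Matrix.one_apply, apply_ite dL, dL_zero, dL_one]]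
    exact (cor_alg e5 _ _ _ 1).2

theorem linR_ram (ht : Function.Injective t) {o : Fin n}
    (hu : Ov 1 (u - algebraMap ℂ CV.LL (t o))) (h1 : u.coeff 1 ≠ 0) (h : OP.Ram (A o)) :
    RamL (linR t A) u 0 := by
  obtain ⟨B, k1, k2, k3⟩ := linR_pole (A := A) ht hu h1
  exact ⟨1, B, by simp, k1, k2 ▸ h, k3⟩

section
variable {F : Type} [Field F] [Algebra ℂ F] {x : F}

theorem lin_den (hx : Transcendental ℂ x) (hg : ℂ⟮x, 0⟯ = ⊤) (v : F) :
    ∃ p q : ℂ[X], p ≠ 0 ∧ aeval x p * v = aeval x q := by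
  have hM : GE.Model x 0 Y := ⟨hx, hg, monic_X, irreducible_X, aevalAeval_Y x 0⟩
  obtain ⟨p, a, k1, k2⟩ := hM.den v
  refine ⟨p, a.coeff 0, k1.ne_zero, k2.trans ?_⟩
  conv_lhs => rw [← X_mul_divX_add a]
  rw [map_add, map_mul, aevalAeval_Y, zero_mul, zero_add, aevalAeval_C]

/-- A common denominator of a matrix. -/
theorem lin_denM (hx : Transcendental ℂ x) (hg : ℂ⟮x, 0⟯ = ⊤) (Ψ : Matrix (Fin r) (Fin r) F) :
    ∃ (p : ℂ[X]) (Φ : PM r), p ≠ 0 ∧ Φ.map (aeval x) = aeval x p • Ψ := by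
  classical
  choose p q k1 k2 using fun z : Fin r × Fin r => lin_den hx hg (Ψ z.1 z.2)
  refine ⟨∏ z, p z, Matrix.of fun a b => q (a, b) * ∏ z ∈ Finset.univ.erase (a, b), p z,
    Finset.prod_ne_zero_iff.2 fun z _ => k1 z, Matrix.ext fun a b => ?_⟩
  rw [Matrix.map_apply, Matrix.of_apply, map_mul, ← k2, Matrix.smul_apply, smul_eq_mul,
    ← Finset.mul_prod_erase _ p (Finset.mem_univ (a, b)), map_mul]
  ring

/-- The polynomial matrices in a space of matrices over `F`. -/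
def polV (x : F) (W : Submodule F (Matrix (Fin r) (Fin r) F)) : Submodule ℂ[X] (PM r) where
  carrier := {Φ | Φ.map (aeval x) ∈ W}
  add_mem' := fun {Φ Ψ} k k' => show (Φ + Ψ).map _ ∈ W from fld_add (x := x) Φ Ψ ▸ W.add_mem k k'
  zero_mem' := show (0 : PM r).map _ ∈ W by
    rw [Matrix.map_zero _ (map_zero _)]
    exact W.zero_mem
  smul_mem' := fun p Φ k => show (p • Φ).map _ ∈ W from fld_smul (x := x) p Φ ▸ W.smul_mem _ k

theorem polV_stab (hx : Transcendental ℂ x) (hg : ℂ⟮x, 0⟯ = ⊤) {δ : Derivation ℂ F F} (hδ : δ ≠ 0)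
    {W : Submodule F (Matrix (Fin r) (Fin r) F)}
    (hW : ∀ Φ ∈ W, aeval x (linR t A).D • Φ.map δ - δ x • ((linR t A).A.map (aevalAeval x 0) * Φ -
      Φ * (linR t A).A.map (aevalAeval x 0)) ∈ W) :
    ∀ Φ ∈ polV x W, dl t • Φ.map derivative - (pm t A * Φ - Φ * pm t A) ∈ polV x W := by
  intro Φ hΦ
  have h1 : δ x ≠ 0 := fun e => hδ (Derivation.ext fun v => by
    obtain ⟨p, q, k1, k2⟩ := lin_den hx hg v
    have k3 := congrArg δ k2
    rw [Derivation.leibniz, Derivation.map_aeval, Derivation.map_aeval, e, smul_zero, smul_zero,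
      smul_zero, add_zero, smul_eq_mul] at k3
    exact (mul_eq_zero.1 k3).resolve_left fun e' => hx ⟨p, k1, e'⟩)
  have k := W.smul_mem (δ x)⁻¹ (hW _ hΦ)
  have e : (Φ.map (aeval x)).map δ = δ x • (Φ.map derivative).map (aeval x) :=
    Matrix.ext fun a b => by
      rw [Matrix.map_apply, Matrix.map_apply, Derivation.map_aeval, smul_eq_mul, mul_comm]
      rfl
  rw [linR_A, e, smul_comm _ (δ x), ← smul_sub, inv_smul_smul₀ h1] at k
  change Matrix.map _ _ ∈ W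
  rw [fld_sub, fld_sub, fld_smul, fld_mul, fld_mul]
  exact k

theorem linR_adF (hx : Transcendental ℂ x) (hg : ℂ⟮x, 0⟯ = ⊤) (h : OP.AdIrr t A) :
    AdF (linR t A) x 0 := by
  intro δ W hδ hW
  have hne : ∀ {p : ℂ[X]}, p ≠ 0 → aeval x p ≠ 0 := fun hp e => hx ⟨_, hp, e⟩
  refine (h _ (polV_stab hx hg hδ hW)).imp (fun k Ψ hΨ => ?_) fun k Ψ hΨ => ?_
  · obtain ⟨p, Φ, k1, k2⟩ := lin_denM hx hg Ψ
    obtain ⟨e, k3⟩ := k Φ (show Matrix.map _ _ ∈ W from k2 ▸ W.smul_mem _ hΨ)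
    rw [k3, fld_smul, Matrix.map_one _ (map_zero _) (map_one _)] at k2
    exact ⟨(aeval x p)⁻¹ * aeval x e, by rw [mul_smul, k2, inv_smul_smul₀ (hne k1)]⟩
  · obtain ⟨p, Φ, k1, k2⟩ := lin_denM hx hg Ψ
    obtain ⟨q, k3, k4⟩ := k Φ (transcendental_iff_injective.1 hx (by
      have k5 := congrArg Matrix.trace k2
      rw [trace_smul, hΨ, smul_zero] at k5
      rw [map_zero, ← k5, Matrix.trace, map_sum]
      rfl))
    change Matrix.map _ _ ∈ W at k4
    rwa [fld_smul, k2, W.smul_mem_iff (hne k3), W.smul_mem_iff (hne k1)] at k4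

end

/-- The projective line with its points. -/
theorem exists_line : ∃ (F : Type) (_ : Field F) (_ : Algebra ℂ F) (x : F) (q : Place ℂ F)
    (P : ℂ → Place ℂ F), Transcendental ℂ x ∧ ℂ⟮x, 0⟯ = ⊤ ∧ genus F = 0 ∧ Function.Injective P ∧
      (∀ p, p ≠ q → ∃ c, p = P c) ∧
      (∀ c ψ, At ψ (P c) → Ov 1 (ψ x - algebraMap ℂ _ c) ∧ (ψ x).coeff 1 ≠ 0) ∧
      ∀ (n : ℕ) (t : Fin n → ℂ) (o : Fin n) (Sg : Finset (Place ℂ F)),
        (∀ p ∈ Sg, p = q ∨ ∃ i, p = P (t i)) →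
        Transcendental (IntermediateField.adjoin ℚ {x : ℂ | ∃ j, j ≠ o ∧ x = t j}) (t o) →
        Free Sg (P (t o)) := by
  obtain ⟨F, _, _, x, hx, hg1⟩ : ∃ (F : Type) (_ : Field F) (_ : Algebra ℂ F) (x : F),
      Transcendental ℂ x ∧ ℂ⟮x⟯ = ⊤ :=
    ⟨RatFunc ℂ, _, _, RatFunc.X, RatFunc.transcendental_X, RatFunc.adjoin_X⟩
  have hg : ℂ⟮x, 0⟯ = ⊤ := top_le_iff.1 (hg1.ge.trans
    (IntermediateField.adjoin.mono _ _ _ (Set.singleton_subset_iff.2 (Set.mem_insert _ _))))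
  have : IsFF F := isFF_of_gen hx hg X_ne_zero (aevalAeval_Y x 0)
  obtain ⟨g0, q, P, k1, k2, k3, k4, k5⟩ := deg_one hx (hg1 ▸ IntermediateField.finrank_top)
  refine ⟨F, _, _, x, q, P, hx, hg, g0, k1, k3, fun c ψ h => ?_, fun n t o Sg hS ho =>
    ⟨x, _, _, ho, by rw [k4]; exact one_pos, ?_⟩⟩
  · have e : ψ (x - algebraMap ℂ F c) = ψ x - algebraMap ℂ _ c := by rw [map_sub, AlgHom.commutes]
    refine ⟨e ▸ h.ge.1 (.of_le (k4 c).ge), fun h0 => ?_⟩
    have h1 := (h _).trans (k4 c)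
    have h2 : (ψ (x - algebraMap ℂ F c)).coeff (ψ (x - algebraMap ℂ F c)).order = 0 := by
      rw [h1, e, HahnSeries.coeff_sub, h0, rb1_alg, HahnSeries.coeff_single_of_ne one_ne_zero,
        sub_zero]
    rw [HahnSeries.coeff_order_eq_zero.1 h2, HahnSeries.order_zero] at h1
    exact zero_ne_one h1
  · rintro p c (h | ⟨h1, h2, h3⟩)
    · have h1 := k5 p c (by omega)
      rw [h1, k4] at h
      omega
    · obtain rfl := k5 p c h3
      obtain ⟨j, e⟩ := (hS _ h1).resolve_left (k2 c)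
      exact IntermediateField.subset_adjoin ℚ _ ⟨j, fun e' => h2 (e' ▸ e), k1 e⟩

end Pool.Agent.GR.OC
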