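import Pool.Agent.Lib.MP_aa40d3_nt.RC.CorC
import Pool.Agent.Lib.MP_aa40d3_nt.NP.StmtP
import Pool.Agent.Lib.MP_aa40d3_nt.NP.Stmt

/-! A Fuchsian system with nilpotent curvature is strictly triangular in some basis. -/

open Polynomial Matrix
open scoped Polynomial.Bivariate

namespace Pool.Agent.GR.OC

open CV RC

variable {k : Type} [Field k] {n r : ℕ} {t : Fin n → k} {A : Fin n → Matrix (Fin r) (Fin r) k}

/-- The connection on rows. -/
noncomputable def rowD (t : Fin n → k) (A : Fin n → Matrix (Fin r) (Fin r) k) (l : Fin r → k[X]) :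
    Fin r → k[X] :=
  (dl t • fun a => derivative (l a)) + l ᵥ* pm t A

theorem mul_der_pow (d : k[X]) (s : ℕ) : d * derivative (d ^ s) = s * derivative d * d ^ s := by
  rw [derivative_pow]
  cases s with
  | zero => simp
  | succ s =>
    rw [Nat.add_sub_cancel, pow_succ, map_natCast]
    ring

theorem itN_zero : itN t A 0 = 1 := rfl

theorem itN_succ (m : ℕ) : itN t A (m + 1) = dl t • (itN t A m).map derivative -
    ((m : k[X]) * derivative (dl t)) • itN t A m + itN t A m * pm t A := rfl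

theorem rowD_itN {s m : ℕ} (h : (s : k[X]) + m = 0) (i : Fin r) :
    rowD t A (dl t ^ s • itN t A m i) = dl t ^ s • itN t A (m + 1) i := by
  funext a
  have h1 := mul_der_pow (dl t) s
  simp only [rowD, itN_succ, Pi.add_apply, Pi.smul_apply, smul_eq_mul, smul_vecMul, derivative_mul,
    Matrix.add_apply, Matrix.sub_apply, Matrix.smul_apply, Matrix.map_apply, mul_apply_eq_vecMul]
  linear_combination (itN t A m i a) * h1 + derivative (dl t) * dl t ^ s * itN t A m i a * h

theorem exists_flag {p N : ℕ} (hp : p ≠ 0) (h0 : (p : k) = 0) (hN : itN t A N = 0) (j : ℕ)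
    (hj : j ≤ r) : ∃ w : Fin j → Fin r → k[X], LinearIndependent k[X] w ∧ ∀ a,
      ∃ (c : k[X]) (T : Fin j → k[X]), c ≠ 0 ∧ (∀ b, b ≤ a → T b = 0) ∧
        c • rowD t A (w a) = ∑ b, T b • w b := by
  induction j with
  | zero => exact ⟨Fin.elim0, linearIndependent_empty_type, fun a => a.elim0⟩
  | succ j ih =>
    classical
    obtain ⟨w, h1, h2⟩ := ih (by omega)
    let Q : (Fin r → k[X]) → Prop := fun v => ∃ f : k[X], f ≠ 0 ∧
      f • v ∈ Submodule.span k[X] (Set.range w)
    obtain ⟨i, hi⟩ : ∃ i, ¬ Q (itN t A 0 i) := by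
      by_contra hc
      push Not at hc
      choose f f1 f2 using hc
      have h3 : LinearIndependent k[X] fun i => f i • itN t A 0 i :=
        Fintype.linearIndependent_iff.2 fun g hg a => by
          have h4 := congrFun hg a
          simp only [itN_zero, Finset.sum_apply, Pi.smul_apply, one_apply, smul_eq_mul, mul_ite,
            mul_one, mul_zero, Finset.sum_ite_eq', Finset.mem_univ, if_true, Pi.zero_apply] at h4
          exact (mul_eq_zero.1 h4).resolve_right (f1 a)
      have h4 := (linearIndependent_le_span_aux' _ h3 (Set.range w)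
        (Set.range_subset_iff.2 f2)).trans (Fintype.card_range_le w)
      rw [Fintype.card_fin, Fintype.card_fin] at h4
      omega
    obtain ⟨m, m1, f, f1, f2⟩ : ∃ m, ¬ Q (itN t A m i) ∧ Q (itN t A (m + 1) i) := by
      by_contra hc
      push Not at hc
      have h3 : ∀ m, ¬ Q (itN t A m i) := fun m => Nat.rec hi hc m
      exact h3 N ⟨1, one_ne_zero, by rw [hN, one_smul]; exact Submodule.zero_mem _⟩
    have hd : dl t ^ ((p - 1) * m) ≠ 0 := pow_ne_zero _ (dl_monic t).ne_zero
    have hs : (((p - 1) * m : ℕ) : k[X]) + m = 0 := by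
      rw [← Nat.cast_add, ← Nat.succ_mul, Nat.succ_eq_add_one, Nat.sub_add_cancel (by omega),
        Nat.cast_mul, ← map_natCast C p, h0, map_zero, zero_mul]
    obtain ⟨u, hu⟩ := (Submodule.mem_span_range_iff_exists_fun k[X]).1 f2
    refine ⟨Fin.cons (dl t ^ ((p - 1) * m) • itN t A m i) w, h1.finCons' _ _ fun c y hy' hy => ?_,
      fun a => Fin.cases ⟨f, Fin.cons 0 fun b => dl t ^ ((p - 1) * m) * u b, f1, fun b hb => ?_, ?_⟩
        (fun a => ?_) a⟩
    · by_contra hc
      refine m1 ⟨_, mul_ne_zero hc hd, ?_⟩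
      rw [mul_smul, eq_neg_of_add_eq_zero_left hy]
      exact Submodule.neg_mem _ hy'
    · rw [Fin.le_zero_iff.1 hb]
      rfl
    · rw [Fin.cons_zero, rowD_itN hs, smul_comm, ← hu, Fin.sum_univ_succ, Finset.smul_sum]
      simp only [Fin.cons_zero, Fin.cons_succ, zero_smul, zero_add, mul_smul]
    · obtain ⟨c, T, k1, k2, k3⟩ := h2 a
      refine ⟨c, Fin.cons 0 T, k1, fun b => Fin.cases (fun _ => rfl)
        (fun b hb => k2 b (Fin.succ_le_succ_iff.1 hb)) b, ?_⟩
      rw [Fin.sum_univ_succ]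
      simp only [Fin.cons_zero, Fin.cons_succ, zero_smul, zero_add, k3]

theorem exists_tri {p N : ℕ} (hp : p ≠ 0) (h0 : (p : k) = 0) (hN : itN t A N = 0) :
    ∃ (Φ T : Matrix (Fin r) (Fin r) k[X]) (c : k[X]), Φ.det ≠ 0 ∧ c ≠ 0 ∧
      (∀ a b, b ≤ a → T a b = 0) ∧ c • (dl t • Φ.map derivative - pm t A * Φ) = Φ * T := by
  classical
  obtain ⟨w, h1, h2⟩ := exists_flag hp h0 hN r le_rfl
  choose c T k1 k2 k3 using h2
  set Ψ : Matrix (Fin r) (Fin r) k[X] := Matrix.of w with hΨ
  have hd : Ψ.det ≠ 0 := fun e => by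
    obtain ⟨v, v1, v2⟩ := exists_vecMul_eq_zero_iff.2 e
    exact v1 (funext (Fintype.linearIndependent_iff.1 h1 v (by rwa [vecMul_eq_sum] at v2)))
  set T' : Matrix (Fin r) (Fin r) k[X] :=
    Matrix.of fun a b => (∏ z ∈ Finset.univ.erase a, c z) * T a b with hT'
  have e1 : (∏ z, c z) • (dl t • Ψ.map derivative + Ψ * pm t A) = T' * Ψ := by
    ext1 a b
    have h3 := congrFun (k3 a) b
    simp only [rowD, Pi.smul_apply, Pi.add_apply, smul_eq_mul, Finset.sum_apply] at h3
    simp only [Matrix.smul_apply, Matrix.add_apply, Matrix.map_apply, smul_eq_mul, hT', hΨ,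
      of_apply]
    rw [← Finset.prod_erase_mul _ c (Finset.mem_univ a), mul_assoc, mul_apply_eq_vecMul]
    erw [h3]
    simp only [mul_apply, of_apply, Finset.mul_sum, mul_assoc]
  set Φ := Ψ.det ^ (p - 1) • Ψ.adjugate with hΦ
  have e0 : Ψ.det ^ (p - 1) * Ψ.det = Ψ.det ^ p := by
    rw [← pow_succ, Nat.sub_add_cancel (by omega)]
  have e2 : Φ * Ψ = Ψ.det ^ p • 1 := by
    rw [hΦ, Matrix.smul_mul, adjugate_mul, smul_smul, e0]
  have e3 : Φ.map derivative * Ψ + Φ * Ψ.map derivative = 0 := by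
    ext1 a b
    have h3 := congrArg derivative (congrFun (congrFun e2 a) b)
    rw [mul_apply, derivative_sum, Matrix.smul_apply, smul_eq_mul, derivative_mul, derivative_pow,
      h0, one_apply, apply_ite derivative, derivative_one, derivative_zero] at h3
    simpa [mul_apply, ← Finset.sum_add_distrib] using h3
  refine ⟨Φ, -T', ∏ z, c z, fun e => ?_, Finset.prod_ne_zero_iff.2 fun z _ => k1 z,
    fun a b hb => by simp [hT', k2 a b hb], ?_⟩
  · have h3 := congrArg det e2
    rw [det_mul, e, zero_mul, det_smul, det_one, mul_one] at h3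
    exact pow_ne_zero _ (pow_ne_zero _ hd) h3.symm
  · have e4 : ((∏ z, c z) • (dl t • Φ.map derivative - pm t A * Φ) - Φ * -T') * Ψ = 0 := by
      rw [Matrix.sub_mul, Matrix.mul_neg, Matrix.neg_mul, Matrix.mul_assoc Φ, ← e1, Matrix.smul_mul,
        Matrix.sub_mul, Matrix.smul_mul, Matrix.mul_assoc, e2, eq_neg_of_add_eq_zero_left e3,
        Matrix.mul_smul, Matrix.mul_smul, Matrix.mul_add, Matrix.mul_smul, ← Matrix.mul_assoc, e2,
        Matrix.smul_mul _ 1, Matrix.mul_one, Matrix.one_mul]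
      module
    have e5 := congrArg (· * Ψ.adjugate) e4
    simp only [Matrix.mul_assoc _ Ψ, mul_adjugate, Matrix.mul_smul, Matrix.mul_one,
      Matrix.zero_mul] at e5
    exact sub_eq_zero.1 ((smul_eq_zero.1 e5).resolve_left hd)

theorem linR_tri {p N : ℕ} (hp : p ≠ 0) (h0 : (p : k) = 0) (hN : itN t A N = 0) :
    (linR t A).Tri := by
  obtain ⟨Φ, T, c, h1, h2, h3, h4⟩ := exists_tri hp h0 hN
  refine ⟨Φ.map C, (Φ.det • T).map C, C c, c * Φ.det, mul_ne_zero h2 h1, ?_,
    fun a b hb => by simp [h3 a b hb], fun a b => ?_⟩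
  · rw [map_mul, RingHom.map_det, RingHom.mapMatrix_apply, sub_self]
    exact dvd_zero _
  · have h5 := congrArg (fun u => (C (Φ.det * u) : k[X][Y])) (congrFun (congrFun h4 a) b)
    have h6 : dX (Y : k[X][Y]) = 0 := by simpa using dX_Y_pow (R := k) 1
    simp only [Matrix.smul_apply, Matrix.sub_apply, Matrix.map_apply, smul_eq_mul, map_mul, map_sub,
      mul_apply, map_sum] at h5
    simp only [Sys.nab, linR, Pi.sub_apply, derivative_X, one_mul, h6, zero_mul, sub_zero, one_smul,
      Matrix.map_apply, dX_C, mulVec, dotProduct, mul_apply, Matrix.smul_apply, smul_eq_mul,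
      map_mul]
    rw [mul_comm (C c), mul_assoc, h5, Finset.mul_sum]
    simp only [mul_left_comm (C Φ.det), sub_self, dvd_zero]

end Pool.Agent.GR.OC
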