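import Pool.Agent.Lib.MP_aa40d3_nt.OC.Final
import Pool.Agent.Lib.MP_aa40d3_nt.OC.LineL
import Pool.Agent.Lib.MP_aa40d3_nt.OC.LineP

/-! The theorem on the line follows from the theorem on curves. -/

open Polynomial Matrix
open scoped Polynomial.Bivariate IntermediateField

namespace Pool.Agent.GR.OC

open CV RC Pool.Agent.GR.GE
open Pool.Agent.Lib.MP_a01f70_lc.QQ (Place)

variable {n r : ℕ}

theorem itN_map {R R' : Type} [CommRing R] [CommRing R'] (φ : R →+* R') (t : Fin n → R)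
    (A : Fin n → Matrix (Fin r) (Fin r) R) (k : ℕ) :
    (itN t A k).map (Polynomial.map φ) = itN (fun i => φ (t i)) (fun i => (A i).map φ) k := by
  rw [NP.itN_eq, NP.itN_eq, iterB_map, dl_map, pm_map]

/-- After inverting the small primes the system is triangular modulo every maximal ideal. -/
theorem exists_loc {R : Type} [CommRing R] [Algebra.FiniteType ℤ R] {ι : R →+* ℂ}
    (hι : Function.Injective ι) (φ : R →+* ℂ) {t : Fin n → R}
    {A : Fin n → Matrix (Fin r) (Fin r) R} {P₀ : ℕ}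
    (hp : ∀ p : ℕ, p.Prime → P₀ < p → ∀ m : Ideal R, m.IsMaximal → (p : R) ∈ m →
      NilCurv p (fun i => Ideal.Quotient.mk m (t i)) fun i => (A i).map (Ideal.Quotient.mk m)) :
    ∃ (R' : Type) (_ : CommRing R') (_ : Algebra.FiniteType ℤ R') (ι' φ' : R' →+* ℂ)
      (S : CV.Sys R' r), RingHom.ker ι' ≤ RingHom.ker φ' ∧ S.P.Monic ∧
      S.map ι' = linR (fun i => ι (t i)) (fun i => (A i).map ι) ∧
      S.map φ' = linR (fun i => φ (t i)) (fun i => (A i).map φ) ∧
      ∀ m : Ideal R', m.IsMaximal → (S.map (Ideal.Quotient.mk m)).Tri := by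
  set y : R := (P₀.factorial : R) with hy
  have hu : ∀ ψ : R →+* ℂ, IsUnit (ψ y) := fun ψ => by
    rw [hy, map_natCast]
    exact (Nat.cast_ne_zero.2 P₀.factorial_ne_zero).isUnit
  obtain ⟨R', _, _, _⟩ : ∃ (R' : Type) (_ : CommRing R') (_ : Algebra R R'),
    IsLocalization.Away y R' := ⟨Localization.Away y, _, _, inferInstance⟩
  let j := algebraMap R R'
  have := IsLocalization.Away.finitePresentation y (S := R')
  have hft : Algebra.FiniteType ℤ R' := .trans ‹Algebra.FiniteType ℤ R› inferInstance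
  have hl : ∀ ψ : R →+* ℂ, (linR (fun i => j (t i)) fun i => (A i).map j).map
      (IsLocalization.Away.lift y (hu ψ)) = linR (fun i => ψ (t i)) fun i => (A i).map ψ :=
    fun ψ => by
      rw [linR_map]
      simp only [Matrix.map_map, Function.comp_def, j, IsLocalization.Away.lift_eq]
  refine ⟨R', _, hft, _, _, _, fun z hz => ?_, monic_X, hl ι, hl φ,
    fun m hm => ?_⟩
  · obtain ⟨a, s, rfl⟩ := IsLocalization.exists_mk'_eq (Submonoid.powers y) z
    rw [RingHom.mem_ker, IsLocalization.Away.lift, IsLocalization.lift_mk'_spec, mul_zero] at hz ⊢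
    rw [(map_eq_zero_iff _ hι).1 hz, map_zero]
  · obtain ⟨p, p1, p2⟩ := exists_char m
    let _ := Ideal.Quotient.field m
    have h0 : (p : R' ⧸ m) = 0 := CharP.cast_eq_zero _ p
    have h1 : P₀ < p := not_le.1 fun h => by
      obtain ⟨e, he⟩ := (p1.dvd_factorial).2 h
      refine ((IsLocalization.Away.algebraMap_isUnit (S := R') y).map
        (Ideal.Quotient.mk m)).ne_zero ?_
      rw [hy, map_natCast, map_natCast, he, Nat.cast_mul, h0, zero_mul]
    have h2 := congrArg (Matrix.map · (Polynomial.map (Ideal.quotientMap m j le_rfl)))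
      (hp p p1 h1 _ (comap_max j m) (by
        rw [Ideal.mem_comap, map_natCast, ← Ideal.Quotient.eq_zero_iff_mem, map_natCast, h0]))
    rw [linR_map]
    refine linR_tri (N := p * r) p1.ne_zero h0 ?_
    simpa only [itN_map, Matrix.map_map, Function.comp_def, Ideal.quotientMap_mk,
      Matrix.map_zero _ (Polynomial.map_zero _)] using h2

theorem line_of_curve (r : ℕ) : ∃ k : ℕ, ∀ (n : ℕ) (R : Type) [CommRing R]
    [Algebra.FiniteType ℤ R] (ι : R →+* ℂ), Function.Injective ι → ∀ (t : Fin n → R)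
    (A : Fin n → Matrix (Fin r) (Fin r) R) (o : Fin n) (S : Finset (Fin n)) (P₀ : ℕ),
    Function.Injective t →
    Transcendental (IntermediateField.adjoin ℚ {x : ℂ | ∃ j, j ≠ o ∧ x = ι (t j)}) (ι (t o)) →
    OP.AdIrr (fun i => ι (t i)) (fun i => (A i).map ι) → OP.Ram ((A o).map ι) → k ≤ S.card →
    (∀ j ∈ S, OP.Ram ((A j).map ι)) →
    (∀ p : ℕ, p.Prime → P₀ < p → ∀ m : Ideal R, m.IsMaximal → (p : R) ∈ m →
      NilCurv p (fun i => Ideal.Quotient.mk m (t i)) fun i => (A i).map (Ideal.Quotient.mk m)) →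
    ∀ φ : R →+* ℂ, AlgSol (fun i => φ (t i)) fun i => (A i).map φ := by
  classical
  obtain ⟨k, hk⟩ := finalC r 0
  refine ⟨k, fun n R _ _ ι hι t A o M P₀ ht ho hA h1 h2 h3 hp φ => ?_⟩
  obtain ⟨R', _, _, ι', φ', S, s1, s2, s3, s4, s5⟩ := exists_loc hι φ hp
  obtain ⟨F, _, _, x, q, P, hx, hg, g0, k1, k3, k6, k7⟩ := exists_line
  have hi : Function.Injective fun i => ι (t i) := hι.comp ht
  refine linR_alg (s4 ▸ hk R' ι' φ' S F x 0 (insert q (Finset.univ.image fun i => P (ι (t i))))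
    ((insert o M).image fun i => P (ι (t i))) (P (ι (t o))) s1 s2 (s3 ▸ irreducible_X)
    (s4 ▸ irreducible_X) (s4 ▸ (dl_monic _).ne_zero) hx hg (s3 ▸ aevalAeval_Y x 0) g0
    (Finset.mem_image_of_mem _ (Finset.mem_insert_self o M))
    ((Finset.image_subset_image (Finset.subset_univ _)).trans (Finset.subset_insert _ _)) ?_
    (k7 n _ o _ (fun p hp => ?_) ho) (fun p hp ψ hψ => ?_) (fun p hp ψ hψ => ?_)
    (s3 ▸ linR_adF hx hg hA) (Or.inl rfl) s5)
  · exact (h2.trans (Finset.card_le_card (Finset.subset_insert _ _))).trans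
      (Finset.card_image_of_injective _ (k1.comp hi)).ge
  · refine (Finset.mem_insert.1 hp).imp_right fun h => ?_
    obtain ⟨i, -, e⟩ := Finset.mem_image.1 h
    exact ⟨i, e.symm⟩
  · obtain ⟨i, hi', rfl⟩ := Finset.mem_image.1 hp
    rw [s3, map_zero]
    exact linR_ram hi (k6 _ ψ hψ).1 (k6 _ ψ hψ).2
      ((Finset.mem_insert.1 hi').elim (fun e => e ▸ h1) (h3 i))
  · obtain ⟨c, rfl⟩ := k3 p fun e => hp (e ▸ Finset.mem_insert_self _ _)
    rw [s3, map_zero]
    exact linR_loc (k6 _ ψ hψ).1 fun i e => hp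
      (Finset.mem_insert_of_mem (Finset.mem_image.2 ⟨i, Finset.mem_univ _, congrArg P e.symm⟩))

end Pool.Agent.GR.OC
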