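import Pool.Agent.Lib.MP_aa40d3_nt.OC.LineL
import Pool.Agent.Lib.MP_aa40d3_nt.OG.Stmt

/-! Fuchsian systems on the curve `y = 0`: irreducibility and Lie algebras. -/

open Polynomial Matrix
open scoped Polynomial.Bivariate IntermediateField

namespace Pool.Agent.GR.OC

open CV CP RC

variable {n r : ℕ} {t : Fin n → ℂ} {A : Fin n → Mt r} {F : Type} [Field F] [Algebra ℂ F] {x : F}

theorem lin_der (hx : Transcendental ℂ x) (hg : ℂ⟮x, 0⟯ = ⊤) {δ : Derivation ℂ F F} (hδ : δ ≠ 0) :
    δ x ≠ 0 := fun e => hδ (Derivation.ext fun v => by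
  obtain ⟨p, q, k1, k2⟩ := lin_den hx hg v
  have k3 := congrArg δ k2
  rw [Derivation.leibniz, Derivation.map_aeval, Derivation.map_aeval, e, smul_zero, smul_zero,
    smul_zero, add_zero, smul_eq_mul] at k3
  exact (mul_eq_zero.1 k3).resolve_left fun e' => hx ⟨p, k1, e'⟩)

/-- Irreducibility on rows of polynomials gives irreducibility on columns over `F`. -/
theorem linR_irr (hx : Transcendental ℂ x) (hg : ℂ⟮x, 0⟯ = ⊤) (h : Irred t A)
    {δ : Derivation ℂ F F} (hδ : δ ≠ 0) {V : Submodule F (Fin r → F)}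
    (hV : ∀ v ∈ V, (aeval x (dl t) • fun a => δ (v a)) - δ x • (pm t A).map (aeval x) *ᵥ v ∈ V) :
    V = ⊥ ∨ V = ⊤ := by
  classical
  have hne : ∀ {p : ℂ[X]}, p ≠ 0 → aeval x p ≠ 0 := fun hp e => hx ⟨_, hp, e⟩
  let W : Submodule ℂ[X] (Fin r → ℂ[X]) :=
    { carrier := {l | ∀ v ∈ V, ∑ a, aeval x (l a) * v a = 0}
      add_mem' := fun k k' v hv => by
        simp only [Pi.add_apply, map_add, add_mul, Finset.sum_add_distrib, k v hv, k' v hv,
          add_zero]
      zero_mem' := fun v _ => by simp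
      smul_mem' := fun p l k v hv => by
        simp only [Pi.smul_apply, smul_eq_mul, map_mul, mul_assoc, ← Finset.mul_sum, k v hv,
          mul_zero] }
  rcases h W (fun l hl v hv => mul_left_cancel₀ (lin_der hx hg hδ) (by
    have k1 := congrArg δ (hl v hv)
    have k2 := hl _ (hV v hv)
    simp only [map_sum, map_zero, Derivation.leibniz, Derivation.map_aeval, smul_eq_mul,
      Finset.sum_add_distrib] at k1
    simp only [Pi.sub_apply, Pi.smul_apply, smul_eq_mul, mulVec, dotProduct, Matrix.map_apply,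
      mul_sub, Finset.sum_sub_distrib, Finset.mul_sum] at k2
    simp only [Pi.add_apply, Pi.smul_apply, smul_eq_mul, vecMul, dotProduct, map_add, map_mul,
      map_sum, add_mul, Finset.sum_add_distrib, Finset.sum_mul, mul_add, Finset.mul_sum, mul_zero]
    have k3 := congrArg (aeval x (dl t) * ·) k1
    simp only [mul_add, Finset.mul_sum, mul_zero] at k3
    rw [Finset.sum_comm] at k2
    have e1 : ∑ a, δ x * (aeval x (dl t) * aeval x (derivative (l a)) * v a) =
        ∑ a, aeval x (dl t) * (v a * (aeval x (derivative (l a)) * δ x)) :=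
      Finset.sum_congr rfl fun a _ => by ring
    have e2 : ∑ a, aeval x (l a) * (aeval x (dl t) * δ (v a)) =
        ∑ a, aeval x (dl t) * (aeval x (l a) * δ (v a)) := Finset.sum_congr rfl fun a _ => by ring
    have e3 : ∑ a, ∑ b, δ x * (aeval x (l b) * aeval x (pm t A b a) * v a) =
        ∑ a, ∑ b, aeval x (l b) * (δ x * (aeval x (pm t A b a) * v a)) :=
      Finset.sum_congr rfl fun a _ => Finset.sum_congr rfl fun b _ => by ring
    rw [e1, e3]
    rw [e2] at k2
    linear_combination k3 - k2)) with k | k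
  · refine Or.inr (by_contra fun hc => ?_)
    obtain ⟨f, f1, f2⟩ := V.exists_le_ker_of_lt_top (lt_top_iff_ne_top.2 hc)
    obtain ⟨p, Φ, k1, k2⟩ := lin_denM hx hg (Matrix.of fun _ b : Fin r => f (Pi.single b 1))
    refine f1 (LinearMap.pi_ext' fun b => LinearMap.ext_ring ?_)
    have k3 : ∀ a, aeval x (Φ b a) = aeval x p * f (Pi.single a 1) := fun a =>
      congrFun (congrFun k2 b) a
    have k4 : Φ b ∈ W := fun v hv => by
      have k5 : f v = 0 := f2 hv
      rw [LinearMap.pi_apply_eq_sum_univ] at k5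
      simp only [k3, mul_assoc, ← Finset.mul_sum]
      refine mul_eq_zero_of_right _ (Eq.trans (Finset.sum_congr rfl fun a _ => ?_) k5)
      rw [smul_eq_mul, mul_comm]
      congr 2
      funext j
      rw [Pi.single_apply]
      exact if_congr eq_comm rfl rfl
    rw [k, Submodule.mem_bot] at k4
    have k5 := k3 b
    rw [k4, Pi.zero_apply, map_zero] at k5
    exact (mul_eq_zero.1 k5.symm).resolve_left (hne k1)
  · refine Or.inl (eq_bot_iff.2 fun v hv => funext fun b => ?_)
    obtain ⟨q, q1, q2⟩ := k (Pi.single b 1)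
    have k5 := q2 v hv
    simp only [Pi.smul_apply, smul_eq_mul, Pi.single_apply, mul_ite, mul_one, mul_zero,
      apply_ite (aeval x), map_zero, ite_mul, zero_mul, Finset.sum_ite_eq', Finset.mem_univ,
      if_true] at k5
    exact (mul_eq_zero.1 k5).resolve_left (hne q1)

/-- A polynomial matrix in the span of `g` over `F` has values in `g`. -/
theorem val_mem (hx : Transcendental ℂ x) {g : Submodule ℂ (Mt r)} {Φ : PM r}
    (h : Φ.map (aeval x) ∈ Submodule.span F {Ψ | ∃ a ∈ g, Ψ = a.map (algebraMap ℂ F)}) (z : ℂ) :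
    Φ.map (eval z) ∈ g := by
  obtain ⟨l, hl⟩ := (aeval x : ℂ[X] →ₐ[ℂ] F).toLinearMap.exists_leftInverse_of_injective
    (LinearMap.ker_eq_bot.2 (transcendental_iff_injective.1 hx))
  have k : ∀ Ψ ∈ Submodule.span F {Ψ : Matrix (Fin r) (Fin r) F |
      ∃ a ∈ g, Ψ = a.map (algebraMap ℂ F)}, ∀ u : F, ((u • Ψ).map fun v => (l v).eval z) ∈ g := by
    intro Ψ hΨ
    induction hΨ using Submodule.span_induction with
    | mem Ψ hΨ =>
      obtain ⟨a, ha, rfl⟩ := hΨ
      intro u
      convert g.smul_mem ((l u).eval z) ha using 1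
      ext i j
      simp only [Matrix.map_apply, Matrix.smul_apply, smul_eq_mul]
      rw [mul_comm u, ← Algebra.smul_def, map_smul, eval_smul, smul_eq_mul, mul_comm]
    | zero =>
      intro u
      rw [smul_zero, Matrix.map_zero _ (by simp)]
      exact g.zero_mem
    | add Ψ Θ _ _ h1 h2 =>
      intro u
      rw [smul_add, Matrix.map_add _ (by simp)]
      exact g.add_mem (h1 u) (h2 u)
    | smul c Ψ _ h1 =>
      intro u
      rw [smul_smul]
      exact h1 _
  have k1 := k _ h 1
  rw [one_smul, Matrix.map_map] at k1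
  convert k1 using 2
  funext p
  exact congrArg (eval z) (LinearMap.congr_fun hl p).symm

/-- The minimality of `g` over `F`. -/
theorem linR_min (hx : Transcendental ℂ x) (hg : ℂ⟮x, 0⟯ = ⊤) {g : Submodule ℂ (Mt r)}
    (h : OG.LieSys t A g) {δ : Derivation ℂ F F} (hδ : δ ≠ 0)
    {W : Submodule F (Matrix (Fin r) (Fin r) F)}
    (h0 : W ≤ Submodule.span F {Ψ | ∃ a ∈ g, Ψ = a.map (algebraMap ℂ F)})
    (hW : ∀ Φ ∈ W, aeval x (linR t A).D • Φ.map δ - δ x • ((linR t A).A.map (aevalAeval x 0) * Φ -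
      Φ * (linR t A).A.map (aevalAeval x 0)) ∈ W) :
    W = ⊥ ∨ ∀ a ∈ g, a.map (algebraMap ℂ F) ∈ W := by
  have hne : ∀ {p : ℂ[X]}, p ≠ 0 → aeval x p ≠ 0 := fun hp e => hx ⟨_, hp, e⟩
  refine (h.2.2.2.2 (polV x W) (fun Φ hΦ => val_mem hx (h0 hΦ)) (polV_stab hx hg hδ hW)).imp
    (fun k => eq_bot_iff.2 fun Ψ hΨ => ?_) fun k a ha => ?_
  · obtain ⟨p, Φ, k1, k2⟩ := lin_denM hx hg Ψ
    have k3 : Φ ∈ polV x W := show Matrix.map _ _ ∈ W from k2 ▸ W.smul_mem _ hΨ
    rw [k, Submodule.mem_bot] at k3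
    rw [k3, Matrix.map_zero _ (map_zero _)] at k2
    exact (smul_eq_zero.1 k2.symm).resolve_left (hne k1)
  · obtain ⟨q, k3, k4⟩ := k a ha
    change Matrix.map _ _ ∈ W at k4
    rw [fld_smul, W.smul_mem_iff (hne k3), Matrix.map_map] at k4
    convert k4 using 2
    funext c
    exact (aeval_C x c).symm

/-- The matrix of the system lies in the span of `g` up to a scalar. -/
theorem linR_mem {g : Submodule ℂ (Mt r)} (h : OG.LieSys t A g) (x : F) :
    ∃ u : F, (linR t A).A.map (aevalAeval x 0) - u • 1 ∈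
      Submodule.span F {Ψ | ∃ a ∈ g, Ψ = a.map (algebraMap ℂ F)} := by
  classical
  choose c hc using h.2.2.2.1
  refine ⟨∑ i, aeval x (∏ j ∈ Finset.univ.erase i, (X - C (t j))) * algebraMap ℂ F (c i), ?_⟩
  have e : (linR t A).A.map (aevalAeval x 0) -
      (∑ i, aeval x (∏ j ∈ Finset.univ.erase i, (X - C (t j))) * algebraMap ℂ F (c i)) • 1 =
      ∑ i, aeval x (∏ j ∈ Finset.univ.erase i, (X - C (t j))) •
        (A i - c i • 1).map (algebraMap ℂ F) := by
    rw [linR_A]
    ext a b
    simp only [Matrix.sub_apply, Matrix.map_apply, cyca_pm_apply, map_sum, map_mul, aeval_C,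
      Matrix.smul_apply, Matrix.sum_apply, smul_eq_mul, map_sub, mul_sub, Finset.sum_sub_distrib,
      Finset.sum_mul, mul_assoc, Matrix.one_apply, apply_ite (algebraMap ℂ F), map_one, map_zero]
  rw [e]
  exact Submodule.sum_mem _ fun i _ => Submodule.smul_mem _ _
    (Submodule.subset_span ⟨_, hc i, rfl⟩)

end Pool.Agent.GR.OC
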