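import Pool.Agent.Lib.MP_aa40d3_nt.OC.Line
import Pool.Agent.Lib.MP_aa40d3_nt.OC.LineG
import Pool.Agent.Lib.MP_aa40d3_nt.OC.StmtG
import Pool.Agent.Lib.MP_aa40d3_nt.OL.Cst

/-! The theorem on the line for systems with a Lie algebra follows from the theorem on curves. -/

open Polynomial Matrix
open scoped Polynomial.Bivariate IntermediateField

namespace Pool.Agent.GR.OC

open CV CP RC Pool.Agent.GR.GE
open Pool.Agent.Lib.MP_a01f70_lc.QQ (Place)

variable {n r : ℕ} {t : Fin n → ℂ} {A : Fin n → Mt r} {g : Submodule ℂ (Mt r)}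
  {F : Type} [Field F] [Algebra ℂ F]

theorem simL_of (h : OG.LieSys t A g) : SimL g := by
  refine ⟨h.1, h.2.1, h.2.2.1, fun I hI hi => ?_⟩
  refine (h.2.2.2.2 (OP.polW I) (fun Φ hΦ z => hI (hΦ z))
    (OP.stab_polW (OP.norm_of_add hi h.2.2.2.1))).imp
    (fun e => eq_bot_iff.2 fun a ha => ?_) fun k => le_antisymm hI fun a ha => ?_
  · have h1 : a.map C = 0 := e.le (OP.C_mem_polW.2 ha)
    rw [← OP.ev_C a 0, h1, Matrix.map_zero _ eval_zero]
    exact Submodule.zero_mem _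
  · obtain ⟨q, h0, h1⟩ := k a ha
    obtain ⟨z, hz⟩ : ∃ z, eval z q ≠ 0 := not_forall.1 fun hn =>
      h0 (Polynomial.funext fun z => (hn z).trans eval_zero.symm)
    have h2 := h1 z
    rw [show (q • a.map C).map (eval z) = eval z q • a from Matrix.ext fun i j => by simp] at h2
    exact (I.smul_mem_iff hz).1 h2

theorem spn_one : spn (1 : Matrix (Fin r) (Fin r) F) g =
    Submodule.span F {Ψ | ∃ a ∈ g, Ψ = a.map (algebraMap ℂ F)} := by
  simp only [spn, inv_one, Matrix.one_mul, Matrix.mul_one]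

/-- The span of a Lie algebra is kept by a system whose matrix lies in it up to a scalar. -/
theorem kept_one (hg : ∀ a ∈ g, ∀ b ∈ g, a * b - b * a ∈ g) {S : CV.Sys ℂ r} {x y u : F}
    (h : S.A.map (aevalAeval x y) - u • 1 ∈ spn (1 : Matrix (Fin r) (Fin r) F) g)
    (δ : Derivation ℂ F F) : Kept S x y δ (spn 1 g) := by
  rw [spn_one] at h ⊢
  intro Φ hΦ
  induction hΦ using Submodule.span_induction with
  | mem Φ hΦ =>
    obtain ⟨a, ha, rfl⟩ := hΦ
    rw [show (a.map (algebraMap ℂ F)).map δ = 0 from Matrix.ext fun i j => δ.map_algebraMap _,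
      smul_zero, zero_sub, neg_mem_iff, ← sub_add_cancel (S.A.map (aevalAeval x y)) (u • 1),
      Matrix.add_mul, Matrix.mul_add, Matrix.smul_mul, Matrix.mul_smul, Matrix.one_mul,
      Matrix.mul_one, add_sub_add_right_eq_sub]
    refine Submodule.smul_mem _ _ ?_
    generalize S.A.map (aevalAeval x y) - u • 1 = B at h
    induction h using Submodule.span_induction with
    | mem Ψ hΨ =>
      obtain ⟨b, hb, rfl⟩ := hΨ
      refine Submodule.subset_span ⟨_, hg b hb a ha, ?_⟩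
      rw [← Matrix.map_mul, ← Matrix.map_mul, Matrix.map_sub _ (map_sub _)]
    | zero => simp
    | add Ψ Θ _ _ h1 h2 =>
      rw [Matrix.add_mul, Matrix.mul_add, add_sub_add_comm]
      exact Submodule.add_mem _ h1 h2
    | smul c Ψ _ h1 =>
      rw [Matrix.smul_mul, Matrix.mul_smul, ← smul_sub]
      exact Submodule.smul_mem _ _ h1
  | zero => simp [Matrix.map_zero _ (map_zero δ)]
  | add Ψ Θ _ _ h1 h2 =>
    convert Submodule.add_mem _ h1 h2 using 1
    rw [Matrix.map_add _ (map_add δ), Matrix.add_mul, Matrix.mul_add]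
    module
  | smul c Ψ h0 h1 =>
    convert Submodule.add_mem _ (Submodule.smul_mem _ c h1)
      (Submodule.smul_mem _ (aeval x S.D * δ c) h0) using 1
    rw [show (c • Ψ).map δ = c • Ψ.map δ + δ c • Ψ from Matrix.ext fun i j => by
      simp [mul_comm], Matrix.smul_mul, Matrix.mul_smul]
    module

theorem linR_lieO {x : F} (hx : Transcendental ℂ x) (hg : ℂ⟮x, 0⟯ = ⊤) (h : OG.LieSys t A g) :
    LieO (linR t A) x 0 g := by
  obtain ⟨u, hu⟩ := linR_mem h x
  refine ⟨1, by simp, fun δ hδ => ⟨kept_one h.2.1 (spn_one (F := F) ▸ hu) δ, fun W h1 h2 => ?_⟩⟩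
  rw [spn_one] at h1 ⊢
  refine (linR_min hx hg h hδ h1 h2).imp_right fun k => le_antisymm h1 (Submodule.span_le.2 ?_)
  rintro _ ⟨a, ha, rfl⟩
  exact k a ha

theorem linR_irrO {x : F} (hx : Transcendental ℂ x) (hg : ℂ⟮x, 0⟯ = ⊤) (h : Irred t A) :
    IrrO (linR t A) x 0 := fun δ V hδ hV => linR_irr hx hg h hδ (by rwa [linR_A] at hV)

theorem linR_two (ht : Function.Injective t) {o : Fin n} {u : CV.LL}
    (hu : Ov 1 (u - algebraMap ℂ CV.LL (t o))) (h1 : u.coeff 1 ≠ 0) (h : OG.Two (A o)) :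
    TwoL (linR t A) u 0 := by
  obtain ⟨B, k1, k2, k3⟩ := linR_pole (A := A) ht hu h1
  exact ⟨1, B, by simp, k1, k2 ▸ h, k3⟩

theorem lineG_of {r k : ℕ} (hk : ∀ (R : Type) [CommRing R] [Algebra.FiniteType ℤ R]
    (ι ψ : R →+* ℂ) (S : CV.Sys R r) (F : Type) [Field F] [Algebra ℂ F] (x y : F)
    (Sg M : Finset (Place ℂ F)) (p₀ : Place ℂ F) (g : Submodule ℂ (Matrix (Fin r) (Fin r) ℂ)),
    RingHom.ker ι ≤ RingHom.ker ψ → S.P.Monic →
    Irreducible (S.map ι).P → Irreducible (S.map ψ).P → (S.map ψ).D ≠ 0 → Transcendental ℂ x →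
    ℂ⟮x, y⟯ = ⊤ → aevalAeval x y (S.map ι).P = 0 → p₀ ∈ M → M ⊆ Sg → 2 ≤ M.card →
    k ≤ 2 * genus F + M.card → RC.Free Sg p₀ →
    (∀ p ∈ M, ∀ φ, At φ p → TwoL (S.map ι) (φ x) (φ y)) →
    (∀ p ∉ Sg, ∀ φ, At φ p → (S.map ι).Loc (φ x) (φ y)) → IrrO (S.map ι) x y → SimL g →
    LieO (S.map ι) x y g → (genus F = 0 ∨ DetO (S.map ι) x y) →
    (∀ m : Ideal R, m.IsMaximal → (S.map (Ideal.Quotient.mk m)).Tri) → (S.map ψ).Alg) :
    ∀ (n : ℕ) (R : Type) [CommRing R]
    [Algebra.FiniteType ℤ R] (ι : R →+* ℂ), Function.Injective ι → ∀ (t : Fin n → R)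
    (A : Fin n → Matrix (Fin r) (Fin r) R) (o : Fin n) (S : Finset (Fin n)) (P₀ : ℕ),
    Function.Injective t →
    Transcendental (IntermediateField.adjoin ℚ {x : ℂ | ∃ j, j ≠ o ∧ x = ι (t j)}) (ι (t o)) →
    Irred (fun i => ι (t i)) (fun i => (A i).map ι) →
    ∀ g, OG.LieSys (fun i => ι (t i)) (fun i => (A i).map ι) g → OG.Two ((A o).map ι) →
    k + 2 ≤ S.card → (∀ j ∈ S, OG.Two ((A j).map ι)) →
    (∀ p : ℕ, p.Prime → P₀ < p → ∀ m : Ideal R, m.IsMaximal → (p : R) ∈ m →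
      NilCurv p (fun i => Ideal.Quotient.mk m (t i)) fun i => (A i).map (Ideal.Quotient.mk m)) →
    ∀ φ : R →+* ℂ, AlgSol (fun i => φ (t i)) fun i => (A i).map φ := by
  classical
  intro n R _ _ ι hι t A o M P₀ ht ho hI g hA h1 h2 h3 hp φ
  obtain ⟨R', _, _, ι', φ', S, s1, s2, s3, s4, s5⟩ := exists_loc hι φ hp
  obtain ⟨F, _, _, x, q, P, hx, hg, g0, k1, k3, k6, k7⟩ := exists_line
  have hi : Function.Injective fun i => ι (t i) := hι.comp ht
  have hc : k + 2 ≤ ((insert o M).image fun i => P (ι (t i))).card :=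
    (h2.trans (Finset.card_le_card (Finset.subset_insert _ _))).trans
      (Finset.card_image_of_injective _ (k1.comp hi)).ge
  refine linR_alg (s4 ▸ hk R' ι' φ' S F x 0 (insert q (Finset.univ.image fun i => P (ι (t i))))
    ((insert o M).image fun i => P (ι (t i))) (P (ι (t o))) g s1 s2 (s3 ▸ irreducible_X)
    (s4 ▸ irreducible_X) (s4 ▸ (dl_monic _).ne_zero) hx hg (s3 ▸ aevalAeval_Y x 0)
    (Finset.mem_image_of_mem _ (Finset.mem_insert_self o M))
    ((Finset.image_subset_image (Finset.subset_univ _)).trans (Finset.subset_insert _ _))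
    (by omega) (by omega) (k7 n _ o _ (fun p hp => ?_) ho) (fun p hp ψ hψ => ?_)
    (fun p hp ψ hψ => ?_) (s3 ▸ linR_irrO hx hg hI) (simL_of hA) (s3 ▸ linR_lieO hx hg hA)
    (Or.inl g0) s5)
  · refine (Finset.mem_insert.1 hp).imp_right fun h => ?_
    obtain ⟨i, -, e⟩ := Finset.mem_image.1 h
    exact ⟨i, e.symm⟩
  · obtain ⟨i, hi', rfl⟩ := Finset.mem_image.1 hp
    rw [s3, map_zero]
    exact linR_two hi (k6 _ ψ hψ).1 (k6 _ ψ hψ).2
      ((Finset.mem_insert.1 hi').elim (fun e => e ▸ h1) (h3 i))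
  · obtain ⟨c, rfl⟩ := k3 p fun e => hp (e ▸ Finset.mem_insert_self _ _)
    rw [s3, map_zero]
    exact linR_loc (k6 _ ψ hψ).1 fun i e => hp
      (Finset.mem_insert_of_mem (Finset.mem_image.2 ⟨i, Finset.mem_univ _, congrArg P e.symm⟩))

end Pool.Agent.GR.OC
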