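import Pool.Agent.Lib.MP_aa40d3_nt.OC.Fld
import Pool.Agent.Lib.MP_aa40d3_nt.OC.Loc
import Pool.Agent.Lib.MP_aa40d3_nt.OC.Stmt
import Pool.Agent.Lib.MP_aa40d3_nt.CP.Main

/-! Systems on a plane curve with one generic puncture. -/

open Polynomial Matrix
open scoped Polynomial.Bivariate

namespace Pool.Agent.GR.OC

open CV Pool.Agent.GR.GE NP FB CP

variable {r e n : ℕ}

/-- One ramified branch and `e` ordinary branches over `t`. -/
def PunC (S : CV.Sys ℂ r) (e : ℕ) (t : ℂ) : Prop :=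
  ∃ (z : CV.LL) (y : Fin e → CV.LL), Function.Injective (Fin.cons z y : Fin (e + 1) → CV.LL) ∧
    (∀ j, S.Loc (xt t 1) (y j)) ∧ aevalAeval (xt t 1) z S.P = 0 ∧ RamL S (xt t 1) z

/-- The frame at such a fibre. -/
def PFC (S : CV.Sys ℂ r) (q : ℂ[X][Y]) (δ₀ : ℂ[X]) (e : ℕ) (t : ℂ) (U : LM (r * (e + 1))) : Prop :=
  ∃ (ys : Fin (e + 1) → CV.LL) (Gs Bs : Fin (e + 1) → Matrix (Fin r) (Fin r) CV.LL),
    Function.Injective ys ∧ (∀ j a b, Ov 0 (Bs j a b)) ∧ (∀ j : Fin e, Bs j.succ = 0) ∧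
    OP.Ram ((Bs 0).map fun f => f.coeff 0) ∧
    MSol (δ₀ * S.D) (pB S (e + 1) q δ₀) (xt t 1) U (bd Bs) ∧
    ((pM S (e + 1)).map (ev (xt t 1)) * U = U * diagonal fun j => ys (sh j)) ∧
    (Gs 0).det ≠ 0 ∧ CV.Om r (e + 1) (ys 0) * U = blk Gs 0

theorem PunC.pf {S : CV.Sys ℂ r} {q : ℂ[X][Y]} {δ₀ : ℂ[X]} (hp : Prep S (e + 1) q δ₀) {t : ℂ}
    (h : PunC S e t) : ∃ U, PFC S q δ₀ e t U := by
  obtain ⟨z, y', a3, a4, a5, G₀, B₀, b1, b2, b3, b4⟩ := h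
  choose G hG using fun j => (a4 j).locG
  obtain ⟨U, c1, c2, c3⟩ := push_loc hp a3 (x := xt t 1) (G := Fin.cons G₀ G)
    (B := Fin.cons B₀ fun _ => 0) fun j => Fin.cases ⟨a5, b1, b4⟩ (fun j => hG j) j
  exact ⟨U, _, _, _, a3, fun j => Fin.cases b2 (fun _ _ _ => Ov.zero 0) j, fun _ => rfl, b3, c1, c2,
    b1, c3 0⟩

theorem finalCa (r e : ℕ) : ∃ k : ℕ, ∀ (n : ℕ) (R : Type) [CommRing R]
    [Algebra.FiniteType ℤ R] (ι : R →+* ℂ) (S : CV.Sys R r) (F : Type) [Field F] [Algebra ℂ F]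
    (x y : F) (δ : Derivation ℂ F F) (B : Matrix (Fin r) (Fin r) F) (t : Fin n → ℂ) (o : Fin n)
    (M : Finset (Fin n)), S.P.Monic → S.P.natDegree = e + 1 → CP.Con (S.map ι) x y δ B →
    (Function.Injective fun i => (t i).re) → (∀ i, (t i).re < 0) → Gen {o} t →
    (∀ i, i = o ∨ i ∈ M → PunC (S.map ι) e (t i)) → o ∉ M → k ≤ M.card →
    (∀ c, c ∉ Set.range t → (S.map ι).Unr (xt c 1) (e + 1)) → (S.map ι).Unr sL⁻¹ (e + 1) →
    AdB δ B → (e + 1 = 1 ∨ DetF δ B) →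
    (∀ m : Ideal R, m.IsMaximal → (S.map (Ideal.Quotient.mk m)).Tri) → (S.map ι).Alg := by
  classical
  by_cases hr : 1 ≤ r
  swap
  · refine ⟨0, fun n R _ _ ι S F _ _ x y δ B t o M _ _ _ _ _ _ hPu => ?_⟩
    obtain rfl : r = 0 := by omega
    obtain ⟨_, _, -, -, -, _, _, -, -, h, -⟩ := hPu o (Or.inl rfl)
    exact absurd (Subsingleton.elim _ _) (h 0)
  obtain ⟨k, hk⟩ := coreC r (e + 1) hr e.succ_ne_zero
  refine ⟨k, fun n R _ _ ι S F _ _ x y δ B t o M hP hdeg hC hre hneg hgen hPu ho hM hU hI hAd hDe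
    hF => ?_⟩
  have hnt : Nontrivial (Fin r) := by
    by_contra h
    have := not_nontrivial_iff_subsingleton.1 h
    obtain ⟨_, _, -, -, -, _, B₀, -, -, h, -⟩ := hPu o (Or.inl rfl)
    exact h (NormedSpace.exp ((2 * Real.pi * Complex.I : ℂ) • B₀.map fun u => u.coeff 0) ⟨0, hr⟩
      ⟨0, hr⟩) (Matrix.ext fun a b => by
        rw [Subsingleton.elim a ⟨0, hr⟩, Subsingleton.elim b ⟨0, hr⟩]
        simp)
  have : NeZero (r * (e + 1)) := ⟨Nat.mul_ne_zero (by omega) e.succ_ne_zero⟩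
  have ht : Function.Injective t := fun i j h => hre (by simp only [h])
  have hinf : ∀ {p : ℂ[X]}, p ≠ 0 → ev sL⁻¹ p ≠ 0 := fun hp => (map_ne_zero_iff _ ev_inv_inj).2 hp
  obtain ⟨q, δ₀, hp, hδ⟩ : ∃ q δ₀, Prep S (e + 1) q δ₀ ∧ δ₀.map ι ≠ 0 := by
    obtain ⟨y, hy, h⟩ := hI
    exact exists_prep ι hP hdeg e.succ_ne_zero hy fun j => (h j).1
  have hp' := hp.map ι
  have hD1 := mul_ne_zero hδ hC.D
  obtain ⟨V, ys, hy, -, hV, hMu⟩ := push_unr' hp' hI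
  have hK := katzN ι (D := δ₀ * S.D) (B := pB S (e + 1) q δ₀) hδ (by rwa [Polynomial.map_mul])
    fun R' _ _ j m _ => ht_red hp hF j m
  rw [Polynomial.map_mul, pB_map hP, show S.D.map ι = (S.map ι).D from rfl] at hK
  have hpc := fun k' z A ρ G a b c => pcn_curve (n := n + k') (t := Fin.append t z) (A := A)
    (ρ := ρ) (G := G) ι hp hδ hC.D a b c hF
  generalize S.map ι = S' at *
  generalize q.map (mapRingHom ι) = q' at *
  generalize δ₀.map ι = δ' at *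
  have key : ∀ z : ℂ, ∃ U : LM (r * (e + 1)),
      (z ∉ Set.range t → TG (δ' * S'.D) (pB S' (e + 1) q' δ') z U) ∧
      (∃ Cm : LM (r * (e + 1)), (∀ i j, Ov 0 (Cm i j)) ∧
        MSol (δ' * S'.D) (pB S' (e + 1) q' δ') (xt z 1) U Cm) ∧
      ∀ i, i = o ∨ i ∈ M → t i = z → PFC S' q' δ' e z U := by
    intro z
    by_cases hz : z ∈ Set.range t
    · obtain ⟨i, rfl⟩ := hz
      by_cases hi : i = o ∨ i ∈ M
      · obtain ⟨U, h1⟩ := (hPu i hi).pf hp'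
        refine ⟨U, fun h2 => absurd ⟨i, rfl⟩ h2, ?_, fun j _ _ => h1⟩
        obtain ⟨-, -, Bs, -, h2, -, -, h3, -⟩ := h1
        refine ⟨_, fun a b => ?_, h3⟩
        simp only [bd, of_apply]
        split_ifs
        exacts [h2 _ _ _, Ov.zero 0]
      · obtain ⟨U, h1⟩ := hK (t i)
        exact ⟨U, fun h2 => absurd ⟨i, rfl⟩ h2, h1, fun j hj h2 => absurd (ht h2 ▸ hj) hi⟩
    · obtain ⟨U, -, -, h1, -⟩ := push_unr hp' (hU z hz)
      exact ⟨U, fun _ => h1, ⟨0, fun _ _ => Ov.zero 0, h1⟩, fun i _ hi => absurd ⟨i, hi⟩ hz⟩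
  choose U k1 k2 k3 using key
  obtain ⟨k', z, ρ, G, A, hz, hρ, hG, g, hcyc, hUI⟩ := exists_fr (U := U) ht hD1
    ⟨k1, fun i _ => by
      obtain ⟨Cm, a, b⟩ := k2 (t i)
      exact ⟨Cm, Finset.univ, by simp, a, fun j h => absurd (Finset.mem_univ j) h, b⟩,
      fun i hi => absurd hi (Finset.notMem_empty i)⟩ hV
  have hV' := g.msol (hinf hD1) (hinf hρ) (hinf hG) hV
  have hst := WW_stab (sh := sh (r := r) (d := e + 1)) hV'
    (by rw [sdL_inv]; exact neg_ne_zero.2 (inv_ne_zero sL_ne))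
  have hpow := pM_pow hp' (⟨0, hr⟩ : Fin r)
  have hmem := WW_mem (ρ := ρ) (G := G) hMu
  have hrep := fun Φ => WW_rep (Φ := Φ) (G := G) ev_inv_inj hρ hV.1 hMu hy hpow
  have hx : ∀ {c : ℂ} {p : ℂ[X]}, p ≠ 0 → ev (xt c 1) p ≠ 0 := fun hp => ev_xt_ne le_rfl hp
  have et : ∀ i, Fin.append t z (Fin.castAddEmb k' i) = t i := fun i => Fin.append_left t z i
  have hgen' := hz.gen hgen
  rw [Finset.map_singleton] at hgen'
  have hT : ∀ Θ, Θ * pM S' (e + 1) = pM S' (e + 1) * Θ → ∀ Φ ∈ CV.WW sL⁻¹ (ga ρ G sL⁻¹ V) sh,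
      Φ * (G * Θ * G.adjugate) = G * Θ * G.adjugate * Φ := fun Θ hΘ Φ hΦ => by
    refine rep_comm hG (hrep Φ hΦ) ?_
    simp only [Finset.mul_sum, Finset.sum_mul, Matrix.mul_smul, Matrix.smul_mul]
    exact Finset.sum_congr rfl fun j _ => congrArg _ (Commute.pow_right hΘ _).eq
  refine alg_of_on hp' hC.m.irr e.succ_ne_zero g hD1 hρ hG (fun Θ hΘ => by exact hT Θ hΘ)
    (hk _ _ (M.map (Fin.castAddEmb k')) _ A _ hgen' (nat_re hz hre hneg) hcyc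
      (wirr_of_colIrr (push_irr hp' hδ (hC.irr hAd.irr)) g (dl_ne _) hρ hG
        (by simpa only [pow_one] using hmem 1))
      (adZ_of hC hAd hp' e.succ_ne_zero hδ g hρ hG hmem fun c Φ hc => WW_sat ev_inv_inj hc)
      hst (WW_comm ev_inv_inj hV'.1) (WW_rank ev_inv_inj hρ hV.1 hG hMu hy hpow)
      (fun i' hi' => ?_) (fun h => ho ((Finset.mem_map' _).1 h)) (by rwa [Finset.card_map])
      (hpc k' z A ρ G hρ hG g)) (hDe.imp_right hC.detP)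
  obtain ⟨i, hi, rfl⟩ : ∃ i, (i = o ∨ i ∈ M) ∧ Fin.castAddEmb k' i = i' :=
    hi'.elim (fun h => ⟨o, Or.inl rfl, h.symm⟩) fun h => by
      obtain ⟨i, hi, h⟩ := Finset.mem_map.1 h
      exact ⟨i, Or.inr hi, h⟩
  obtain ⟨ys', Gs, Bs, b1, b2, b3, b4, b5, b6, b7, b8⟩ := k3 _ i hi rfl
  have b9 := g.msol (hx hD1) (hx hρ) (hx hG) b5
  refine ⟨FSE.ase hz.1 ?_, ?_⟩
  · rw [et]
    exact fse_of b9 b3 fun Φ hΦ => rep_diag (K := CV.LL) _ (hx hG) (hrep Φ hΦ) b6 _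
  · obtain ⟨Ψ, c1, c2⟩ := ram_frame (ρ := ρ) (U := U (t i)) (A := A) (i := Fin.castAddEmb k' i)
      (W := Subalgebra.centralizer ℂ[X] (CV.WW sL⁻¹ (ga ρ G sL⁻¹ V) sh : Set (PM (r * (e + 1)))))
      hz.1 hG b1 b2 (by rwa [et]) (by rw [et]; exact hUI i) (by rwa [et]) b7 b8
      (fun f Φ hf h => (Subalgebra.mem_centralizer_iff _).2 fun Ψ hΨ => fld_cancel hf (by
        rw [← Matrix.mul_smul, ← Matrix.smul_mul]
        exact (Subalgebra.mem_centralizer_iff _).1 h Ψ hΨ))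
      (fun j => (Subalgebra.mem_centralizer_iff _).2 (hT _ (Commute.pow_self _ j).eq))
      (fun a => (Subalgebra.mem_centralizer_iff _).2 (hT _ (bd_pM S' a))) b4
    exact ⟨Ψ, (Subalgebra.mem_centralizer_iff _).1 c1, c2⟩

end Pool.Agent.GR.OC
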