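import Pool.Agent.Lib.MP_aa40d3_nt.OC.FrmD
import Pool.Agent.Lib.MP_aa40d3_nt.OC.CoreD
import Pool.Agent.Lib.MP_aa40d3_nt.OC.Lie
import Pool.Agent.Lib.MP_aa40d3_nt.OC.Main
import Pool.Agent.Lib.MP_aa40d3_nt.FB.Cyc
import Pool.Agent.Lib.MP_aa40d3_nt.FK.Frm
import Pool.Agent.Lib.MP_aa40d3_nt.NP.Conv

/-! Systems with a simple Lie algebra on a plane curve with one generic puncture. -/

open Polynomial Matrix
open scoped Polynomial.Bivariate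

namespace Pool.Agent.GR.OC

open CV Pool.Agent.GR.GE NP FB FK CP

theorem mainD (r : ℕ) : ∃ k : ℕ, ∀ (e n : ℕ) (R : Type) [CommRing R]
    [Algebra.FiniteType ℤ R] (ι : R →+* ℂ) (S : CV.Sys R r) (F : Type) [Field F] [Algebra ℂ F]
    (x y : F) (δ : Derivation ℂ F F) (B : Matrix (Fin r) (Fin r) F) (t : Fin n → ℂ) (o : Fin n)
    (M Bs : Finset (Fin n)) (g : Submodule ℂ (Matrix (Fin r) (Fin r) ℂ)), S.P.Monic →
    S.P.natDegree = e + 1 → CP.Con (S.map ι) x y δ B →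
    (Function.Injective fun i => (t i).re) → (∀ i, (t i).re < 0) → Gen {o} t →
    (∀ i ∈ Bs, 1 ≤ e ∧ (S.map ι).Bra (e + 1) (t i)) →
    (∀ i, i ∉ Bs → (S.map ι).Unr (xt (t i) 1) e) →
    (∀ i, i = o ∨ i ∈ M → i ∉ Bs ∧ PunT (S.map ι) e (t i)) → o ∉ M → M.Nonempty →
    k + 2 * (e + 1) ≤ M.card + Bs.card →
    (∀ c, c ∉ Set.range t → (S.map ι).Unr (xt c 1) (e + 1)) → (S.map ι).Unr sL⁻¹ (e + 1) →
    IrrF δ B → SimL g → LieB δ B g → (e + 1 = 1 ∨ DetF δ B) →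
    (∀ m : Ideal R, m.IsMaximal → (S.map (Ideal.Quotient.mk m)).Tri) → (S.map ι).Alg := by
  classical
  by_cases hr : 1 ≤ r
  swap
  · refine ⟨0, fun e n R _ _ ι S F _ _ x y δ B t o M Bs g _ _ _ _ _ _ _ _ hPu => ?_⟩
    obtain rfl : r = 0 := by omega
    obtain ⟨_, _, -, -, -, _, _, -, -, h, -⟩ := (hPu o (Or.inl rfl)).2
    exact absurd ⟨0, Subsingleton.elim _ _⟩ (h 0)
  obtain ⟨k, hk⟩ := coreD r hr
  refine ⟨k, fun e n R _ _ ι S F _ _ x y δ B t o M Bs g hP hdeg hC hre hneg hgen hB hPu hTw ho hM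
    hc hU hI hIr hg hL hDe hF => ?_⟩
  have : NeZero r := ⟨by omega⟩
  have hd := e.succ_ne_zero
  have : NeZero (r * (e + 1)) := ⟨Nat.mul_ne_zero (by omega) hd⟩
  have ht : Function.Injective t := fun i j h => hre (by simp only [h])
  have hinf : ∀ {p : ℂ[X]}, p ≠ 0 → ev sL⁻¹ p ≠ 0 := fun hp => (map_ne_zero_iff _ ev_inv_inj).2 hp
  obtain ⟨q, δ₀, hp, hδ⟩ : ∃ q δ₀, Prep S (e + 1) q δ₀ ∧ δ₀.map ι ≠ 0 := by
    obtain ⟨y, hy, h⟩ := hI
    exact exists_prep ι hP hdeg hd hy fun j => (h j).1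
  have hp' := hp.map ι
  have hD1 := mul_ne_zero hδ hC.D
  obtain ⟨V, ys, hy, -, hV, hMu⟩ := push_unr' hp' hI
  have hK := katzN ι (D := δ₀ * S.D) (B := pB S (e + 1) q δ₀) hδ (by rwa [Polynomial.map_mul])
    fun R' _ _ j m _ => ht_red hp hF j m
  rw [Polynomial.map_mul, pB_map hP, show S.D.map ι = (S.map ι).D from rfl] at hK
  have hpc := fun k' z A ρ G a b c => pcn_curve (n := n + k') (t := Fin.append t z) (A := A)
    (ρ := ρ) (G := G) ι hp hδ hC.D a b c hF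
  generalize S.map ι = S' at *
  generalize q.map (mapRingHom ι) = q' at *
  generalize δ₀.map ι = δ' at *
  obtain ⟨U, hFr, hτ, hE⟩ := exists_frames3 hr hp' hδ hK ht hB hPu hU
  obtain ⟨ρ, G₁, A₁, hρ, hG₁, g₁, hNF, hhalf, hch⟩ := exists_fuchs3 ht hD1 hFr hV
  obtain ⟨k', z, A, G₂, hz, hG₂, g₂, hcyc, hold, -⟩ :=
    exists_cyc' ht (g₁.msol (hinf hD1) (hinf hρ) (hinf hG₁) hV) hNF
  have gg := g₁.comp g₂ (dl_ne t)
  rw [mul_one] at gg
  have hG : (G₂ * G₁).det ≠ 0 := by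
    rw [det_mul]
    exact mul_ne_zero hG₂ hG₁
  generalize G₂ * G₁ = G at gg hG
  have hV' := gg.msol (hinf hD1) (hinf hρ) (hinf hG) hV
  have hst := WW_stab (sh := sh (r := r) (d := e + 1)) hV'
    (by rw [sdL_inv]; exact neg_ne_zero.2 (inv_ne_zero sL_ne))
  have hpow := pM_pow hp' (⟨0, hr⟩ : Fin r)
  have hmem := WW_mem (ρ := ρ) (G := G) hMu
  have hmem1 := hmem 1
  rw [pow_one] at hmem1
  have hrep := fun Φ => WW_rep (Φ := Φ) (G := G) ev_inv_inj hρ hV.1 hMu hy hpow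
  have hgen' := hz.gen hgen
  rw [Finset.map_singleton] at hgen'
  have hT : ∀ Θ, Θ * pM S' (e + 1) = pM S' (e + 1) * Θ → ∀ Φ ∈ CV.WW sL⁻¹ (ga ρ G sL⁻¹ V) sh,
      Φ * (G * Θ * G.adjugate) = G * Θ * G.adjugate * Φ := fun Θ hΘ Φ hΦ => by
    refine rep_comm hG (hrep Φ hΦ) ?_
    simp only [Finset.mul_sum, Finset.sum_mul, Matrix.mul_smul, Matrix.smul_mul]
    exact Finset.sum_congr rfl fun j _ => congrArg _ (Commute.pow_right hΘ _).eq
  have hre' := nat_re hz hre hneg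
  refine alg_of_on hp' hC.m.irr hd gg hD1 hρ hG (fun Θ hΘ => by exact hT Θ hΘ)
    (hk (e + 1) _ _ (M.map (Fin.castAddEmb k')) (Bs.map (Fin.castAddEmb k')) _ A _ hd hgen' hre' hcyc
      (wirr_of_colIrr (push_irr hp' hδ (hC.irr hIr)) gg (dl_ne _) hρ hG hmem1)
      (monL_of hC hg hL hp' hδ hre' gg hρ hG hmem hst hT fun Φ hΦ => ⟨_, hrep Φ hΦ⟩)
      hst (WW_comm ev_inv_inj hV'.1) (WW_rank ev_inv_inj hρ hV.1 hG hMu hy hpow)
      (fun i' hi' => ?_) (fun i' hi' => ?_) (fun i' hi' => ?_)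
      (fun h => ho ((Finset.mem_map' _).1 h)) hM.map (by rwa [Finset.card_map, Finset.card_map])
      (FS.asi (fs_of_zero hV' 0)) (hpc k' z A ρ G hρ hG gg)) (hDe.imp_right hC.detP)
  · obtain ⟨i, hi, rfl⟩ := Finset.mem_map.1 hi'
    obtain ⟨j, τ, h1, h2⟩ := hτ i hi
    obtain ⟨u, hu, hu'⟩ := hold i
    have e : Fin.append t z (Fin.castAddEmb k' i) = t i := Fin.append_left t z i
    have hx : ∀ {p : ℂ[X]}, p ≠ 0 → ev (xt (t i) 2) p ≠ 0 := fun hp => ev_xt_ne (by norm_num) hp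
    obtain ⟨h3, h4⟩ := (gg.msol (hx hD1) (hx hρ) (hx hG) (hFr.2.2 i hi).1).col j
    refine ⟨?_, FS.asp hz.1 (by
      rw [e]
      exact fs_of_tb (gg.tb hD1 hρ hG (hFr.2.2 i hi)))⟩
    refine ramAt hz.1 (half_conj hu hu' (hhalf i hi)) hst
      (fun Φ => WW_sat ev_inv_inj (X_sub_C_ne_zero _)) h3 (by rw [e]; exact h4) (fun Φ hΦ => ?_)
      ⟨_, hmem1, ev (xt (t i) 2) G.det * τ, ?_, fun h5 => h1 ?_⟩
    · rw [e, ga_col]
      exact eigen_of_rep (hx hG) (hrep Φ hΦ) h2 _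
    · rw [e, ga_col]
      exact eigen_Mu h2 _
    · rw [sg_mul, sg_ev, sg_xt] at h5
      exact mul_left_cancel₀ (hx hG) h5
  · revert hi'
    refine Fin.addCases (fun i hi' => Or.inr (FE.aep hz.1 ?_))
      (fun j _ => Or.inl (FS.asp hz.1 ?_)) i'
    · rw [Fin.append_left]
      exact fe_pun hp' hd hδ hD1 (hPu i fun h => hi' (Finset.mem_map_of_mem _ h)) (hK _) gg
        hρ hG fun Φ hΦ => ⟨_, hrep Φ hΦ⟩
    · refine fs_of_zero (gg.tg hD1 hρ hG (hFr.1 _ ?_)) 0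
      rintro ⟨i, hi⟩
      have h1 := hz.1 ((Fin.append_left t z i).trans hi)
      have h2 := congrArg Fin.val h1
      simp only [Fin.val_castAdd, Fin.val_natAdd] at h2
      omega
  · obtain ⟨i, hi, rfl⟩ : ∃ i, (i = o ∨ i ∈ M) ∧ Fin.castAddEmb k' i = i' :=
      hi'.elim (fun h => ⟨o, Or.inl rfl, h.symm⟩) fun h => by
        obtain ⟨i, hi, h⟩ := Finset.mem_map.1 h
        exact ⟨i, Or.inr hi, h⟩
    obtain ⟨h1, h2⟩ := hTw i hi
    obtain ⟨Cm, c1, c2, c3⟩ := hE i h1 h2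
    obtain ⟨u, hu, hu'⟩ := hold i
    obtain ⟨v, hv, hv'⟩ := hch i h1 Cm c1 c2
    exact ⟨fun h => h1 ((Finset.mem_map' _).1 h), (c3.conj hv hv').conj hu hu'⟩

end Pool.Agent.GR.OC
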