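import Pool.Agent.Lib.MP_aa40d3_nt.OC.Final
import Pool.Agent.Lib.MP_aa40d3_nt.OC.StmtG

/-! The case of all traceless matrices. -/

open Polynomial Matrix
open scoped Polynomial.Bivariate IntermediateField

namespace Pool.Agent.GR.OC

open CV Pool.Agent.GR.GE
open Pool.Agent.Lib.MP_a01f70_lc.QQ (Place)

variable {r : ℕ}

theorem mem_of_units {K : Type} [Field K] {W : Submodule K (Matrix (Fin r) (Fin r) K)}
    (h1 : ∀ k l, k ≠ l → single k l 1 ∈ W) (h2 : ∀ k l, single k k 1 - single l l 1 ∈ W)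
    {a : Matrix (Fin r) (Fin r) K} (ha : a.trace = 0) : a ∈ W := by
  classical
  rcases isEmpty_or_nonempty (Fin r) with _ | ⟨⟨i⟩⟩
  · exact Subsingleton.elim 0 a ▸ W.zero_mem
  have e : a = ∑ k, ∑ l, a k l • (single k l 1 - if k = l then single i i 1 else 0) := by
    simp only [smul_sub, Finset.sum_sub_distrib, smul_ite, smul_zero, Finset.sum_ite_eq,
      Finset.mem_univ, if_true, ← Finset.sum_smul]
    rw [show ∑ k, a k k = 0 from ha, zero_smul, sub_zero]
    simp only [smul_single, smul_eq_mul, mul_one]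
    exact matrix_eq_sum_single a
  rw [e]
  refine W.sum_mem fun k _ => W.sum_mem fun l _ => W.smul_mem _ ?_
  split_ifs with h
  · exact h ▸ h2 k i
  · rw [sub_zero]
    exact h1 k l h

theorem simL_sl : SimL (OP.slW r) := by
  classical
  rcases Nat.eq_zero_or_pos r with rfl | hr
  · exact ⟨fun a ha => ha, fun a _ b _ => Subsingleton.elim 0 (a * b - b * a) ▸ zero_mem _,
      fun U _ => Or.inl (Subsingleton.elim _ _), fun U _ _ => Or.inl (Subsingleton.elim _ _)⟩
  have : NeZero r := ⟨hr.ne'⟩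
  refine ⟨fun a ha => ha, fun a _ b _ => ?_, fun U hU => ?_, fun I hI hi => ?_⟩
  · rw [OP.mem_slW, trace_sub, trace_mul_comm, sub_self]
  · refine or_iff_not_imp_left.2 fun h => eq_top_iff.2 fun w _ => ?_
    obtain ⟨v, v1, v2⟩ := U.ne_bot_iff.1 h
    obtain ⟨i, hi⟩ := Function.ne_iff.1 v2
    have h1 := hU _ (OP.sub_mem_slW (vecMulVec w (Pi.single i 1))) v v1
    rw [sub_mulVec, smul_mulVec, one_mulVec, U.sub_mem_iff_left (U.smul_mem _ v1),
      vecMulVec_mulVec, single_one_dotProduct, op_smul_eq_smul] at h1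
    exact (U.smul_mem_iff hi).1 h1
  · have h0 : ∀ a, ∀ b ∈ I, a * b - b * a ∈ I := fun a b hb => by
      simpa [sub_mul, mul_sub] using hi _ (OP.sub_mem_slW a) b hb
    have h1 : ∀ b ∈ I, ∀ i j, i ≠ j → b j i ≠ 0 → single i j (1 : ℂ) ∈ I := fun b hb i j h k => by
      have h2 := h0 (single i j 1) _ (h0 (single i j 1) b hb)
      rw [Matrix.mul_sub, Matrix.sub_mul, ← Matrix.mul_assoc, ← Matrix.mul_assoc,
        Matrix.mul_assoc b, single_mul_single_of_ne _ _ _ _ h.symm, single_mul_mul_single,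
        Matrix.zero_mul, Matrix.mul_zero, one_mul, mul_one, sub_zero, zero_sub, ← neg_add',
        neg_mem_iff, ← two_smul ℂ, ← mul_one (b j i), ← smul_eq_mul, ← smul_single] at h2
      exact (I.smul_mem_iff k).1 ((I.smul_mem_iff two_ne_zero).1 h2)
    have h2 : ∀ i j k, k ≠ j → single i j (1 : ℂ) ∈ I → single k j (1 : ℂ) ∈ I :=
      fun i j k h hb => by
        have h3 := h0 (single k i 1) _ hb
        rwa [single_mul_single_same, single_mul_single_of_ne _ _ _ _ h.symm, sub_zero,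
          one_mul] at h3
    refine or_iff_not_imp_left.2 fun h => le_antisymm hI fun a ha => ?_
    obtain ⟨b, b1, b2⟩ := I.ne_bot_iff.1 h
    obtain ⟨i, j, h3⟩ : ∃ i j, i ≠ j ∧ single i j (1 : ℂ) ∈ I := by
      by_contra hc
      push Not at hc
      have k1 : ∀ c ∈ I, ∀ i j, i ≠ j → c j i = 0 := fun c hc' i j h =>
        by_contra fun k => hc i j h (h1 c hc' i j h k)
      have k2 : ∀ i j, b i i = b j j := fun i j => by_contra fun k => by
        have k3 := k1 _ (h0 (single j i 1) b b1) i j fun e => k (e ▸ rfl)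
        rw [Matrix.sub_apply, single_mul_apply_same, mul_single_apply_same, one_mul, mul_one,
          sub_eq_zero] at k3
        exact k k3
      refine b2 (Matrix.ext fun i j => ?_)
      by_cases h : j = i
      · have k3 : ∑ k, b k k = 0 := hI b1
        rw [Finset.sum_congr rfl fun k _ => k2 k i, Finset.sum_const, Finset.card_univ,
          Fintype.card_fin, nsmul_eq_mul] at k3
        exact h ▸ (mul_eq_zero.1 k3).resolve_left (Nat.cast_ne_zero.2 hr.ne')
      · exact k1 b b1 j i h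
    have h4 : ∀ k l, k ≠ l → single k l (1 : ℂ) ∈ I := fun k l h => by
      by_cases e : l = j
      · exact e ▸ h2 i j k (e ▸ h) h3.2
      · exact h2 j l k h (h1 _ (h2 i j l e h3.2) j l (Ne.symm e) (by simp))
    refine mem_of_units h4 (fun k l => ?_) ha
    by_cases e : k = l
    · rw [e, sub_self]
      exact I.zero_mem
    · have h5 := h0 (single k l 1) _ (h4 l k (Ne.symm e))
      rwa [single_mul_single_same, single_mul_single_same, one_mul] at h5

variable {F : Type} [Field F] [Algebra ℂ F] {S : CV.Sys ℂ r} {x y : F}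

theorem mem_spn_sl {Φ : Matrix (Fin r) (Fin r) F} : Φ ∈ spn 1 (OP.slW r) ↔ Φ.trace = 0 := by
  classical
  simp only [spn, inv_one, Matrix.one_mul, Matrix.mul_one]
  have e : ∀ k l : Fin r, (single k l (1 : ℂ)).map (algebraMap ℂ F) = single k l 1 := fun k l => by
    ext a b
    simp [single_apply, apply_ite (algebraMap ℂ F)]
  refine ⟨fun h => ?_, mem_of_units (fun k l h => Submodule.subset_span ?_)
    fun k l => Submodule.subset_span ?_⟩
  · refine (Submodule.span_le (p := LinearMap.ker (traceLinearMap (Fin r) F F))).2 ?_ h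
    rintro _ ⟨a, ha, rfl⟩
    exact (AddMonoidHom.map_trace (algebraMap ℂ F) a).symm.trans
      ((congrArg _ (OP.mem_slW.1 ha)).trans (map_zero _))
  · exact ⟨single k l 1, trace_single_eq_of_ne _ _ _ h, (e k l).symm⟩
  · refine ⟨single k k 1 - single l l 1, ?_, by rw [Matrix.map_sub _ (map_sub _), e, e]⟩
    rw [OP.mem_slW, trace_sub, trace_single_eq_same, trace_single_eq_same, sub_self]

theorem AdF.lieO (h : AdF S x y) : LieO S x y (OP.slW r) := by
  refine ⟨1, by simp, fun δ hδ => ⟨fun Φ hΦ => ?_, fun W h1 h2 => (h δ W hδ h2).imp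
    (fun k => eq_bot_iff.2 fun Φ hΦ => ?_) fun k => le_antisymm h1 fun Φ hΦ =>
      k Φ (mem_spn_sl.1 hΦ)⟩⟩
  · rw [mem_spn_sl] at hΦ ⊢
    rw [trace_sub, trace_smul, trace_smul, trace_sub, trace_mul_comm, sub_self, smul_zero,
      show (Φ.map δ).trace = δ Φ.trace from (map_sum δ _ _).symm, hΦ, map_zero, smul_zero, sub_zero]
  · obtain ⟨u, rfl⟩ := k Φ hΦ
    have h3 := mem_spn_sl.1 (h1 hΦ)
    have : CharZero F := charZero_of_injective_algebraMap (algebraMap ℂ F).injective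
    rw [trace_smul, trace_one, Fintype.card_fin, smul_eq_mul, mul_eq_zero, Nat.cast_eq_zero] at h3
    rcases h3 with rfl | rfl
    · rw [zero_smul]
      exact Submodule.zero_mem _
    · exact Subsingleton.elim _ _

theorem AdF.irrO (h : AdF S x y) (h0 : aeval x S.D ≠ 0) : IrrO S x y := by
  intro δ V hδ hV
  rcases subsingleton_or_nontrivial (Fin r) with _ | _
  · refine or_iff_not_imp_left.2 fun k => eq_top_iff.2 fun w _ => ?_
    obtain ⟨v, v1, v2⟩ := V.ne_bot_iff.1 k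
    obtain ⟨i, hi⟩ := Function.ne_iff.1 v2
    convert V.smul_mem (w i / v i) v1 using 1
    funext j
    rw [Subsingleton.elim j i, Pi.smul_apply, smul_eq_mul, div_mul_cancel₀ _ hi]
  · refine (h.adB hδ (smul_inv_smul₀ h0 _)).irr V fun v hv => ?_
    have k := V.smul_mem (aeval x S.D)⁻¹ (hV v hv)
    rwa [smul_sub, inv_smul_smul₀ h0, ← smul_mulVec, ← smul_mulVec] at k

theorem finalS_of {r k : ℕ} (hk : ∀ (R : Type) [CommRing R] [Algebra.FiniteType ℤ R]
    (ι ψ : R →+* ℂ) (S : CV.Sys R r) (F : Type) [Field F] [Algebra ℂ F] (x y : F)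
    (Sg M : Finset (Place ℂ F)) (p₀ : Place ℂ F) (g : Submodule ℂ (Matrix (Fin r) (Fin r) ℂ)),
    RingHom.ker ι ≤ RingHom.ker ψ → S.P.Monic →
    Irreducible (S.map ι).P → Irreducible (S.map ψ).P → (S.map ψ).D ≠ 0 → Transcendental ℂ x →
    ℂ⟮x, y⟯ = ⊤ → aevalAeval x y (S.map ι).P = 0 → p₀ ∈ M → M ⊆ Sg → 2 ≤ M.card →
    k ≤ 2 * genus F + M.card → RC.Free Sg p₀ →
    (∀ p ∈ M, ∀ φ, At φ p → TwoL (S.map ι) (φ x) (φ y)) →
    (∀ p ∉ Sg, ∀ φ, At φ p → (S.map ι).Loc (φ x) (φ y)) → IrrO (S.map ι) x y → SimL g →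
    LieO (S.map ι) x y g → (genus F = 0 ∨ DetO (S.map ι) x y) →
    (∀ m : Ideal R, m.IsMaximal → (S.map (Ideal.Quotient.mk m)).Tri) → (S.map ψ).Alg) :
    ∀ (R : Type) [CommRing R] [Algebra.FiniteType ℤ R]
    (ι ψ : R →+* ℂ) (S : CV.Sys R r) (F : Type) [Field F] [Algebra ℂ F] (x y : F)
    (Sg M : Finset (Place ℂ F)) (p₀ : Place ℂ F),
    RingHom.ker ι ≤ RingHom.ker ψ → S.P.Monic →
    Irreducible (S.map ι).P → Irreducible (S.map ψ).P → (S.map ψ).D ≠ 0 → Transcendental ℂ x →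
    ℂ⟮x, y⟯ = ⊤ → aevalAeval x y (S.map ι).P = 0 → p₀ ∈ M → M ⊆ Sg → 2 ≤ M.card →
    k ≤ 2 * genus F + M.card → RC.Free Sg p₀ →
    (∀ p ∈ M, ∀ φ, At φ p → TwoL (S.map ι) (φ x) (φ y)) →
    (∀ p ∉ Sg, ∀ φ, At φ p → (S.map ι).Loc (φ x) (φ y)) → AdF (S.map ι) x y →
    (genus F = 0 ∨ DetO (S.map ι) x y) →
    (∀ m : Ideal R, m.IsMaximal → (S.map (Ideal.Quotient.mk m)).Tri) → (S.map ψ).Alg :=
  fun R _ _ ι ψ S F _ _ x y Sg M p₀ h0 hP hI hI' hD hx hxy hy h1 h2 h3 h4 h5 h6 hL hA =>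
    hk R ι ψ S F x y Sg M p₀ _ h0 hP hI hI' hD hx hxy hy h1 h2 h3 h4 h5 h6 hL
      (hA.irrO fun e => hx ⟨_, FB.d_ne h0 hD, e⟩) simL_sl hA.lieO

end Pool.Agent.GR.OC
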