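import Pool.Agent.Lib.MP_aa40d3_nt.OC.Dfn
import Pool.Agent.Lib.MP_aa40d3_nt.OH.Two
import Pool.Agent.Lib.MP_aa40d3_nt.FK.She

/-! The monodromy group of the direct image of a system with a simple Lie algebra. -/

open Matrix Polynomial

namespace Pool.Agent.GR.OC

open NP GC FB OP CP FK

variable {r d N : ℕ}

theorem Tw.not_scl {b : Mt r} (h : Tw b) : ¬ Scl b := fun ⟨c, hc⟩ =>
  h c (by rw [hc, sub_self]; exact IsNilpotent.zero)

theorem tw_blk {J : Matrix (Fin (r * d)) (Fin r) ℂ} {K : Matrix (Fin r) (Fin (r * d)) ℂ}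
    (hKJ : K * J = 1) (hd : d ≠ 0) {m : Mt (r * d)} {b : Mt r} (e : m - 1 = J * (b - 1) * K)
    (h : Chp r d m) : Tw b := by
  obtain ⟨E, hE, h⟩ := h
  intro c hc
  have h1 := charpoly_mul_comm_of_le (J * (b - 1)) K
    (by simpa using Nat.le_mul_of_pos_right r (Nat.pos_of_ne_zero hd))
  have h2 := charpoly_sub_scalar m 1
  rw [map_one, e, h1, h, ← Matrix.mul_assoc, hKJ, Matrix.one_mul, mul_comp, pow_comp, sub_comp,
    X_comp, C_comp, add_sub_cancel_right, Fintype.card_fin, Fintype.card_fin, Nat.mul_sub_one,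
    ← charpoly_sub_scalar, map_one] at h2
  have h3 : ∀ z : Mt r, z - c • 1 = z - 1 - scalar _ (c - 1) := fun z => by
    rw [map_sub, map_one, sub_sub, add_sub_cancel, scalar_apply, smul_one_eq_diagonal]
  have h4 := (isNilpotent_charpoly_sub_pow_of_isNilpotent hc).eq_zero
  rw [h3, charpoly_sub_scalar, mul_left_cancel₀ (pow_ne_zero _ X_ne_zero) h2, ← charpoly_sub_scalar,
    ← h3, sub_eq_zero] at h4
  have h5 := aeval_self_charpoly (E - c • 1)
  rw [h4, aeval_X_pow] at h5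
  exact hE c ⟨_, h5⟩

section
variable {G : Type} [Group G] {σ : G →* Mt N} {b : BR σ d} {s : Fin d}
  {J : Matrix (Fin N) (Fin r) ℂ} {K : Matrix (Fin r) (Fin N) ℂ} (hKJ : K * J = 1)
  (hJK : J * K = b.e s)
include hKJ hJK

theorem blk_K : K * b.e s = K := by rw [← hJK, ← Matrix.mul_assoc, hKJ, Matrix.one_mul]

theorem blk_J : b.e s * J = J := by rw [← hJK, Matrix.mul_assoc, hKJ, Matrix.mul_one]

theorem blk_Ki {i : Fin d} (h : i ≠ s) : K * b.e i = 0 := by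
  rw [← blk_K hKJ hJK, Matrix.mul_assoc, b.orth _ _ h.symm, Matrix.mul_zero]

theorem blk_off {γ : G} (h : γ ∉ stS b s) : K * (σ γ * b.e s) = 0 := by
  rw [b.act, ← Matrix.mul_assoc, blk_Ki hKJ hJK (mt mem_stS.2 h), Matrix.zero_mul]

theorem blk_up (γ : stS b s) : J * blkS b s hKJ hJK γ * K = σ γ * b.e s := by
  change J * (K * σ γ * J) * K = _
  simp only [← Matrix.mul_assoc, hJK]
  rw [← stS_comm, Matrix.mul_assoc _ J, hJK, Matrix.mul_assoc, b.idem]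

theorem blk_one (x : stS b s) (h : ∀ l, l ≠ s → x.1 ∈ b.K l) :
    σ x - 1 = J * (blkS b s hKJ hJK x - 1) * K := by
  rw [Matrix.mul_sub, Matrix.sub_mul, blk_up, Matrix.mul_one, hJK, ← Matrix.mul_one (σ x - 1),
    ← b.sum, Finset.mul_sum, Finset.sum_eq_single s (fun l _ hl => by
      rw [b.sum, Matrix.sub_mul, (h l hl).2, Matrix.one_mul, sub_self]) (by simp), b.sum,
    Matrix.sub_mul, Matrix.one_mul]

theorem blk_scl {Z : Subalgebra ℂ (Mt N)} (es : ∀ y ∈ Z, ∃ c : Fin d → ℂ, y = ∑ i, c i • b.e i) :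
    ∀ z ∈ Z, ∃ c : ℂ, K * z = c • K := fun z hz => by
  obtain ⟨c, rfl⟩ := es z hz
  exact ⟨c s, by rw [Matrix.mul_sum, Finset.sum_eq_single s (fun i _ h => by
    rw [Matrix.mul_smul, blk_Ki hKJ hJK h, smul_zero]) (by simp), Matrix.mul_smul, blk_K hKJ hJK]⟩

theorem blk_irr {Z : Subalgebra ℂ (Mt N)} (hZ : InvR σ Z) (hI : IrrZ σ Z)
    (hs : ∀ z ∈ Z, ∃ c : ℂ, K * z = c • K) : IrrR (blkS b s hKJ hJK) := fun U hU => by
  refine (hI (⨅ γ, U.comap (K * σ γ).mulVecLin) (fun δ v hv => (Submodule.mem_iInf _).2 fun γ => ?_)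
    fun z hz v hv => (Submodule.mem_iInf _).2 fun γ => ?_).imp (fun h => eq_bot_iff.2 fun u hu => ?_)
    fun h => eq_top_iff.2 fun u _ => ?_
  · have := (Submodule.mem_iInf _).1 hv (γ * δ)
    rwa [map_mul, ← Matrix.mul_assoc, mulVecLin_mul] at this
  · obtain ⟨c, hc⟩ := hs _ (hZ γ z hz)
    have h1 : K * (σ γ * z * σ γ⁻¹) * σ γ = c • K * σ γ := by rw [hc]
    simp only [Matrix.mul_assoc, rep_inv_mul, Matrix.mul_one, Matrix.smul_mul] at h1
    change (K * σ γ) *ᵥ (z *ᵥ v) ∈ U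
    rw [mulVec_mulVec, Matrix.mul_assoc, h1, smul_mulVec]
    exact U.smul_mem c ((Submodule.mem_iInf _).1 hv γ)
  · have h1 : J *ᵥ u = 0 := h.le ((Submodule.mem_iInf _).2 fun γ => by
      change (K * σ γ) *ᵥ (J *ᵥ u) ∈ U
      rw [mulVec_mulVec]
      by_cases k : γ ∈ stS b s
      · exact hU ⟨γ, k⟩ u hu
      · rw [← blk_J hKJ hJK, ← Matrix.mul_assoc, Matrix.mul_assoc K, blk_off hKJ hJK k,
          Matrix.zero_mul, zero_mulVec]
        exact U.zero_mem)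
    rw [← one_mulVec u, ← hKJ, ← mulVec_mulVec, h1, mulVec_zero]
    exact zero_mem _
  · have h1 : (K * σ 1) *ᵥ (J *ᵥ u) ∈ U := (Submodule.mem_iInf _).1 (h.ge Submodule.mem_top) 1
    rwa [map_one, Matrix.mul_one, mulVec_mulVec, hKJ, one_mulVec] at h1

theorem blk_ad (γ : stS b s) {y : Mt N} (h : b.e s * y = y * b.e s) :
    AdR (blkS b s hKJ hJK) γ (K * y * J) = K * (σ γ * y * σ γ⁻¹) * J := by
  rw [AdR_apply]
  change K * σ γ * J * (K * y * J) * (K * σ (γ⁻¹ : stS b s) * J) = _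
  simp only [Matrix.mul_assoc]
  rw [← Matrix.mul_assoc J, ← Matrix.mul_assoc J, hJK, ← Matrix.mul_assoc (b.e s) y, h,
    Matrix.mul_assoc y, ← Matrix.mul_assoc (b.e s), b.idem, ← Matrix.mul_assoc (b.e s),
    ← stS_comm, Matrix.mul_assoc, blk_J hKJ hJK]
  rfl

theorem blk_irW {Z : Subalgebra ℂ (Mt N)} (hZ : InvR σ Z) (hm : b.e s ∈ Z)
    (hs : ∀ z ∈ Z, ∃ c : ℂ, K * z = c • K) {V : Submodule ℂ (Mt N)} (hV : LiC σ Z V) :
    IrW (blkS b s hKJ hJK) (V.map (sandL K J)) := by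
  refine ⟨?_, fun U hU k => ?_⟩
  · rintro γ _ ⟨y, hy, rfl⟩
    exact ⟨_, hV.inv γ y hy, (blk_ad hKJ hJK γ (hV.mod _ hm y hy).1).symm⟩
  have e : ∀ y, y ∈ V ⊓ ⨅ γ, U.comap (sandL K J ∘ₗ AdR σ γ) ↔
      y ∈ V ∧ ∀ γ, K * (σ γ * y * σ γ⁻¹) * J ∈ U := fun y => by
    simp only [Submodule.mem_inf, Submodule.mem_iInf, Submodule.mem_comap, LinearMap.comp_apply,
      AdR_apply]
    rfl
  refine (hV.min _ inf_le_left (fun δ y hy => (e _).2 ⟨hV.inv δ y hy.1, fun γ => ?_⟩)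
    fun z hz y hy => (e _).2 ⟨(hV.mod z hz y hy.1).2, fun γ => ?_⟩).imp
    (fun h => eq_bot_iff.2 fun u hu => ?_) fun h => le_antisymm hU ?_
  · simpa only [map_mul, _root_.mul_inv_rev, mul_assoc] using ((e y).1 hy).2 (γ * δ)
  · obtain ⟨c, hc⟩ := hs _ (hZ γ z hz)
    have h4 : σ γ * (z * y) * σ γ⁻¹ = σ γ * z * σ γ⁻¹ * (σ γ * y * σ γ⁻¹) := by
      simp only [mul_assoc]
      rw [← mul_assoc (σ γ⁻¹) (σ γ), rep_inv_mul, one_mul]
    rw [h4, ← Matrix.mul_assoc, hc, Matrix.smul_mul, Matrix.smul_mul]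
    exact U.smul_mem _ (((e y).1 hy).2 γ)
  · obtain ⟨y, hy, rfl⟩ := hU hu
    obtain ⟨h1, h2⟩ := hV.mod _ hm y hy
    have h0 : K * (b.e s * y) = K * y := by rw [← Matrix.mul_assoc, blk_K hKJ hJK]
    have h3 : b.e s * y = 0 := h.le ((e _).2 ⟨h2, fun γ => by
      by_cases hγ : γ ∈ stS b s
      · have := k ⟨γ, hγ⟩ _ hu
        rwa [show sandL K J y = K * (b.e s * y) * J by rw [h0]; rfl,
          blk_ad hKJ hJK _ (hV.mod _ hm _ h2).1] at this
      · rw [← Matrix.mul_assoc (σ γ), Matrix.mul_assoc _ y, ← Matrix.mul_assoc K,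
          blk_off hKJ hJK hγ, Matrix.zero_mul, Matrix.zero_mul]
        exact U.zero_mem⟩)
    change K * y * J = 0
    rw [← h0, h3, Matrix.mul_zero, Matrix.zero_mul]
  · rintro _ ⟨y, hy, rfl⟩
    have := ((e y).1 (h.ge hy)).2 1
    rwa [inv_one, map_one, mul_one, one_mul] at this

theorem blk_fin [Group.FG G] (e0 : ∀ i, b.e i ≠ 0) (htr : b.bs.Trans ⊤ Finset.univ)
    (h : (scS (blkS b s hKJ hJK)).FiniteIndex) {S : Set (Mt N)}
    (hS : ∀ y ∈ S, ∀ i, b.e i * y = y * b.e i) : FinOn σ S := by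
  have : (stS b s).FiniteIndex := Subgroup.finiteIndex_of_le (H := b.π.ker) fun x hx => by
    rw [mem_stS, MonoidHom.mem_ker.1 hx]
    rfl
  have : ((scS (blkS b s hKJ hJK)).map (stS b s).subtype).FiniteIndex := ⟨by
    rw [Subgroup.index_map_subtype]
    exact mul_ne_zero h.1 Subgroup.FiniteIndex.index_ne_zero⟩
  choose χ hχ using fun i => exists_char σ
    (((scS (blkS b s hKJ hJK)).map (stS b s).subtype).normalCore ⊓ b.π.ker) (e0 i) fun x hx => by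
      obtain ⟨γ, -, rfl⟩ := htr s (Finset.mem_univ _) i (Finset.mem_univ _)
      obtain ⟨w, ⟨c, a1⟩, a2⟩ := hx.1 γ⁻¹
      have a3 := blk_up hKJ hJK w
      have h2 : b.e (b.bs.π γ s) = σ γ * b.e s * σ γ⁻¹ := by
        rw [b.act, Matrix.mul_assoc, rep_mul_inv, Matrix.mul_one]
        rfl
      rw [a1, Matrix.mul_smul, Matrix.mul_one, Matrix.smul_mul, hJK,
        show (w : G) = γ⁻¹ * x * γ⁻¹⁻¹ from a2] at a3
      refine ⟨c, ?_⟩
      rw [h2, ← Matrix.smul_mul, ← Matrix.mul_smul, a3]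
      simp only [← Matrix.mul_assoc, ← map_mul]
      rw [show γ * (γ⁻¹ * x * γ⁻¹⁻¹) = x * γ by group]
  refine finOn_of σ _ _ b.e b.sum χ hχ (fun i γ => by
    rw [b.act, MonoidHom.mem_ker.1 γ.2.2]
    rfl) fun i j ⟨y, hy, hne⟩ γ => ?_
  have hij : i = j := by
    by_contra h3
    rw [hS y hy, Matrix.mul_assoc, b.orth i j h3, Matrix.mul_zero] at hne
    exact hne rfl
  rw [hij, div_self']
  exact IsOfFinOrder.one

end

theorem group_top (r : ℕ) (hr : 1 ≤ r) : ∃ k : ℕ, ∀ (d n : ℕ) (Mov Bs : Finset (Fin n))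
    (L0 : List (Fin n)) (g : Fin n → GLr (r * d)) (Z : Subalgebra ℂ (Mt (r * d))) (o : Fin n),
    d ≠ 0 → L0.Nodup → (∀ a, a ∈ L0) → (∀ a, QU (g a).val) →
    InvR (incl (Subgroup.closure (Set.range g))) Z → CommA Z → Module.finrank ℂ Z = d → IrrZ (incl (Subgroup.closure (Set.range g))) Z →
    ShL r (incl (Subgroup.closure (Set.range g))) Z →
    (∀ a ∈ Bs, ((g a).val - 1).rank ≤ r ∧ ∃ x ∈ Z, (g a).val * x ≠ x * (g a).val) →
    (∀ a, a ∉ Bs → g a = 1 ∨ She r (d - 1) (g a).val Z) →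
    (∀ a, a = o ∨ a ∈ Mov → a ∉ Bs ∧ Chp r d (g a).val) → (L0.map g).prod = 1 → o ∉ Mov →
    Mov.Nonempty → k + 2 * d ≤ Mov.card + Bs.card →
    PairH Mo (fun x => QU x.1.val) (L0.map (mkd {o} g)) →
    FinOn (incl (Subgroup.closure (Set.range g))) {y | ∀ z ∈ Z, z * y = y * z} := by
  classical
  have : NeZero r := ⟨by omega⟩
  obtain ⟨D, hD⟩ := engineB r
  obtain ⟨k, hk⟩ := OH.esc_two r D
  refine ⟨k, fun d n Mov Bs L0 g Z o hd h0 hall hu hZ hc hf hI ⟨V, hV, hS⟩ hB hP hM hp ho hne hn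
    hq => ?_⟩
  set Γ := Subgroup.closure (Set.range g) with hΓ
  let g' : Fin n → Γ := fun a => ⟨g a, Subgroup.subset_closure ⟨a, rfl⟩⟩
  have hg : Subgroup.closure (Set.range g') = ⊤ := by
    apply Subgroup.map_injective Γ.subtype_injective
    rw [MonoidHom.map_closure, ← Set.range_comp, ← MonoidHom.range_eq_map, Subgroup.range_subtype]
    rfl
  have : Group.FG Γ := ⟨⟨Finset.univ.image g', by
    rw [Finset.coe_image, Finset.coe_univ, Set.image_univ, hg]⟩⟩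
  have := wed_semiZ hI hZ
  obtain ⟨e, e0, em, eo, e1, es⟩ := exists_idemS hc hf
  obtain ⟨b, rfl⟩ := exists_BR (incl_inj Γ) hZ e0 em eo e1 es
  have htr := b.trans (fun U k1 k2 => hI U k1 fun z hz v hv => by
    obtain ⟨c, rfl⟩ := es z hz
    rw [sum_mulVec]
    exact U.sum_mem fun i _ => by rw [smul_mulVec]; exact U.smul_mem _ (k2 i v hv)) e0
  have hrk := b.rank_eq htr rfl
  obtain ⟨s⟩ : Nonempty (Fin d) := ⟨⟨0, Nat.pos_of_ne_zero hd⟩⟩
  obtain ⟨J, K, hKJ, hJK⟩ : ∃ (J : Matrix (Fin (r * d)) (Fin r) ℂ)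
      (K : Matrix (Fin r) (Fin (r * d)) ℂ), K * J = 1 ∧ J * K = b.e s := by
    have h := idem_fac (b.idem s)
    rwa [hrk s] at h
  have hs := blk_scl hKJ hJK es
  obtain ⟨hL, hO⟩ := hS J K hKJ (hJK ▸ em s) hs
  have : (stS b s).FiniteIndex := Subgroup.finiteIndex_of_le (H := b.π.ker) fun x hx => by
    rw [mem_stS, MonoidHom.mem_ker.1 hx]
    rfl
  have : Group.FG (stS b s) := Subgroup.fg_of_index_ne_zero _
  have hπ : ∀ a ∈ Bs, b.bs.π (g' a) ≠ 1 := fun a ha h4 => by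
    obtain ⟨x, hx, h3⟩ := (hB a ha).2
    refine h3 ?_
    obtain ⟨c, rfl⟩ := es x hx
    rw [Finset.mul_sum, Finset.sum_mul]
    refine Finset.sum_congr rfl fun i _ => ?_
    have h5 := b.act (g' a) i
    rw [show b.π (g' a) = 1 from h4] at h5
    rw [Matrix.mul_smul, Matrix.smul_mul]
    exact congrArg _ h5
  have hpu : ∀ a, a ∉ Bs → b.bs.Punc 1 (g' a) := fun a ha => by
    rcases hP a ha with h | h
    · rw [show g' a = 1 from Subtype.ext h]
      exact ⟨map_one _, ∅, by simp, fun _ _ => one_mem _⟩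
    · exact punc_of_she b hr hrk em (x := g' a) h
  have hsh : ∀ x, b.bs.Punc 1 x → ∃ i, ∀ l, l ≠ i → x ∈ b.K l := fun x ⟨_, T, hT, h⟩ => by
    have : Nonempty (Fin d) := ⟨s⟩
    obtain ⟨i, hi⟩ := Finset.card_le_one_iff_subset_singleton.1 hT
    exact ⟨i, fun l hl => h l fun k => hl (Finset.mem_singleton.1 (hi k))⟩
  have htw : ∀ a, a = o ∨ a ∈ Mov → ∀ x : stS b s, IsConj (g' a) x → (∀ l, l ≠ s → x.1 ∈ b.K l) →
      Tw (blkS b s hKJ hJK x) := fun a ha x hx h => by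
    obtain ⟨γ, hγ⟩ := isConj_iff.1 hx
    obtain ⟨E, h1, h2⟩ := (hM a ha).2
    refine tw_blk hKJ hd (blk_one hKJ hJK x h) ⟨E, h1, ?_⟩
    rw [← h2, ← hγ, map_mul, map_mul, charpoly_mul_comm, ← mul_assoc, rep_inv_mul, one_mul]
    rfl
  have htw' : ∀ a, a = o ∨ a ∈ Mov → ∀ x : stS b s, IsConj (g' a) x →
      ¬ Scl (blkS b s hKJ hJK x) → Tw (blkS b s hKJ hJK x) := fun a ha x hx h => by
    obtain ⟨γ, hγ⟩ := isConj_iff.1 hx
    obtain ⟨i, hi⟩ := hsh _ (hγ ▸ (hpu a (hM a ha).1).conj γ)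
    obtain rfl : s = i := by
      by_contra k
      refine h ⟨1, ?_⟩
      change K * incl Γ x * J = _
      rw [← blk_J hKJ hJK, ← Matrix.mul_assoc, Matrix.mul_assoc K, (hi s k).2, Matrix.mul_assoc,
        blk_J hKJ hJK, hKJ, one_smul]
    exact htw a ha x hx hi
  have hqu : ∀ a, ∀ x : stS b s, IsConj (g' a) x → QU (blkS b s hKJ hJK x) := fun a x hx =>
    QU.of_lin (σ := (incl Γ).comp (stS b s).subtype) (L := sandL K J) (fun _ => rfl)
      (QU.of_isConj (a := (incl Γ).toHomUnits x) (b := (incl Γ).toHomUnits (g' a))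
        ((incl Γ).toHomUnits.map_isConj hx.symm) (hu a))
  refine blk_fin hKJ hJK e0 htr (hD _ _ _ _ _ hL (blk_irW hKJ hJK hZ (em s) hs hV)
    (blk_irr hKJ hJK hZ hI hs) (fun x y hx ⟨a, ha, hy⟩ k1 k2 => hO x y (hJK ▸ stS_comm x)
      (hJK ▸ stS_comm y) (hqu o x hx) (hqu a y hy) (htw' o (Or.inl rfl) x hx k1) (htw' a (Or.inr ha) y hy k2))
    (hk d _ n Γ _ b g' L0 o Mov s J K hKJ hJK h0 hall hg hrk htr (fun a => ?_) (Subtype.ext ?_)
      (fun a ha => ⟨(hpu a (hM a ha).1).1, ?_⟩) ho hne (hn.trans (Nat.add_le_add_left ?_ _))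
      (PairH.of_map (P := Mo) (Q := fun x => QU x.1.val) (Γ.subtype.prodMap (MonoidHom.id Mk))
        (by rw [List.map_map]; exact hq)))) fun y hy i => hy _ (em i)
  · by_cases ha : a ∈ Bs
    · obtain ⟨i, hi⟩ := not_forall.1 fun e => hπ a ha (Equiv.ext e)
      exact Or.inl ⟨i, _, b.swap hr hrk (x := g' a) (hB a ha).1 (fun e => hi e.symm) rfl⟩
    · exact Or.inr (hpu a ha)
  · rw [← Γ.coe_subtype, map_list_prod, List.map_map]
    exact hp
  · obtain ⟨i, hi⟩ := hsh _ (hpu a (hM a ha).1)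
    obtain ⟨γ, -, rfl⟩ := htr i (Finset.mem_univ _) s (Finset.mem_univ _)
    have h1 : b.π (γ * g' a * γ⁻¹) = 1 := ((hpu a (hM a ha).1).conj γ).1
    refine ⟨⟨γ * g' a * γ⁻¹, by rw [mem_stS, h1]; rfl⟩, isConj_iff.2 ⟨γ, rfl⟩,
      (htw a ha _ (isConj_iff.2 ⟨γ, rfl⟩) fun l hl => ?_).not_scl⟩
    obtain ⟨l, rfl⟩ := (b.bs.π γ).surjective l
    exact b.bs.conj γ l _ (hi l fun e => hl (e ▸ rfl))
  · rw [BS.cnt, List.countP_map, List.countP_eq_length_filter,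
      ← List.toFinset_card_of_nodup (h0.filter _)]
    exact Finset.card_le_card fun a ha =>
      List.mem_toFinset.2 (List.mem_filter.2 ⟨hall a, decide_eq_true (hπ a ha)⟩)

end Pool.Agent.GR.OC
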